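import Mathlib

namespace Pool.Agent.Lib_helper26.TriRead

open Finset Classical

/-- overwrite `p` on the range of `c` by `q` -/
noncomputable def upd {A B C : Type} (c : C → A) (q : C → B) (p : A → B) : A → B :=
  fun a => if h : ∃ x, c x = a then q h.choose else p a

lemma upd_mem {A B C : Type} {c : C → A} (hc : Function.Injective c) (q : C → B) (p : A → B) (x : C) :
    upd c q p (c x) = q x := by
  unfold upd
  have h : ∃ y, c y = c x := ⟨x, rfl⟩
  rw [dif_pos h, hc h.choose_spec]

lemma upd_not_mem {A B C : Type} {c : C → A} (q : C → B) (p : A → B) (a : A)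
    (h : ¬ ∃ x, c x = a) : upd c q p a = p a := by
  unfold upd
  rw [dif_neg h]

lemma count_comp {A B C : Type} [Fintype A] [Fintype B] [Fintype C] {c : C → A}
    (hc : Function.Injective c) (Q : (C → B) → Prop) :
    (univ.filter (fun p : A → B => Q (p ∘ c))).card * Fintype.card B ^ Fintype.card C ≤
      (univ.filter (fun q : C → B => Q q)).card * Fintype.card B ^ Fintype.card A := by
  have h : ((univ.filter (fun p : A → B => Q (p ∘ c))) ×ˢ (univ : Finset (C → B))).card ≤
      ((univ.filter (fun q : C → B => Q q)) ×ˢ (univ : Finset (A → B))).card := by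
    refine Finset.card_le_card_of_injOn (fun r => (r.1 ∘ c, upd c r.2 r.1)) ?_ ?_
    · intro r hr
      simp only [coe_product, coe_filter, mem_univ, true_and, Set.mem_prod, Set.mem_ofPred_eq,
        coe_univ, Set.mem_univ, and_true] at hr ⊢
      exact hr
    · intro r _ r' _ hrr
      simp only [Prod.mk.injEq] at hrr
      obtain ⟨h1, h2⟩ := hrr
      refine Prod.ext ?_ ?_
      · funext a
        by_cases ha : ∃ x, c x = a
        · obtain ⟨x, rfl⟩ := ha
          exact congrFun h1 x
        · have := congrFun h2 a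
          rwa [upd_not_mem _ _ _ ha, upd_not_mem _ _ _ ha] at this
      · funext x
        have := congrFun h2 (c x)
        rwa [upd_mem hc, upd_mem hc] at this
  rw [card_product, card_product, card_univ, card_univ, Fintype.card_fun, Fintype.card_fun] at h
  exact h

lemma count_eqs {A B C : Type} [Fintype A] [Fintype B] [Fintype C] {c : C → A}
    (hc : Function.Injective c) (d : C → A) (hd : ∀ x y, d x ≠ c y) :
    (univ.filter (fun p : A → B => ∀ x, p (c x) = p (d x))).card * Fintype.card B ^ Fintype.card C ≤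
      Fintype.card B ^ Fintype.card A := by
  have h : ((univ.filter (fun p : A → B => ∀ x, p (c x) = p (d x))) ×ˢ (univ : Finset (C → B))).card ≤
      (univ : Finset (A → B)).card := by
    refine Finset.card_le_card_of_injOn (fun r => upd c r.2 r.1) (fun _ _ => by simp) ?_
    intro r hr r' hr' h2
    simp only [coe_product, coe_filter, mem_univ, true_and, Set.mem_prod, Set.mem_ofPred_eq,
        coe_univ, Set.mem_univ, and_true] at hr hr'
    simp only at h2
    have hne : ∀ x, ¬ ∃ y, c y = d x := by
      rintro x ⟨y, hy⟩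
      exact hd x y hy.symm
    have h3 : ∀ a, (¬ ∃ x, c x = a) → r.1 a = r'.1 a := by
      intro a ha
      have := congrFun h2 a
      rwa [upd_not_mem _ _ _ ha, upd_not_mem _ _ _ ha] at this
    refine Prod.ext ?_ ?_
    · funext a
      by_cases ha : ∃ x, c x = a
      · obtain ⟨x, rfl⟩ := ha
        rw [hr x, hr' x]
        exact h3 _ (hne x)
      · exact h3 a ha
    · funext x
      have := congrFun h2 (c x)
      rwa [upd_mem hc, upd_mem hc] at this
  rw [card_product, card_univ, card_univ, Fintype.card_fun, Fintype.card_fun] at h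
  exact h

lemma pairs_card {B : Type} [Fintype B] (X : Finset (Sym2 B)) (F : B → B → Prop)
    (hF : ∀ a b, F a b → s(a, b) ∈ X) :
    (univ.filter (fun q : B × B => F q.1 q.2)).card ≤ 2 * X.card := by
  refine (Finset.card_le_mul_card_image (f := fun q : B × B => s(q.1, q.2)) _ 2 ?_).trans ?_
  · intro e _
    induction e using Sym2.ind with
    | _ x y =>
      refine (Finset.card_le_card (t := {(x, y), (y, x)}) ?_).trans Finset.card_le_two
      intro q hq
      simp only [mem_filter, mem_univ, true_and] at hq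
      simp only [mem_insert, mem_singleton]
      rcases Sym2.eq_iff.1 hq.2 with ⟨h1, h2⟩ | ⟨h1, h2⟩
      · left; exact Prod.ext h1 h2
      · right; exact Prod.ext h1 h2
  · refine Nat.mul_le_mul_left _ (Finset.card_le_card ?_)
    intro e he
    obtain ⟨q, hq, rfl⟩ := Finset.mem_image.1 he
    exact hF _ _ (Finset.mem_filter.1 hq).2

lemma tri_count {B : Type} [Fintype B] (F : B → B → Prop) :
    (univ.filter (fun q : Fin 3 → B => F (q 0) (q 1) ∧ F (q 0) (q 2) ∧ F (q 1) (q 2))).card ^ 2 ≤
      (univ.filter (fun q : B × B => F q.1 q.2)).card ^ 3 := by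
  set S := univ.filter (fun q : B × B => F q.1 q.2) with hS
  set N : B × B → ℕ := fun q => (univ.filter (fun c => F q.1 c ∧ F q.2 c)).card with hN
  set deg : B → ℕ := fun a => (univ.filter (fun c => F a c)).card with hdeg
  have hSdeg : S.card = ∑ a, deg a := by
    rw [hS, Finset.card_filter, Fintype.sum_prod_type]
    refine Finset.sum_congr rfl (fun a _ => ?_)
    rw [hdeg]
    simp only
    rw [Finset.card_filter]
  have h1 : (univ.filter (fun q : Fin 3 → B => F (q 0) (q 1) ∧ F (q 0) (q 2) ∧ F (q 1) (q 2))).card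
      ≤ ∑ q ∈ S, N q := by
    have : (univ.filter (fun q : Fin 3 → B => F (q 0) (q 1) ∧ F (q 0) (q 2) ∧ F (q 1) (q 2))).card ≤
        (S.sigma (fun q => univ.filter (fun c => F q.1 c ∧ F q.2 c))).card := by
      refine Finset.card_le_card_of_injOn (fun q => ⟨(q 0, q 1), q 2⟩) ?_ ?_
      · intro q hq
        simp only [coe_filter, mem_univ, true_and, Set.mem_ofPred_eq] at hq
        simp only [coe_sigma, Set.mem_sigma_iff, mem_coe, mem_filter, mem_univ, true_and, hS]
        exact ⟨hq.1, hq.2.1, hq.2.2⟩
      · intro q _ q' _ hqq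
        simp only [Sigma.mk.injEq, Prod.mk.injEq, heq_eq_eq] at hqq
        funext i
        fin_cases i
        · exact hqq.1.1
        · exact hqq.1.2
        · exact hqq.2
    rwa [Finset.card_sigma] at this
  have h2 : ∑ q ∈ S, N q ^ 2 ≤ S.card ^ 2 := by
    calc ∑ q ∈ S, N q ^ 2 ≤ ∑ q : B × B, N q ^ 2 :=
          Finset.sum_le_sum_of_subset (Finset.subset_univ _)
      _ ≤ ∑ q : B × B, deg q.1 * deg q.2 := by
          refine Finset.sum_le_sum (fun q _ => ?_)
          rw [sq]
          refine Nat.mul_le_mul ?_ ?_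
          · refine Finset.card_le_card (fun c hc => ?_)
            simp only [mem_filter, mem_univ, true_and] at hc ⊢
            exact hc.1
          · refine Finset.card_le_card (fun c hc => ?_)
            simp only [mem_filter, mem_univ, true_and] at hc ⊢
            exact hc.2
      _ = S.card ^ 2 := by
          rw [hSdeg, sq, Finset.sum_mul_sum, Fintype.sum_prod_type]
  calc (univ.filter (fun q : Fin 3 → B => F (q 0) (q 1) ∧ F (q 0) (q 2) ∧ F (q 1) (q 2))).card ^ 2
      ≤ (∑ q ∈ S, N q) ^ 2 := Nat.pow_le_pow_left h1 2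
    _ ≤ S.card * ∑ q ∈ S, N q ^ 2 := sq_sum_le_card_mul_sum_sq
    _ ≤ S.card * S.card ^ 2 := Nat.mul_le_mul_left _ h2
    _ = S.card ^ 3 := by ring

lemma two_count {B : Type} [Fintype B] (F : B → B → Prop) :
    (univ.filter (fun q : Fin 4 → B => F (q 0) (q 1) ∧ F (q 2) (q 3))).card ≤
      (univ.filter (fun q : B × B => F q.1 q.2)).card ^ 2 := by
  rw [sq, ← card_product]
  refine Finset.card_le_card_of_injOn (fun q => ((q 0, q 1), (q 2, q 3))) ?_ ?_
  · intro q hq
    simp only [coe_filter, mem_univ, true_and, Set.mem_ofPred_eq] at hq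
    simp only [coe_product, coe_filter, mem_univ, true_and, Set.mem_prod, Set.mem_ofPred_eq]
    exact hq
  · intro q _ q' _ hqq
    simp only [Prod.mk.injEq] at hqq
    funext i
    fin_cases i
    · exact hqq.1.1
    · exact hqq.1.2
    · exact hqq.2.1
    · exact hqq.2.2

/-! ### counting without instances -/

/-- number of elements with property `Q` -/
noncomputable def num {α : Type} (Q : α → Prop) : ℕ := Nat.card {a // Q a}

lemma num_eq {α : Type} [Fintype α] (Q : α → Prop) [DecidablePred Q] :
    num Q = (univ.filter (fun a => Q a)).card := by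
  unfold num
  rw [Nat.card_eq_fintype_card, Fintype.card_subtype]

lemma num_le_of_inj {α β : Type} [Finite β] {Q : α → Prop} {Q' : β → Prop} (f : α → β)
    (h : ∀ a, Q a → Q' (f a)) (hf : ∀ a b, Q a → Q b → f a = f b → a = b) : num Q ≤ num Q' := by
  unfold num
  refine Nat.card_le_card_of_injective (fun a : {a // Q a} => (⟨f a, h _ a.2⟩ : {b // Q' b})) ?_
  intro a b hab
  exact Subtype.ext (hf _ _ a.2 b.2 (congrArg Subtype.val hab))

lemma num_mono {α : Type} [Finite α] {Q Q' : α → Prop} (h : ∀ a, Q a → Q' a) : num Q ≤ num Q' :=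
  num_le_of_inj id h (fun _ _ _ _ h => h)

lemma num_congr {α : Type} {Q Q' : α → Prop} (h : ∀ a, Q a ↔ Q' a) : num Q = num Q' := by
  have : Q = Q' := funext (fun a => propext (h a))
  rw [this]

lemma num_le_card {α : Type} [Finite α] (Q : α → Prop) : num Q ≤ Nat.card α :=
  Nat.card_le_card_of_injective _ Subtype.val_injective

lemma num_true {α : Type} : num (fun _ : α => True) = Nat.card α := by
  unfold num
  exact Nat.card_congr (Equiv.subtypeUnivEquiv (fun _ => trivial))

lemma num_union {α ι : Type} [Finite α] [Fintype ι] {Q : α → Prop} (R : ι → α → Prop)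
    (h : ∀ a, Q a → ∃ i, R i a) : num Q ≤ ∑ i, num (R i) := by
  unfold num
  rw [← Nat.card_sigma]
  refine Nat.card_le_card_of_injective
    (fun a : {a // Q a} => (⟨(h a a.2).choose, ⟨a, (h a a.2).choose_spec⟩⟩ : (i : ι) × {a // R i a})) ?_
  intro a b hab
  have h2 : (⟨(h a a.2).choose, ⟨a.1, (h a a.2).choose_spec⟩⟩ : (i : ι) × {a // R i a}).2.1 =
      (⟨(h b b.2).choose, ⟨b.1, (h b b.2).choose_spec⟩⟩ : (i : ι) × {a // R i a}).2.1 := by
    have := congrArg (fun s : (i : ι) × {a // R i a} => s.2.1) hab
    exact this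
  exact Subtype.ext h2

lemma num_or {α : Type} [Finite α] {Q Q1 Q2 : α → Prop} (h : ∀ a, Q a → Q1 a ∨ Q2 a) :
    num Q ≤ num Q1 + num Q2 := by
  have := num_union (ι := Bool) (fun b a => if b then Q1 a else Q2 a) (Q := Q) (by
    intro a ha
    rcases h a ha with h1 | h1
    · exact ⟨true, by simpa using h1⟩
    · exact ⟨false, by simpa using h1⟩)
  simpa using this

lemma num_sum {α β : Type} [Fintype α] [Finite β] (Q : α → β → Prop) :
    ∑ a, num (Q a) = num (fun p : α × β => Q p.1 p.2) := by
  unfold num
  rw [← Nat.card_sigma]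
  refine Nat.card_congr ?_
  exact {
    toFun := fun s => ⟨(s.1, s.2.1), s.2.2⟩
    invFun := fun s => ⟨s.1.1, ⟨s.1.2, s.2⟩⟩
    left_inv := fun s => rfl
    right_inv := fun s => rfl }

lemma num_swap {α β : Type} [Fintype α] [Fintype β] (Q : α → β → Prop) :
    ∑ a, num (Q a) = ∑ b, num (fun a => Q a b) := by
  rw [num_sum, num_sum]
  unfold num
  refine Nat.card_congr ?_
  exact {
    toFun := fun s => ⟨(s.1.2, s.1.1), s.2⟩
    invFun := fun s => ⟨(s.1.2, s.1.1), s.2⟩
    left_inv := fun s => rfl
    right_inv := fun s => rfl }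

lemma num_comp {A B C : Type} [Finite A] [Finite B] [Finite C] {c : C → A}
    (hc : Function.Injective c) (Q : (C → B) → Prop) :
    num (fun p : A → B => Q (p ∘ c)) * Nat.card B ^ Nat.card C ≤ num Q * Nat.card B ^ Nat.card A := by
  have := Fintype.ofFinite A
  have := Fintype.ofFinite B
  have := Fintype.ofFinite C
  have h := count_comp (A := A) (B := B) (C := C) hc Q
  rw [num_eq, num_eq, Nat.card_eq_fintype_card, Nat.card_eq_fintype_card, Nat.card_eq_fintype_card]
  exact h

lemma num_eqs {A B C : Type} [Finite A] [Finite B] [Finite C] {c : C → A}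
    (hc : Function.Injective c) (d : C → A) (hd : ∀ x y, d x ≠ c y) :
    num (fun p : A → B => ∀ x, p (c x) = p (d x)) * Nat.card B ^ Nat.card C ≤
      Nat.card B ^ Nat.card A := by
  have := Fintype.ofFinite A
  have := Fintype.ofFinite B
  have := Fintype.ofFinite C
  have h := count_eqs (A := A) (B := B) (C := C) hc d hd
  rw [num_eq, Nat.card_eq_fintype_card, Nat.card_eq_fintype_card, Nat.card_eq_fintype_card]
  convert h

lemma num_pairs {B : Type} [Finite B] (X : Finset (Sym2 B)) (F : B → B → Prop)
    (hF : ∀ a b, F a b → s(a, b) ∈ X) : num (fun q : B × B => F q.1 q.2) ≤ 2 * X.card := by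
  have := Fintype.ofFinite B
  rw [num_eq]
  exact pairs_card X F hF

lemma num_tri {B : Type} [Finite B] (F : B → B → Prop) :
    num (fun q : Fin 3 → B => F (q 0) (q 1) ∧ F (q 0) (q 2) ∧ F (q 1) (q 2)) ^ 2 ≤
      num (fun q : B × B => F q.1 q.2) ^ 3 := by
  have := Fintype.ofFinite B
  rw [num_eq, num_eq]
  have h := tri_count F
  convert h

lemma num_two {B : Type} [Finite B] (F : B → B → Prop) :
    num (fun q : Fin 4 → B => F (q 0) (q 1) ∧ F (q 2) (q 3)) ≤
      num (fun q : B × B => F q.1 q.2) ^ 2 := by
  have := Fintype.ofFinite B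
  rw [num_eq, num_eq]
  have h := two_count F
  convert h

end Pool.Agent.Lib_helper26.TriRead
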