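import Mathlib

/-!
# Nondeterministic programs with bounded re-reading of the input

The input is a set `x` of elements of `E` (for graphs: the set of edges). A program has states in
`V`; in a state `v` it reads the input bits in the finite set `reads v`, all at once, and moves to
a next state; the admissible next states are an arbitrary function of `v` and of the bits read.
-/

namespace Pool.Agent.Lib_helper26.TriRead

/-- `Walk R u w l`: there is a walk from `u` to `w` along the relation `R`; `l` is the list of the
states visited before the last one. -/
inductive Walk {V : Type} (R : V → V → Prop) : V → V → List V → Prop
  | nil (u : V) : Walk R u u []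
  | cons {u v w : V} {l : List V} : R u v → Walk R v w l → Walk R u w (u :: l)

/-- A nondeterministic, nonuniform program with inputs `x : Set E` and states in `V`. -/
structure Prog (E V : Type) where
  /-- initial state -/
  start : V
  /-- accepting state -/
  acc : V
  /-- the input bits read in a state -/
  reads : V → Finset E
  /-- `step v x w`: on input `x` the program may go from state `v` to state `w` -/
  step : V → Set E → V → Prop
  /-- a step from `v` depends on the input only through the bits read in `v` -/
  loc : ∀ v w x y, (∀ e ∈ reads v, (e ∈ x ↔ e ∈ y)) → step v x w → step v y w

variable {E V : Type}

/-- The program has a computation on input `x` from `start` to `acc`. -/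
def Prog.Accepts (P : Prog E V) (x : Set E) : Prop :=
  ∃ l, Walk (fun v w => P.step v x w) P.start P.acc l

/-- Steps that are possible on some input. -/
def Prog.Syn (P : Prog E V) (v w : V) : Prop := ∃ x, P.step v x w

open Classical in
/-- On every syntactic path from `start` to `acc` (every step is possible on some input, possibly
different inputs for different steps) every input bit `e` is read at most `R e` times. -/
def Prog.ReadBound (P : Prog E V) (R : E → ℕ) : Prop :=
  ∀ l, Walk P.Syn P.start P.acc l → ∀ e, (l.filter (fun v => e ∈ P.reads v)).length ≤ R e

/-- At most `b` input bits are read in one step. -/
def Prog.ChunkAtMost (P : Prog E V) (b : ℕ) : Prop := ∀ v, (P.reads v).card ≤ b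

end Pool.Agent.Lib_helper26.TriRead
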