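import Mathlib
import Pool.Agent.Lib_helper26.TriRead.Defs

namespace Pool.Agent.Lib_helper26.TriRead

open Finset Classical

variable {E V : Type}

lemma Walk.append {R : V → V → Prop} {u v w : V} {l l' : List V} (h : Walk R u v l)
    (h' : Walk R v w l') : Walk R u w (l ++ l') := by
  induction h with
  | nil u => simpa using h'
  | cons hr _ ih => exact Walk.cons hr (ih h')

lemma Walk.mono {R R' : V → V → Prop} (hR : ∀ u v, R u v → R' u v) {u v : V} {l : List V}
    (h : Walk R u v l) : Walk R' u v l := by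
  induction h with
  | nil u => exact Walk.nil u
  | cons hr _ ih => exact Walk.cons (hR _ _ hr) ih

lemma Walk.single {R : V → V → Prop} {u v : V} (h : R u v) : Walk R u v [u] :=
  Walk.cons h (Walk.nil v)

/-- first exit from a property -/
lemma Walk.split {R : V → V → Prop} (Q : V → Prop) {u w : V} {l : List V} (h : Walk R u w l)
    (hu : Q u) (hw : ¬ Q w) : ∃ b c l1 l2, Walk R u b l1 ∧ R b c ∧ Walk R c w l2 ∧ Q b ∧ ¬ Q c ∧
      l2.length < l.length := by
  induction h with
  | nil u => exact absurd hu hw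
  | @cons u v w l hr hw' ih =>
    by_cases hv : Q v
    · obtain ⟨b, c, l1, l2, h1, h2, h3, h4, h5, h6⟩ := ih hv hw
      exact ⟨b, c, u :: l1, l2, Walk.cons hr h1, h2, h3, h4, h5, by simp only [List.length_cons]; omega⟩
    · exact ⟨u, v, [], l, Walk.nil u, hr, hw', hu, hv, by simp⟩

variable [Fintype E]

/-- number of reads of `e` along `l` -/
noncomputable def Prog.cnt (P : Prog E V) (e : E) (l : List V) : ℕ :=
  (l.filter (fun v => e ∈ P.reads v)).length

omit [Fintype E] in
lemma Prog.cnt_append (P : Prog E V) (e : E) (l l' : List V) :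
    P.cnt e (l ++ l') = P.cnt e l + P.cnt e l' := by
  simp [Prog.cnt, List.filter_append]

omit [Fintype E] in
lemma Prog.cnt_pos (P : Prog E V) (e : E) (l : List V) (v : V) (hv : v ∈ l) (he : e ∈ P.reads v) :
    1 ≤ P.cnt e l := by
  unfold Prog.cnt
  apply List.length_pos_of_mem (a := v)
  simp [hv, he]

/-- input bits read on some syntactic walk from `a` to `b` -/
noncomputable def Prog.X (P : Prog E V) (a b : V) : Finset E :=
  Finset.univ.filter (fun e => ∃ l, Walk P.Syn a b l ∧ 1 ≤ P.cnt e l)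

lemma Prog.mem_X (P : Prog E V) (a b : V) (e : E) :
    e ∈ P.X a b ↔ ∃ l, Walk P.Syn a b l ∧ 1 ≤ P.cnt e l := by
  simp [Prog.X]

lemma Prog.loop (P : Prog E V) {R : E → ℕ} (hr : P.ReadBound R) {u : V} {l0 l1 : List V}
    (h0 : Walk P.Syn P.start u l0) (h1 : Walk P.Syn u P.acc l1) : P.X u u = ∅ := by
  rw [Finset.eq_empty_iff_forall_notMem]
  intro e he
  rw [P.mem_X] at he
  obtain ⟨l, hl, hc⟩ := he
  have key : ∀ k : ℕ, ∃ l', Walk P.Syn u u l' ∧ k ≤ P.cnt e l' := by
    intro k
    induction k with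
    | zero => exact ⟨[], Walk.nil u, Nat.zero_le _⟩
    | succ k ih =>
      obtain ⟨l', h', hk⟩ := ih
      exact ⟨l ++ l', hl.append h', by rw [P.cnt_append]; omega⟩
  obtain ⟨l', h', hk⟩ := key (R e + 1)
  have := hr _ ((h0.append h').append h1) e
  have h2 : P.cnt e (l0 ++ l' ++ l1) ≤ R e := this
  rw [P.cnt_append, P.cnt_append] at h2
  omega

/-- chains of segments -/
inductive Prog.Chain (P : Prog E V) : V → List (V × V × V) → V → Prop
  | nil (u : V) : Prog.Chain P u [] u
  | cons {u b c z : V} {ℓ : List (V × V × V)} : (∃ l, Walk P.Syn u b l) → P.Syn b c →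
      Prog.Chain P c ℓ z → Prog.Chain P u ((u, b, c) :: ℓ) z

lemma Prog.Chain.reach {P : Prog E V} {u z : V} {ℓ : List (V × V × V)} (h : P.Chain u ℓ z)
    (hz : ∃ l, Walk P.Syn z P.acc l) (e : E) :
    ∃ l, Walk P.Syn u P.acc l ∧ (ℓ.filter (fun t => e ∈ P.X t.1 t.2.2)).length +
      (if e ∈ P.X z P.acc then 1 else 0) ≤ P.cnt e l := by
  induction h with
  | nil u =>
    by_cases he : e ∈ P.X u P.acc
    · obtain ⟨l, hl, hc⟩ := (P.mem_X _ _ _).1 he
      exact ⟨l, hl, by simpa [he] using hc⟩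
    · obtain ⟨l, hl⟩ := hz
      exact ⟨l, hl, by simp [he]⟩
  | @cons u b c z ℓ h1 h2 _ ih =>
    obtain ⟨l, hl, hc⟩ := ih hz
    by_cases he : e ∈ P.X u c
    · obtain ⟨l', hl', hc'⟩ := (P.mem_X _ _ _).1 he
      refine ⟨l' ++ l, hl'.append hl, ?_⟩
      rw [P.cnt_append, List.filter_cons]
      simp only [he, decide_true, if_true, List.length_cons]
      omega
    · obtain ⟨l1, hl1⟩ := h1
      refine ⟨(l1 ++ [b]) ++ l, (hl1.append (Walk.single h2)).append hl, ?_⟩
      rw [P.cnt_append, List.filter_cons]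
      simp only [he, decide_false]
      simp only [Bool.false_eq_true, if_false]
      omega

lemma Prog.Chain.count {P : Prog E V} {R : E → ℕ} (hr : P.ReadBound R) {z : V}
    {ℓ : List (V × V × V)} (h : P.Chain P.start ℓ z)
    (hz : ∃ l, Walk P.Syn z P.acc l) (e : E) :
    (ℓ.filter (fun t => e ∈ P.X t.1 t.2.2)).length + (if e ∈ P.X z P.acc then 1 else 0) ≤ R e := by
  obtain ⟨l, hl, hc⟩ := h.reach hz e
  exact hc.trans (hr l hl e)

/-- reachability on input `x` -/
def Prog.Reach (P : Prog E V) (x : Set E) (a b : V) : Prop :=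
  ∃ l, Walk (fun v w => P.step v x w) a b l

omit [Fintype E] in
lemma Prog.step_syn (P : Prog E V) (x : Set E) {u v : V} {l : List V}
    (h : Walk (fun v w => P.step v x w) u v l) : Walk P.Syn u v l :=
  h.mono (fun _ _ hs => ⟨x, hs⟩)

lemma Prog.greedy (P : Prog E V) {R : E → ℕ} (hr : P.ReadBound R) (M : ℕ) (x : Set E) :
    ∀ (L : ℕ) (u : V) (l : List V), l.length ≤ L → Walk (fun v w => P.step v x w) u P.acc l →
      (∃ l0, Walk P.Syn P.start u l0) →
      ∃ ℓ z, P.Chain u ℓ z ∧ (∀ t ∈ ℓ, (P.X t.1 t.2.1).card ≤ M ∧ M < (P.X t.1 t.2.2).card) ∧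
        (P.X z P.acc).card ≤ M ∧ (∀ t ∈ ℓ, P.Reach x t.1 t.2.1 ∧ P.step t.2.1 x t.2.2) ∧
        P.Reach x z P.acc := by
  intro L
  induction L with
  | zero =>
    intro u l hl hw _
    have : l = [] := List.length_eq_zero_iff.1 (Nat.le_zero.1 hl)
    subst this
    have hu : u = P.acc := by cases hw; rfl
    subst hu
    rename_i h0
    obtain ⟨l0, h0⟩ := h0
    refine ⟨[], P.acc, Prog.Chain.nil _, by simp, ?_, by simp, ⟨[], hw⟩⟩
    rw [P.loop hr h0 (Walk.nil _)]
    simp
  | succ L ih =>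
    intro u l hl hw h0
    by_cases hX : (P.X u P.acc).card ≤ M
    · exact ⟨[], u, Prog.Chain.nil _, by simp, hX, by simp, ⟨l, hw⟩⟩
    · obtain ⟨l0, h0⟩ := h0
      obtain ⟨b, c, l1, l2, h1, h2, h3, h4, h5, h6⟩ := hw.split (fun v => (P.X u v).card ≤ M)
        (by rw [P.loop hr h0 (P.step_syn x hw)]; simp) hX
      have hc0 : ∃ l0, Walk P.Syn P.start c l0 :=
        ⟨l0 ++ (l1 ++ [b]), h0.append ((P.step_syn x h1).append (Walk.single ⟨x, h2⟩))⟩
      obtain ⟨ℓ, z, g1, g2, g3, g4, g5⟩ := ih c l2 (by omega) h3 hc0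
      refine ⟨(u, b, c) :: ℓ, z, Prog.Chain.cons ⟨l1, P.step_syn x h1⟩ ⟨x, h2⟩ g1, ?_, g3, ?_, g5⟩
      · intro t ht
        rcases List.mem_cons.1 ht with rfl | ht
        · exact ⟨h4, not_le.1 h5⟩
        · exact g2 t ht
      · intro t ht
        rcases List.mem_cons.1 ht with rfl | ht
        · exact ⟨⟨l1, h1⟩, h2⟩
        · exact g4 t ht

/-- the factors -/
def Prog.fac (P : Prog E V) {k : ℕ} (ℓ : Fin k → V × V × V) (z : V) :
    Option (Fin k) → Set E → Prop
  | none, x => P.Reach x z P.acc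
  | some j, x => P.Reach x (ℓ j).1 (ℓ j).2.1 ∧ P.step (ℓ j).2.1 x (ℓ j).2.2

/-- the variables of the factors -/
noncomputable def Prog.facX (P : Prog E V) {k : ℕ} (ℓ : Fin k → V × V × V) (z : V) :
    Option (Fin k) → Finset E
  | none => P.X z P.acc
  | some j => P.X (ℓ j).1 (ℓ j).2.1 ∪ P.reads (ℓ j).2.1

omit [Fintype E] in
lemma Prog.reach_dep (P : Prog E V) {x y : Set E} {a b : V} {l : List V}
    (h : Walk (fun v w => P.step v x w) a b l) :
    (∀ e, (∃ v ∈ l, e ∈ P.reads v) → (e ∈ x ↔ e ∈ y)) → Walk (fun v w => P.step v y w) a b l := by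
  induction h with
  | nil u => intro _; exact Walk.nil u
  | @cons u v w l hr _ ih =>
    intro hxy
    refine Walk.cons (P.loc _ _ x y (fun e he => hxy e ⟨u, by simp, he⟩) hr) (ih ?_)
    rintro e ⟨v', hv', he⟩
    exact hxy e ⟨v', by simp [hv'], he⟩

lemma Prog.reach_X (P : Prog E V) {x y : Set E} {a b : V}
    (hxy : ∀ e ∈ P.X a b, (e ∈ x ↔ e ∈ y)) (h : P.Reach x a b) : P.Reach y a b := by
  obtain ⟨l, hl⟩ := h
  refine ⟨l, P.reach_dep hl ?_⟩
  rintro e ⟨v, hv, he⟩
  exact hxy e ((P.mem_X _ _ _).2 ⟨l, P.step_syn x hl, P.cnt_pos e l v hv he⟩)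

lemma Prog.fac_dep (P : Prog E V) {k : ℕ} (ℓ : Fin k → V × V × V) (z : V) (j : Option (Fin k))
    (x y : Set E) (hxy : ∀ e ∈ P.facX ℓ z j, (e ∈ x ↔ e ∈ y)) (h : P.fac ℓ z j x) :
    P.fac ℓ z j y := by
  cases j with
  | none => exact P.reach_X hxy h
  | some j =>
    refine ⟨P.reach_X (fun e he => hxy e ?_) h.1, P.loc _ _ x y (fun e he => hxy e ?_) h.2⟩
    · simp [Prog.facX, he]
    · simp [Prog.facX, he]

lemma card_filter_get {α : Type} (p : α → Prop) [DecidablePred p] (l : List α) :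
    (Finset.univ.filter (fun j : Fin l.length => p (l.get j))).card = (l.filter (fun a => p a)).length := by
  induction l with
  | nil => simp
  | cons a l ih =>
    rw [List.filter_cons]
    have h1 : (Finset.univ.filter (fun j : Fin (a :: l).length => p ((a :: l).get j))).card
        = (if p a then 1 else 0) + (Finset.univ.filter (fun j : Fin l.length => p (l.get j))).card := by
      have := Fin.card_filter_univ_succ (n := l.length) (fun j : Fin (l.length + 1) => p ((a :: l).get j))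
      rw [show (Finset.univ.filter (fun j : Fin (a :: l).length => p ((a :: l).get j))).card =
        (Finset.univ.filter (fun j : Fin (l.length + 1) => p ((a :: l).get j))).card from rfl, this]
      by_cases hp : p a
      · simp [hp]; rw [add_comm]
      · simp [hp]
    rw [h1, ih]
    by_cases hp : p a
    · simp [hp]; omega
    · simp [hp]

/-- decomposition of the acceptance of one input -/
theorem Prog.products (P : Prog E V) {R : E → ℕ} {b M : ℕ} (hr : P.ReadBound R) (hb : P.ChunkAtMost b)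
    (x : Set E) (hx : P.Accepts x) :
    ∃ k, k * (M + 1) ≤ ∑ e, R e ∧ ∃ (ℓ : Fin k → V × V × V) (z : V),
      (∀ j, P.fac ℓ z j x) ∧ (∀ y, (∀ j, P.fac ℓ z j y) → P.Accepts y) ∧
      (∀ j, (P.facX ℓ z j).card ≤ M + b) ∧
      (∀ e, (Finset.univ.filter (fun j => e ∈ P.facX ℓ z j)).card ≤ R e) := by
  obtain ⟨l, hl⟩ := hx
  obtain ⟨ℓ, z, g1, g2, g3, g4, g5⟩ := P.greedy hr M x l.length P.start l le_rfl hl ⟨[], Walk.nil _⟩
  have hz : ∃ l, Walk P.Syn z P.acc l := by
    obtain ⟨l', hl'⟩ := g5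
    exact ⟨l', P.step_syn x hl'⟩
  have hcount := fun e => g1.count hr hz e
  refine ⟨ℓ.length, ?_, fun j => ℓ.get j, z, ?_, ?_, ?_, ?_⟩
  · -- length bound
    have h1 : ∑ e : E, (ℓ.filter (fun t => e ∈ P.X t.1 t.2.2)).length ≤ ∑ e, R e :=
      Finset.sum_le_sum (fun e _ => by have := hcount e; omega)
    refine le_trans ?_ h1
    have h2 : ∀ e : E, (ℓ.filter (fun t => e ∈ P.X t.1 t.2.2)).length =
        ∑ j : Fin ℓ.length, (if e ∈ P.X (ℓ.get j).1 (ℓ.get j).2.2 then 1 else 0) := by
      intro e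
      rw [← card_filter_get, Finset.card_filter]
    rw [Finset.sum_congr rfl (fun e _ => h2 e), Finset.sum_comm]
    calc ℓ.length * (M + 1) = ∑ _j : Fin ℓ.length, (M + 1) := by simp
      _ ≤ _ := by
        refine Finset.sum_le_sum (fun j _ => ?_)
        have := (g2 (ℓ.get j) (List.get_mem _ _)).2
        rw [Finset.sum_boole]
        simp only [Finset.filter_univ_mem, Nat.cast_id]
        omega
  · intro j
    cases j with
    | none => exact g5
    | some j => exact g4 _ (List.get_mem _ _)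
  · intro y hy
    have key : ∀ (u z' : V) (ℓ' : List (V × V × V)), P.Chain u ℓ' z' →
        (∀ t ∈ ℓ', P.Reach y t.1 t.2.1 ∧ P.step t.2.1 y t.2.2) → P.Reach y z' P.acc →
        P.Reach y u P.acc := by
      clear g1 g3 g5 hz hcount hy
      intro u z' ℓ' hch
      induction hch with
      | nil u => intro _ h; exact h
      | @cons u b c z ℓ' _ _ _ ih =>
        intro hA hB
        obtain ⟨⟨l1, h1⟩, h2⟩ := hA (u, b, c) (by simp)
        obtain ⟨l2, h3⟩ := ih (fun t ht => hA t (by simp [ht])) hB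
        exact ⟨_, h1.append (Walk.cons h2 h3)⟩
    refine key P.start z ℓ g1 ?_ (hy none)
    intro t ht
    obtain ⟨j, hj⟩ := List.get_of_mem ht
    have := hy (some j)
    simp only [Prog.fac] at this
    rw [hj] at this
    exact this
  · intro j
    cases j with
    | none => exact g3.trans (Nat.le_add_right _ _)
    | some j =>
      refine (Finset.card_union_le _ _).trans (Nat.add_le_add ?_ (hb _))
      exact (g2 _ (List.get_mem _ _)).1
  · intro e
    refine le_trans ?_ (hcount e)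
    have hsub : ∀ t ∈ ℓ, e ∈ P.X t.1 t.2.1 ∪ P.reads t.2.1 → e ∈ P.X t.1 t.2.2 := by
      intro t ht he
      have hs : P.Syn t.2.1 t.2.2 := ⟨x, (g4 t ht).2⟩
      rcases Finset.mem_union.1 he with he | he
      · obtain ⟨l', hl', hc'⟩ := (P.mem_X _ _ _).1 he
        exact (P.mem_X _ _ _).2 ⟨l' ++ [t.2.1], hl'.append (Walk.single hs), by rw [P.cnt_append]; omega⟩
      · obtain ⟨l', hl'⟩ := (g4 t ht).1
        refine (P.mem_X _ _ _).2 ⟨l' ++ [t.2.1], (P.step_syn x hl').append (Walk.single hs), ?_⟩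
        exact P.cnt_pos e _ t.2.1 (by simp) he
    have h1 : (Finset.univ.filter (fun j => e ∈ P.facX (fun j => ℓ.get j) z j)).card =
        (if e ∈ P.X z P.acc then 1 else 0) +
        (Finset.univ.filter (fun j : Fin ℓ.length => e ∈ P.facX (fun j => ℓ.get j) z (some j))).card := by
      rw [Finset.card_filter, Fintype.sum_option, Finset.card_filter]
      rfl
    rw [h1, add_comm, ← card_filter_get]
    refine Nat.add_le_add_right (Finset.card_le_card ?_) _
    intro j hj
    rw [Finset.mem_filter] at hj ⊢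
    exact ⟨Finset.mem_univ _, hsub _ (List.get_mem _ _) hj.2⟩

end Pool.Agent.Lib_helper26.TriRead
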