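import Mathlib

namespace Pool.Agent.Lib_helper26.TriRead.Nof

set_option linter.unusedSectionVars false
set_option linter.unusedSimpArgs false

open Finset

variable {ι : Type} [Fintype ι] [DecidableEq ι]

abbrev XT (ι : Type) (s : ℕ) := ι → Fin s
abbrev ZT (ι : Type) (s : ℕ) := ι → Fin s → Fin s → Bool

def bs (b : Bool) : ℝ := if b then -1 else 1

lemma bs_sq (b : Bool) : bs b * bs b = 1 := by cases b <;> simp [bs]
lemma bs_not (b : Bool) : bs (!b) = - bs b := by cases b <;> simp [bs]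
lemma bs_abs (b : Bool) : |bs b| = 1 := by cases b <;> simp [bs]

def sgn {s : ℕ} (z : ZT ι s) (x y : XT ι s) : ℝ := ∏ b, bs (z b (x b) (y b))

lemma sgn_abs {s : ℕ} (z : ZT ι s) (x y : XT ι s) : |sgn z x y| = 1 := by
  unfold sgn
  rw [Finset.abs_prod]
  simp [bs_abs]

/-- flip the bit of `z` at `(b, i, j)` -/
def flip {s : ℕ} (b : ι) (i j : Fin s) (z : ZT ι s) : ZT ι s :=
  fun b' i' j' => if b' = b ∧ i' = i ∧ j' = j then !(z b' i' j') else z b' i' j'

lemma flip_flip {s : ℕ} (b : ι) (i j : Fin s) (z : ZT ι s) :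
    flip b i j (flip b i j z) = z := by
  funext b' i' j'
  unfold flip
  by_cases h : b' = b ∧ i' = i ∧ j' = j <;> simp [h]

lemma sgn_flip {s : ℕ} (b : ι) (i j : Fin s) (z : ZT ι s) (u v : XT ι s) :
    sgn (flip b i j z) u v = (if u b = i ∧ v b = j then -1 else 1) * sgn z u v := by
  unfold sgn
  have key : ∀ b', bs (flip b i j z b' (u b') (v b')) =
      (if b' = b then (if u b = i ∧ v b = j then (-1 : ℝ) else 1) else 1)
        * bs (z b' (u b') (v b')) := by
    intro b'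
    by_cases hb : b' = b
    · subst hb
      by_cases h : u b' = i ∧ v b' = j
      · simp [flip, h, bs_not]
      · simp only [flip, h, if_true, if_false, and_false, true_and]
        simp
    · simp [flip, hb]
  rw [Finset.prod_congr rfl (fun b' _ => key b'), Finset.prod_mul_distrib]
  congr 1
  rw [Finset.prod_ite_eq' Finset.univ b]
  simp

lemma four_sum_zero {s : ℕ} (x x' y y' : XT ι s) (h : ∃ b, x b ≠ x' b ∧ y b ≠ y' b) :
    ∑ z : ZT ι s, (sgn z x y * sgn z x y') * (sgn z x' y * sgn z x' y') = 0 := by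
  obtain ⟨b, hx, hy⟩ := h
  set F : ZT ι s → ℝ := fun z => (sgn z x y * sgn z x y') * (sgn z x' y * sgn z x' y') with hF
  let e : Equiv.Perm (ZT ι s) := Function.Involutive.toPerm (flip b (x b) (y b)) (flip_flip b (x b) (y b))
  have h1 : ∑ z, F (e z) = ∑ z, F z := Equiv.sum_comp e F
  have h2 : ∀ z, F (e z) = - F z := by
    intro z
    have he : e z = flip b (x b) (y b) z := rfl
    rw [he]
    simp only [hF]
    rw [sgn_flip, sgn_flip, sgn_flip, sgn_flip]
    have c1 : ¬ (x b = x b ∧ y' b = y b) := fun h => hy h.2.symm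
    have c2 : ¬ (x' b = x b ∧ y b = y b) := fun h => hx h.1.symm
    have c3 : ¬ (x' b = x b ∧ y' b = y b) := fun h => hx h.1.symm
    rw [if_pos ⟨rfl, rfl⟩, if_neg c1, if_neg c2, if_neg c3]
    ring
  have h3 : ∑ z, F (e z) = - ∑ z, F z := by
    rw [Finset.sum_congr rfl (fun z _ => h2 z), Finset.sum_neg_distrib]
  linarith

lemma four_sum_le {s : ℕ} (x x' y y' : XT ι s) :
    |∑ z : ZT ι s, (sgn z x y * sgn z x y') * (sgn z x' y * sgn z x' y')|
      ≤ if (∀ b, x b = x' b ∨ y b = y' b) then (Fintype.card (ZT ι s) : ℝ) else 0 := by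
  split_ifs with h
  · refine (Finset.abs_sum_le_sum_abs _ _).trans ?_
    have : ∀ z ∈ (Finset.univ : Finset (ZT ι s)),
        |(sgn z x y * sgn z x y') * (sgn z x' y * sgn z x' y')| ≤ 1 := by
      intro z _
      rw [abs_mul, abs_mul, abs_mul, sgn_abs, sgn_abs, sgn_abs, sgn_abs]
      norm_num
    refine (Finset.sum_le_sum this).trans ?_
    simp
  · push Not at h
    rw [four_sum_zero x x' y y' h]
    simp

/-- the pattern set -/
def D (s : ℕ) : Finset ((Fin s × Fin s) × (Fin s × Fin s)) :=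
  Finset.univ.filter (fun p => p.1.1 = p.1.2 ∨ p.2.1 = p.2.2)

lemma card_D (s : ℕ) : (D s).card ≤ 2 * s ^ 3 := by
  have hsub : D s ⊆ (Finset.univ.image (fun p : Fin s × (Fin s × Fin s) => ((p.1, p.1), p.2))) ∪
      (Finset.univ.image (fun p : (Fin s × Fin s) × Fin s => (p.1, (p.2, p.2)))) := by
    intro p hp
    simp only [D, Finset.mem_filter, Finset.mem_univ, true_and] at hp
    simp only [Finset.mem_union, Finset.mem_image, Finset.mem_univ, true_and]
    rcases hp with hp | hp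
    · left
      exact ⟨(p.1.1, p.2), by ext <;> simp [hp]⟩
    · right
      exact ⟨(p.1, p.2.1), by ext <;> simp [hp]⟩
  refine (Finset.card_le_card hsub).trans ?_
  refine (Finset.card_union_le _ _).trans ?_
  have h1 : (Finset.univ.image (fun p : Fin s × (Fin s × Fin s) =>
      (((p.1, p.1), p.2) : (Fin s × Fin s) × (Fin s × Fin s)))).card ≤ s ^ 3 := by
    refine Finset.card_image_le.trans ?_
    simp only [Finset.card_univ, Fintype.card_prod, Fintype.card_fin]
    apply le_of_eq; ring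
  have h2 : (Finset.univ.image (fun p : (Fin s × Fin s) × Fin s =>
      ((p.1, (p.2, p.2)) : (Fin s × Fin s) × (Fin s × Fin s)))).card ≤ s ^ 3 := by
    refine Finset.card_image_le.trans ?_
    simp only [Finset.card_univ, Fintype.card_prod, Fintype.card_fin]
    apply le_of_eq; ring
  omega

lemma count_patterns (s : ℕ) :
    ((Finset.univ : Finset ((XT ι s × XT ι s) × (XT ι s × XT ι s))).filter
      (fun p => ∀ b, p.1.1 b = p.1.2 b ∨ p.2.1 b = p.2.2 b)).card ≤ (2 * s ^ 3) ^ Fintype.card ι := by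
  have hinj : ((Finset.univ : Finset ((XT ι s × XT ι s) × (XT ι s × XT ι s))).filter
      (fun p => ∀ b, p.1.1 b = p.1.2 b ∨ p.2.1 b = p.2.2 b)).card ≤
      (Fintype.piFinset (fun _ : ι => D s)).card := by
    refine Finset.card_le_card_of_injOn
      (fun p => fun b => ((p.1.1 b, p.1.2 b), (p.2.1 b, p.2.2 b))) ?_ ?_
    · intro p hp
      simp only [Finset.coe_filter, Finset.mem_univ, true_and, Set.mem_ofPred_eq] at hp
      simp only [Finset.mem_coe, Fintype.mem_piFinset, D, Finset.mem_filter, Finset.mem_univ, true_and]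
      exact hp
    · intro p _ q _ hpq
      have h : ∀ b, ((p.1.1 b, p.1.2 b), (p.2.1 b, p.2.2 b)) =
          ((q.1.1 b, q.1.2 b), (q.2.1 b, q.2.2 b)) := fun b => congrFun hpq b
      refine Prod.ext (Prod.ext ?_ ?_) (Prod.ext ?_ ?_) <;> funext b <;> have := h b <;>
        simp only [Prod.mk.injEq] at this
      · exact this.1.1
      · exact this.1.2
      · exact this.2.1
      · exact this.2.2
  refine hinj.trans ?_
  rw [Fintype.card_piFinset]
  simp only [Finset.prod_const, Finset.card_univ, Fintype.card_fin]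
  exact Nat.pow_le_pow_left (card_D s) _

lemma disc_bound {s : ℕ} (f1 : XT ι s → ZT ι s → ℝ) (f2 : XT ι s → XT ι s → ℝ)
    (f3 : XT ι s → ZT ι s → ℝ)
    (h1 : ∀ x z, |f1 x z| ≤ 1) (h2 : ∀ x y, |f2 x y| ≤ 1) (h3 : ∀ y z, |f3 y z| ≤ 1) :
    (∑ p : XT ι s × ZT ι s, f1 p.1 p.2 * ∑ y : XT ι s, f2 p.1 y * f3 y p.2 * sgn p.2 p.1 y) ^ 4
      ≤ ((Fintype.card (XT ι s) : ℝ)) ^ 4 * (Fintype.card (ZT ι s) : ℝ) ^ 4 * ((2 * s ^ 3) ^ Fintype.card ι : ℕ) := by
  set nX : ℝ := (Fintype.card (XT ι s) : ℝ) with hnX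
  set nZ : ℝ := (Fintype.card (ZT ι s) : ℝ) with hnZ
  have hnX0 : 0 ≤ nX := by rw [hnX]; positivity
  have hnZ0 : 0 ≤ nZ := by rw [hnZ]; positivity
  set G : XT ι s × ZT ι s → ℝ := fun p => ∑ y : XT ι s, f2 p.1 y * f3 y p.2 * sgn p.2 p.1 y with hG
  set H : (XT ι s × XT ι s) × ZT ι s → ℝ :=
    fun r => ∑ x : XT ι s, (f2 x r.1.1 * f2 x r.1.2) * (sgn r.2 x r.1.1 * sgn r.2 x r.1.2) with hH
  have sq1 : ∀ a : ℝ, |a| ≤ 1 → a ^ 2 ≤ 1 := by
    intro a ha
    rw [← sq_abs]
    have := abs_nonneg a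
    nlinarith
  -- step 1
  have step1 : (∑ p, f1 p.1 p.2 * G p) ^ 2 ≤ (nX * nZ) * ∑ p, (G p) ^ 2 := by
    refine (Finset.sum_mul_sq_le_sq_mul_sq Finset.univ (fun p : XT ι s × ZT ι s => f1 p.1 p.2) G).trans ?_
    refine mul_le_mul_of_nonneg_right ?_ (Finset.sum_nonneg (fun p _ => sq_nonneg _))
    refine (Finset.sum_le_sum (fun p _ => sq1 _ (h1 p.1 p.2))).trans ?_
    simp [hnX, hnZ]
  -- step 2
  have step2 : ∑ p, (G p) ^ 2 = ∑ r : (XT ι s × XT ι s) × ZT ι s, (f3 r.1.1 r.2 * f3 r.1.2 r.2) * H r := by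
    have e1 : ∀ p : XT ι s × ZT ι s, (G p) ^ 2 =
        ∑ y : XT ι s, ∑ y' : XT ι s, (f3 y p.2 * f3 y' p.2) * ((f2 p.1 y * f2 p.1 y') *
          (sgn p.2 p.1 y * sgn p.2 p.1 y')) := by
      intro p
      simp only [hG]
      rw [sq, Finset.sum_mul_sum]
      refine Finset.sum_congr rfl (fun y _ => Finset.sum_congr rfl (fun y' _ => ?_))
      ring
    rw [Finset.sum_congr rfl (fun p _ => e1 p)]
    rw [Fintype.sum_prod_type, Fintype.sum_prod_type, Fintype.sum_prod_type]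
    simp only [hH]
    have e2 : ∀ x : XT ι s, (∑ z : ZT ι s, ∑ y : XT ι s, ∑ y' : XT ι s, (f3 y z * f3 y' z) * ((f2 x y * f2 x y') *
          (sgn z x y * sgn z x y'))) = ∑ y : XT ι s, ∑ y' : XT ι s, ∑ z : ZT ι s, (f3 y z * f3 y' z) * ((f2 x y * f2 x y') *
          (sgn z x y * sgn z x y')) := by
      intro x
      rw [Finset.sum_comm]
      refine Finset.sum_congr rfl (fun y _ => ?_)
      rw [Finset.sum_comm]
    rw [Finset.sum_congr rfl (fun x _ => e2 x)]
    rw [Finset.sum_comm]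
    refine Finset.sum_congr rfl (fun y _ => ?_)
    rw [Finset.sum_comm]
    refine Finset.sum_congr rfl (fun y' _ => ?_)
    rw [Finset.sum_comm]
    refine Finset.sum_congr rfl (fun z _ => ?_)
    rw [Finset.mul_sum]
  -- step 3
  have step3 : (∑ r, (f3 r.1.1 r.2 * f3 r.1.2 r.2) * H r) ^ 2 ≤ (nX ^ 2 * nZ) * ∑ r, (H r) ^ 2 := by
    refine (Finset.sum_mul_sq_le_sq_mul_sq Finset.univ
      (fun r : (XT ι s × XT ι s) × ZT ι s => f3 r.1.1 r.2 * f3 r.1.2 r.2) H).trans ?_
    refine mul_le_mul_of_nonneg_right ?_ (Finset.sum_nonneg (fun p _ => sq_nonneg _))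
    have hle : ∀ r ∈ (Finset.univ : Finset ((XT ι s × XT ι s) × ZT ι s)),
        (f3 r.1.1 r.2 * f3 r.1.2 r.2) ^ 2 ≤ 1 := by
      intro r _
      apply sq1
      rw [abs_mul]
      have ha := h3 r.1.1 r.2
      have hb := h3 r.1.2 r.2
      have := abs_nonneg (f3 r.1.1 r.2)
      have := abs_nonneg (f3 r.1.2 r.2)
      nlinarith
    refine (Finset.sum_le_sum hle).trans ?_
    simp only [Finset.sum_const, Finset.card_univ, Fintype.card_prod, nsmul_eq_mul, mul_one]
    push_cast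
    rw [hnX, hnZ]
    apply le_of_eq
    ring
  -- step 4
  have step4 : ∑ r, (H r) ^ 2 ≤ nZ * ((2 * s ^ 3) ^ Fintype.card ι : ℕ) := by
    have e1 : ∀ r : (XT ι s × XT ι s) × ZT ι s, (H r) ^ 2 =
        ∑ x : XT ι s, ∑ x' : XT ι s, ((f2 x r.1.1 * f2 x r.1.2) * (f2 x' r.1.1 * f2 x' r.1.2)) *
          ((sgn r.2 x r.1.1 * sgn r.2 x r.1.2) * (sgn r.2 x' r.1.1 * sgn r.2 x' r.1.2)) := by
      intro r
      simp only [hH]
      rw [sq, Finset.sum_mul_sum]
      refine Finset.sum_congr rfl (fun y _ => Finset.sum_congr rfl (fun y' _ => ?_))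
      ring
    rw [Finset.sum_congr rfl (fun r _ => e1 r)]
    rw [Fintype.sum_prod_type]
    have e2 : ∀ q : XT ι s × XT ι s, (∑ z : ZT ι s, ∑ x : XT ι s, ∑ x' : XT ι s,
          ((f2 x q.1 * f2 x q.2) * (f2 x' q.1 * f2 x' q.2)) *
          ((sgn z x q.1 * sgn z x q.2) * (sgn z x' q.1 * sgn z x' q.2))) ≤
        ∑ x : XT ι s, ∑ x' : XT ι s, (if (∀ b, x b = x' b ∨ q.1 b = q.2 b) then nZ else 0) := by
      intro q
      rw [Finset.sum_comm]
      refine Finset.sum_le_sum (fun x _ => ?_)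
      rw [Finset.sum_comm]
      refine Finset.sum_le_sum (fun x' _ => ?_)
      rw [← Finset.mul_sum]
      refine (le_abs_self _).trans ?_
      rw [abs_mul]
      have hb := four_sum_le x x' q.1 q.2
      have ha : |(f2 x q.1 * f2 x q.2) * (f2 x' q.1 * f2 x' q.2)| ≤ 1 := by
        rw [abs_mul, abs_mul, abs_mul]
        have a1 := h2 x q.1
        have a2 := h2 x q.2
        have a3 := h2 x' q.1
        have a4 := h2 x' q.2
        have b1 : |f2 x q.1| * |f2 x q.2| ≤ 1 := mul_le_one₀ a1 (abs_nonneg _) a2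
        have b2 : |f2 x' q.1| * |f2 x' q.2| ≤ 1 := mul_le_one₀ a3 (abs_nonneg _) a4
        exact mul_le_one₀ b1 (mul_nonneg (abs_nonneg _) (abs_nonneg _)) b2
      refine (mul_le_of_le_one_left (abs_nonneg _) ha).trans ?_
      exact hb
    refine (Finset.sum_le_sum (fun q _ => e2 q)).trans ?_
    have e3 : ∑ q : XT ι s × XT ι s, ∑ x : XT ι s, ∑ x' : XT ι s,
        (if (∀ b, x b = x' b ∨ q.1 b = q.2 b) then nZ else 0) =
        nZ * (((Finset.univ : Finset ((XT ι s × XT ι s) × (XT ι s × XT ι s))).filter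
      (fun p => ∀ b, p.1.1 b = p.1.2 b ∨ p.2.1 b = p.2.2 b)).card : ℝ) := by
      calc ∑ q : XT ι s × XT ι s, ∑ x : XT ι s, ∑ x' : XT ι s,
            (if (∀ b, x b = x' b ∨ q.1 b = q.2 b) then nZ else 0)
          = ∑ q : XT ι s × XT ι s, ∑ w : XT ι s × XT ι s,
            (if (∀ b, w.1 b = w.2 b ∨ q.1 b = q.2 b) then nZ else 0) := by
            refine Finset.sum_congr rfl (fun q _ => ?_)
            rw [Fintype.sum_prod_type]
        _ = ∑ p : (XT ι s × XT ι s) × (XT ι s × XT ι s),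
            (if (∀ b, p.1.1 b = p.1.2 b ∨ p.2.1 b = p.2.2 b) then nZ else 0) := by
            exact (Fintype.sum_prod_type_right (fun p : (XT ι s × XT ι s) × (XT ι s × XT ι s) =>
              (if (∀ b, p.1.1 b = p.1.2 b ∨ p.2.1 b = p.2.2 b) then nZ else 0))).symm
        _ = _ := by
            rw [Finset.card_filter]
            push_cast
            rw [Finset.mul_sum]
            refine Finset.sum_congr rfl (fun p _ => ?_)
            split_ifs <;> simp
    rw [e3]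
    refine mul_le_mul_of_nonneg_left ?_ hnZ0
    exact_mod_cast count_patterns (ι := ι) s
  have hS2 : 0 ≤ ∑ p, (G p) ^ 2 := Finset.sum_nonneg (fun p _ => sq_nonneg _)
  have hH2 : 0 ≤ ∑ r, (H r) ^ 2 := Finset.sum_nonneg (fun p _ => sq_nonneg _)
  calc (∑ p, f1 p.1 p.2 * G p) ^ 4 = ((∑ p, f1 p.1 p.2 * G p) ^ 2) ^ 2 := by ring
    _ ≤ ((nX * nZ) * ∑ p, (G p) ^ 2) ^ 2 := by
        apply pow_le_pow_left₀ (sq_nonneg _) step1
    _ = (nX * nZ) ^ 2 * (∑ p, (G p) ^ 2) ^ 2 := by ring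
    _ ≤ (nX * nZ) ^ 2 * ((nX ^ 2 * nZ) * ∑ r, (H r) ^ 2) := by
        apply mul_le_mul_of_nonneg_left _ (sq_nonneg _)
        rw [step2]
        exact step3
    _ ≤ (nX * nZ) ^ 2 * ((nX ^ 2 * nZ) * (nZ * ((2 * s ^ 3) ^ Fintype.card ι : ℕ))) := by
        apply mul_le_mul_of_nonneg_left _ (sq_nonneg _)
        apply mul_le_mul_of_nonneg_left step4
        positivity
    _ = nX ^ 4 * nZ ^ 4 * ((2 * s ^ 3) ^ Fintype.card ι : ℕ) := by ring

/-- the NO instances: `z` misses the crossing cell of row `x b` and column `y b` in every grid `b`. -/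
def Ok {s : ℕ} (x y : XT ι s) (z : ZT ι s) : Prop := ∀ b, z b (x b) (y b) = false

instance {s : ℕ} (x y : XT ι s) (z : ZT ι s) : Decidable (Ok x y z) := by
  unfold Ok; infer_instance

/-- NO instances -/
abbrev Inst (ι : Type) (s : ℕ) := {p : (XT ι s × XT ι s) × ZT ι s // Ok p.1.1 p.1.2 p.2}

def clear {s : ℕ} (x y : XT ι s) (z : ZT ι s) : ZT ι s :=
  fun b i j => if i = x b ∧ j = y b then false else z b i j

lemma clear_ok {s : ℕ} (x y : XT ι s) (z : ZT ι s) : Ok x y (clear x y z) := by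
  intro b
  simp [clear]

lemma card_le_inst (s : ℕ) :
    Fintype.card (XT ι s) * Fintype.card (XT ι s) * Fintype.card (ZT ι s) ≤
      Fintype.card (Inst ι s) * 2 ^ Fintype.card ι := by
  have h : Fintype.card ((XT ι s × XT ι s) × ZT ι s) ≤ Fintype.card (Inst ι s × (ι → Bool)) := by
    refine Fintype.card_le_of_injective
      (fun p => (⟨(p.1, clear p.1.1 p.1.2 p.2), clear_ok _ _ _⟩, fun b => p.2 b (p.1.1 b) (p.1.2 b))) ?_
    intro p q hpq
    simp only [Prod.mk.injEq, Subtype.mk.injEq] at hpq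
    obtain ⟨⟨h1, h2⟩, h3⟩ := hpq
    refine Prod.ext h1 ?_
    funext b i j
    have e2 := congrFun (congrFun (congrFun h2 b) i) j
    have e3 := congrFun h3 b
    simp only [clear, h1] at e2 e3
    by_cases hc : i = q.1.1 b ∧ j = q.1.2 b
    · rw [hc.1, hc.2]; exact e3
    · simpa [hc] using e2
  simpa [Fintype.card_prod] using h

open Classical in
theorem mono_bound  (P1 : XT ι 512 → ZT ι 512 → Prop) (P2 : XT ι 512 → XT ι 512 → Prop)
    (P3 : XT ι 512 → ZT ι 512 → Prop)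
    (hmono : ∀ x y z, P1 x z → P2 x y → P3 y z → Ok x y z) :
    (Finset.univ.filter (fun p : Inst ι 512 => P1 p.1.1.1 p.1.2 ∧ P2 p.1.1.1 p.1.1.2 ∧ P3 p.1.1.2 p.1.2)).card
      * 2 ^ Fintype.card ι ≤ Fintype.card (Inst ι 512) := by
  set nX : ℕ := Fintype.card (XT ι 512) with hnX
  set nZ : ℕ := Fintype.card (ZT ι 512) with hnZ
  have hnXv : nX = 512 ^ Fintype.card ι := by rw [hnX]; simp [XT]
  set Cs := (Finset.univ.filter (fun p : Inst ι 512 => P1 p.1.1.1 p.1.2 ∧ P2 p.1.1.1 p.1.1.2 ∧ P3 p.1.1.2 p.1.2)) with hCs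
  set N : ℕ := Cs.card with hN
  have hd := disc_bound (ι := ι) (s := 512) (fun x z => if P1 x z then 1 else 0)
    (fun x y => if P2 x y then 1 else 0) (fun y z => if P3 y z then 1 else 0)
    (by intro x z; split_ifs <;> simp) (by intro x z; split_ifs <;> simp)
    (by intro x z; split_ifs <;> simp)
  have hsum : (∑ p : XT ι 512 × ZT ι 512, (if P1 p.1 p.2 then (1:ℝ) else 0) *
      ∑ y : XT ι 512, (if P2 p.1 y then (1:ℝ) else 0) * (if P3 y p.2 then (1:ℝ) else 0) * sgn p.2 p.1 y)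
      = (N : ℝ) := by
    have e1 : ∀ p : XT ι 512 × ZT ι 512, (if P1 p.1 p.2 then (1:ℝ) else 0) *
      ∑ y : XT ι 512, (if P2 p.1 y then (1:ℝ) else 0) * (if P3 y p.2 then (1:ℝ) else 0) * sgn p.2 p.1 y
      = ∑ y : XT ι 512, (if P1 p.1 p.2 ∧ P2 p.1 y ∧ P3 y p.2 then (1:ℝ) else 0) := by
      intro p
      rw [Finset.mul_sum]
      refine Finset.sum_congr rfl (fun y _ => ?_)
      by_cases h1 : P1 p.1 p.2 <;> by_cases h2 : P2 p.1 y <;> by_cases h3 : P3 y p.2 <;>
        simp [h1, h2, h3]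
      have hok := hmono p.1 y p.2 h1 h2 h3
      unfold sgn
      refine Finset.prod_eq_one (fun b _ => ?_)
      rw [hok b]; simp [bs]
    rw [Finset.sum_congr rfl (fun p _ => e1 p)]
    rw [← Fintype.sum_prod_type (fun q : (XT ι 512 × ZT ι 512) × XT ι 512 =>
      (if P1 q.1.1 q.1.2 ∧ P2 q.1.1 q.2 ∧ P3 q.2 q.1.2 then (1:ℝ) else 0))]
    rw [hN, hCs, Finset.card_filter]
    push_cast
    rw [← Finset.sum_filter, ← Finset.sum_filter]
    symm
    refine Finset.sum_bij (fun p _ => ((p.1.1.1, p.1.2), p.1.1.2)) ?_ ?_ ?_ ?_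
    · intro p hp
      simpa using hp
    · intro p _ q _ hpq
      simp only [Prod.mk.injEq] at hpq
      exact Subtype.ext (Prod.ext (Prod.ext hpq.1.1 hpq.2) hpq.1.2)
    · intro q hq
      simp only [Finset.mem_filter, Finset.mem_univ, true_and] at hq
      exact ⟨⟨((q.1.1, q.2), q.1.2), hmono _ _ _ hq.1 hq.2.1 hq.2.2⟩, by simpa using hq, rfl⟩
    · intro p _
      rfl
  rw [hsum] at hd
  have h4 : (N : ℝ) ^ 4 ≤ ((nX : ℝ) * nZ * 128 ^ Fintype.card ι) ^ 4 := by
    refine hd.trans ?_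
    push_cast
    rw [← hnX, ← hnZ]
    apply le_of_eq
    have : (268435456 : ℝ) ^ Fintype.card ι = (128 ^ Fintype.card ι) ^ 4 := by
      rw [← pow_mul, mul_comm (Fintype.card ι) 4, pow_mul]
      norm_num
    rw [this]; ring
  have h1 : (N : ℝ) ≤ (nX : ℝ) * nZ * 128 ^ Fintype.card ι :=
    le_of_pow_le_pow_left₀ (by norm_num) (by positivity) h4
  have h1' : N ≤ nX * nZ * 128 ^ Fintype.card ι := by exact_mod_cast h1
  have h2 := card_le_inst (ι := ι) 512
  rw [← hnX, ← hnZ] at h2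
  have h3 : N * 2 ^ Fintype.card ι * 2 ^ Fintype.card ι ≤ Fintype.card (Inst ι 512) * 2 ^ Fintype.card ι := by
    refine le_trans ?_ h2
    calc N * 2 ^ Fintype.card ι * 2 ^ Fintype.card ι ≤ (nX * nZ * 128 ^ Fintype.card ι) * 2 ^ Fintype.card ι * 2 ^ Fintype.card ι := by gcongr
      _ = nX * (128 * 2 * 2) ^ Fintype.card ι * nZ := by rw [mul_pow, mul_pow]; ring
      _ = nX * nX * nZ := by norm_num [hnXv]
  exact Nat.le_of_mul_le_mul_right h3 (by positivity)

/-- NO instances of one gadget -/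
abbrev GI := {p : (Fin 512 × Fin 512) × (Fin 512 → Fin 512 → Bool) // p.2 p.1.1 p.1.2 = false}

def instEquiv : (ι → GI) ≃ Inst ι 512 where
  toFun ω := ⟨((fun i => (ω i).1.1.1, fun i => (ω i).1.1.2), fun i => (ω i).1.2), fun i => (ω i).2⟩
  invFun p := fun i => ⟨((p.1.1.1 i, p.1.1.2 i), p.1.2 i), p.2 i⟩
  left_inv _ := rfl
  right_inv _ := rfl

open Classical in
theorem mono_prod (P1 : XT ι 512 → ZT ι 512 → Prop) (P2 : XT ι 512 → XT ι 512 → Prop)
    (P3 : XT ι 512 → ZT ι 512 → Prop)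
    (hmono : ∀ x y z, P1 x z → P2 x y → P3 y z → ∀ b, z b (x b) (y b) = false) :
    (Finset.univ.filter (fun ω : ι → GI => P1 (fun i => (ω i).1.1.1) (fun i => (ω i).1.2) ∧
      P2 (fun i => (ω i).1.1.1) (fun i => (ω i).1.1.2) ∧
      P3 (fun i => (ω i).1.1.2) (fun i => (ω i).1.2))).card * 2 ^ Fintype.card ι
      ≤ Fintype.card (ι → GI) := by
  have h := mono_bound P1 P2 P3 hmono
  rw [Fintype.card_congr (instEquiv (ι := ι))]
  refine le_trans (Nat.mul_le_mul_right _ ?_) h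
  refine Finset.card_le_card_of_injOn (fun ω => instEquiv ω) ?_ (fun a _ b _ hab => instEquiv.injective hab)
  intro ω hω
  simpa [instEquiv] using hω

end Pool.Agent.Lib_helper26.TriRead.Nof
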