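import Mathlib
import Pool.Agent.Lib_helper26.TriRead.Count

namespace Pool.Agent.Lib_helper26.TriRead

open Finset Classical

/-- vertices of the gadget -/
inductive VG
  | u : VG
  | v : Fin 512 → VG
  | w : Fin 512 → VG

/-- edges of the gadget -/
inductive GE
  | x : Fin 512 → GE
  | y : Fin 512 → GE
  | z : Fin 512 → Fin 512 → GE

def VG.equiv : VG ≃ Option (Fin 512 ⊕ Fin 512) where
  toFun a := match a with
    | VG.u => none
    | VG.v i => some (Sum.inl i)
    | VG.w j => some (Sum.inr j)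
  invFun a := match a with
    | none => VG.u
    | some (Sum.inl i) => VG.v i
    | some (Sum.inr j) => VG.w j
  left_inv a := by cases a <;> rfl
  right_inv a := by rcases a with _ | (i | j) <;> rfl

def GE.equiv : GE ≃ (Fin 512 ⊕ Fin 512) ⊕ (Fin 512 × Fin 512) where
  toFun a := match a with
    | GE.x i => Sum.inl (Sum.inl i)
    | GE.y j => Sum.inl (Sum.inr j)
    | GE.z i j => Sum.inr (i, j)
  invFun a := match a with
    | Sum.inl (Sum.inl i) => GE.x i
    | Sum.inl (Sum.inr j) => GE.y j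
    | Sum.inr (i, j) => GE.z i j
  left_inv a := by cases a <;> rfl
  right_inv a := by rcases a with (i | j) | ⟨i, j⟩ <;> rfl

instance : Finite VG := Finite.of_equiv _ VG.equiv.symm
noncomputable instance : Fintype GE := Fintype.ofEquiv _ GE.equiv.symm

/-- the colour classes of the gadget -/
def col : VG → Fin 3
  | VG.u => 0
  | VG.v _ => 1
  | VG.w _ => 2

/-- kind of an edge -/
def kind : GE → Fin 3
  | GE.x _ => 0
  | GE.y _ => 1
  | GE.z _ _ => 2

/-- the end points of an edge -/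
def ends : GE → VG × VG
  | GE.x i => (VG.u, VG.v i)
  | GE.y j => (VG.u, VG.w j)
  | GE.z i j => (VG.v i, VG.w j)

variable {n : ℕ}

def edge (p : VG → Fin n) (g : GE) : Sym2 (Fin n) := s(p (ends g).1, p (ends g).2)

/-- `X` contains an edge of kind `c` of the placed gadget -/
def Sees (X : Finset (Sym2 (Fin n))) (c : Fin 3) (p : VG → Fin n) : Prop :=
  ∃ g, kind g = c ∧ edge p g ∈ X

/-- number of vertices of the gadget -/
def cV : ℕ := 1025

lemma card_VG : Nat.card VG = cV := by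
  rw [Nat.card_congr VG.equiv]; simp [cV]

lemma pow_three_le {T k n m : ℕ} (h1 : T ^ 2 ≤ m ^ 3) (h2 : m * k ^ 2 ≤ n ^ 2) : T * k ^ 3 ≤ n ^ 3 := by
  by_contra hlt
  push Not at hlt
  have h3 : (n ^ 3) ^ 2 < (T * k ^ 3) ^ 2 := Nat.pow_lt_pow_left hlt (by norm_num)
  have h4 : (T * k ^ 3) ^ 2 ≤ (m * k ^ 2) ^ 3 := by
    calc (T * k ^ 3) ^ 2 = T ^ 2 * k ^ 6 := by ring
      _ ≤ m ^ 3 * k ^ 6 := Nat.mul_le_mul_right _ h1
      _ = (m * k ^ 2) ^ 3 := by ring
  have h5 : (m * k ^ 2) ^ 3 ≤ (n ^ 2) ^ 3 := Nat.pow_le_pow_left h2 3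
  have h6 : (n ^ 2) ^ 3 = (n ^ 3) ^ 2 := by ring
  omega

lemma comp_bound (hn : 0 < n) {k : ℕ} {Q : (VG → Fin n) → Prop} {m : ℕ} {c : Fin m → VG}
    (hc : Function.Injective c) (Q' : (Fin m → Fin n) → Prop) (himp : ∀ p, Q p → Q' (p ∘ c))
    (hT : num Q' * k ^ 3 ≤ n ^ m) : num Q * k ^ 3 ≤ n ^ cV := by
  have hcc := num_comp hc (B := Fin n) Q'
  simp only [Nat.card_fin, card_VG] at hcc
  have hle : num Q ≤ num (fun p : VG → Fin n => Q' (p ∘ c)) := num_mono himp
  have hnm : 0 < n ^ m := by positivity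
  refine Nat.le_of_mul_le_mul_right (c := n ^ m) ?_ hnm
  calc num Q * k ^ 3 * n ^ m ≤ num (fun p : VG → Fin n => Q' (p ∘ c)) * k ^ 3 * n ^ m := by gcongr
    _ = (num (fun p : VG → Fin n => Q' (p ∘ c)) * n ^ m) * k ^ 3 := by ring
    _ ≤ (num Q' * n ^ cV) * k ^ 3 := Nat.mul_le_mul_right _ hcc
    _ = (num Q' * k ^ 3) * n ^ cV := by ring
    _ ≤ n ^ m * n ^ cV := Nat.mul_le_mul_right _ hT
    _ = n ^ cV * n ^ m := by ring

lemma triple_count (hn : 0 < n) {k : ℕ} (hk : 0 < k) (X : Finset (Sym2 (Fin n)))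
    (hX : 2 * X.card * k ^ 2 ≤ n ^ 2) (i j a b : Fin 512) :
    num (fun p : VG → Fin n => edge p (GE.x i) ∈ X ∧ edge p (GE.y j) ∈ X ∧ edge p (GE.z a b) ∈ X) * k ^ 3
      ≤ n ^ cV := by
  obtain ⟨F, hF⟩ : ∃ F : Fin n → Fin n → Prop, ∀ a b, F a b ↔ s(a, b) ∈ X := ⟨_, fun _ _ => Iff.rfl⟩
  have hpairs := num_pairs X F (fun a b h => (hF a b).1 h)
  have hm : num (fun q : Fin n × Fin n => F q.1 q.2) * k ^ 2 ≤ n ^ 2 :=
    (Nat.mul_le_mul_right _ hpairs).trans hX
  have hT4 : num (fun q : Fin 4 → Fin n => F (q 0) (q 1) ∧ F (q 2) (q 3)) * k ^ 3 ≤ n ^ 4 := by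
    calc num (fun q : Fin 4 → Fin n => F (q 0) (q 1) ∧ F (q 2) (q 3)) * k ^ 3
        ≤ num (fun q : Fin n × Fin n => F q.1 q.2) ^ 2 * k ^ 4 :=
          Nat.mul_le_mul (num_two F) (Nat.pow_le_pow_right hk (by norm_num))
      _ = (num (fun q : Fin n × Fin n => F q.1 q.2) * k ^ 2) ^ 2 := by ring
      _ ≤ (n ^ 2) ^ 2 := Nat.pow_le_pow_left hm 2
      _ = n ^ 4 := by ring
  have hT3 := pow_three_le (num_tri F) hm
  by_cases hai : a = i
  · by_cases hbj : b = j
    · subst hai hbj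
      refine comp_bound hn (c := ![VG.u, VG.v a, VG.w b]) ?_ _ ?_ hT3
      · intro x y hxy
        fin_cases x <;> fin_cases y <;> simp at hxy ⊢
      · intro p hp
        exact ⟨(hF _ _).2 hp.1, (hF _ _).2 hp.2.1, (hF _ _).2 hp.2.2⟩
    · refine comp_bound hn (c := ![VG.u, VG.w j, VG.v a, VG.w b]) ?_ _ ?_ hT4
      · intro x y hxy
        fin_cases x <;> fin_cases y <;> simp at hxy ⊢ <;> first | exact hbj hxy | exact hbj hxy.symm
      · intro p hp
        exact ⟨(hF _ _).2 hp.2.1, (hF _ _).2 hp.2.2⟩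
  · refine comp_bound hn (c := ![VG.u, VG.v i, VG.v a, VG.w b]) ?_ _ ?_ hT4
    · intro x y hxy
      fin_cases x <;> fin_cases y <;> simp at hxy ⊢ <;> first | exact hai hxy | exact hai hxy.symm
    · intro p hp
      exact ⟨(hF _ _).2 hp.1, (hF _ _).2 hp.2.2⟩

noncomputable instance : Fintype VG := Fintype.ofFinite _

lemma card_VG' : Fintype.card VG = cV := by rw [← Nat.card_eq_fintype_card, card_VG]

lemma noninj_count : num (fun p : VG → Fin n => ¬ Function.Injective p) * n ≤ cV ^ 2 * n ^ cV := by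
  have h1 : num (fun p : VG → Fin n => ¬ Function.Injective p) ≤
      ∑ q : VG × VG, num (fun p : VG → Fin n => q.1 ≠ q.2 ∧ p q.1 = p q.2) := by
    refine num_union (fun (q : VG × VG) (p : VG → Fin n) => q.1 ≠ q.2 ∧ p q.1 = p q.2) ?_
    intro p hp
    unfold Function.Injective at hp
    push Not at hp
    obtain ⟨a, b, hab, hne⟩ := hp
    exact ⟨(a, b), hne, hab⟩
  have h2 : ∀ q : VG × VG, num (fun p : VG → Fin n => q.1 ≠ q.2 ∧ p q.1 = p q.2) * n ≤ n ^ cV := by
    intro q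
    by_cases hq : q.1 = q.2
    · have : num (fun p : VG → Fin n => q.1 ≠ q.2 ∧ p q.1 = p q.2) = 0 := by
        unfold num
        rw [Nat.card_eq_zero]
        left
        exact ⟨fun a => a.2.1 hq⟩
      rw [this]; simp
    · have := num_eqs (A := VG) (B := Fin n) (C := Fin 1) (c := fun _ => q.1)
        (fun _ _ _ => Subsingleton.elim _ _) (fun _ => q.2) (fun _ _ h => hq h.symm)
      simp only [Nat.card_fin, card_VG, pow_one] at this
      refine le_trans (Nat.mul_le_mul_right _ (num_mono ?_)) this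
      intro p hp _
      exact hp.2
  calc num (fun p : VG → Fin n => ¬ Function.Injective p) * n
      ≤ (∑ q : VG × VG, num (fun p : VG → Fin n => q.1 ≠ q.2 ∧ p q.1 = p q.2)) * n :=
        Nat.mul_le_mul_right _ h1
    _ = ∑ q : VG × VG, num (fun p : VG → Fin n => q.1 ≠ q.2 ∧ p q.1 = p q.2) * n := by
        rw [Finset.sum_mul]
    _ ≤ ∑ _q : VG × VG, n ^ cV := Finset.sum_le_sum (fun q _ => h2 q)
    _ = cV ^ 2 * n ^ cV := by
        rw [Finset.sum_const, Finset.card_univ, Fintype.card_prod, card_VG']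
        simp only [smul_eq_mul]
        ring

variable {J : Type} [Fintype J]

lemma bad_count (hn : 0 < n) {k : ℕ} (hk : 0 < k) (X : J → Finset (Sym2 (Fin n)))
    (hX : ∀ j, 2 * (X j).card * k ^ 2 ≤ n ^ 2) :
    num (fun p : VG → Fin n => ∃ j, ∀ c, Sees (X j) c p) * k ^ 3 ≤
      Fintype.card J * 512 ^ 4 * n ^ cV := by
  have h1 : num (fun p : VG → Fin n => ∃ j, ∀ c, Sees (X j) c p) ≤
      ∑ t : J × (Fin 512 × Fin 512 × (Fin 512 × Fin 512)),
        num (fun p : VG → Fin n => edge p (GE.x t.2.1) ∈ X t.1 ∧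
          edge p (GE.y t.2.2.1) ∈ X t.1 ∧ edge p (GE.z t.2.2.2.1 t.2.2.2.2) ∈ X t.1) := by
    refine num_union (fun (t : J × (Fin 512 × Fin 512 × (Fin 512 × Fin 512))) (p : VG → Fin n) =>
      edge p (GE.x t.2.1) ∈ X t.1 ∧
          edge p (GE.y t.2.2.1) ∈ X t.1 ∧ edge p (GE.z t.2.2.2.1 t.2.2.2.2) ∈ X t.1) ?_
    intro p hp
    obtain ⟨j, hj⟩ := hp
    obtain ⟨g0, k0, e0⟩ := hj 0
    obtain ⟨g1, k1, e1⟩ := hj 1
    obtain ⟨g2, k2, e2⟩ := hj 2
    rcases g0 with i0 | i0 | ⟨i0, i0'⟩ <;> simp only [kind] at k0 <;> try (exact absurd k0 (by decide))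
    rcases g1 with i1 | i1 | ⟨i1, i1'⟩ <;> simp only [kind] at k1 <;> try (exact absurd k1 (by decide))
    rcases g2 with i2 | i2 | ⟨i2, i2'⟩ <;> simp only [kind] at k2 <;> try (exact absurd k2 (by decide))
    exact ⟨(j, i0, i1, i2, i2'), e0, e1, e2⟩
  calc num (fun p : VG → Fin n => ∃ j, ∀ c, Sees (X j) c p) * k ^ 3
      ≤ (∑ t : J × (Fin 512 × Fin 512 × (Fin 512 × Fin 512)),
        num (fun p : VG → Fin n => edge p (GE.x t.2.1) ∈ X t.1 ∧
          edge p (GE.y t.2.2.1) ∈ X t.1 ∧ edge p (GE.z t.2.2.2.1 t.2.2.2.2) ∈ X t.1)) * k ^ 3 :=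
        Nat.mul_le_mul_right _ h1
    _ = ∑ t : J × (Fin 512 × Fin 512 × (Fin 512 × Fin 512)),
        num (fun p : VG → Fin n => edge p (GE.x t.2.1) ∈ X t.1 ∧
          edge p (GE.y t.2.2.1) ∈ X t.1 ∧ edge p (GE.z t.2.2.2.1 t.2.2.2.2) ∈ X t.1) * k ^ 3 := by
        rw [Finset.sum_mul]
    _ ≤ ∑ _t : J × (Fin 512 × Fin 512 × (Fin 512 × Fin 512)), n ^ cV :=
        Finset.sum_le_sum (fun t _ => triple_count hn hk (X t.1) (hX t.1) _ _ _ _)
    _ = Fintype.card J * 512 ^ 4 * n ^ cV := by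
        rw [Finset.sum_const, Finset.card_univ]
        simp only [Fintype.card_prod, Fintype.card_fin, smul_eq_mul]
        ring

/-- number of edges of the gadget -/
def eG : ℕ := 263168

lemma card_GE : Fintype.card GE = eG := by
  rw [Fintype.card_congr GE.equiv]; simp [eG]

lemma place_card : Nat.card (VG → Fin n) = n ^ cV := by
  rw [Nat.card_fun, card_VG, Nat.card_fin]

/-- proper placements for the colouring `χ` of the factors -/
def Proper (X : J → Finset (Sym2 (Fin n))) (χ : J → Fin 3) (p : VG → Fin n) : Prop :=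
  Function.Injective p ∧ ∀ j, ¬ Sees (X j) (χ j) p

lemma chi_count {s : ℕ} (X : J → Finset (Sym2 (Fin n))) (p : VG → Fin n)
    (hr : ∑ g : GE, num (fun j => edge p g ∈ X j) ≤ s)
    (hbad : ∀ j, ∃ c, ¬ Sees (X j) c p) :
    3 ^ Fintype.card J ≤ num (fun χ : J → Fin 3 => ∀ j, ¬ Sees (X j) (χ j) p) * 3 ^ s := by
  set allowed : J → Finset (Fin 3) := fun j => univ.filter (fun c => ¬ Sees (X j) c p) with hall
  have e1 : num (fun χ : J → Fin 3 => ∀ j, ¬ Sees (X j) (χ j) p) = ∏ j, (allowed j).card := by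
    rw [num_eq, ← Fintype.card_piFinset]
    congr 1
    ext χ
    simp [hall, Fintype.mem_piFinset]
  rw [e1]
  set S : Finset J := univ.filter (fun j => ∃ g, edge p g ∈ X j) with hS
  have hScard : S.card ≤ s := by
    rw [hS, ← num_eq]
    exact (num_union (fun (g : GE) (j : J) => edge p g ∈ X j) (fun j hj => hj)).trans hr
  have hlow : ∀ j, (if j ∈ S then 1 else 3) ≤ (allowed j).card := by
    intro j
    split_ifs with hj
    · obtain ⟨c, hc⟩ := hbad j
      exact Finset.card_pos.2 ⟨c, by simp [hall, hc]⟩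
    · have : allowed j = univ := by
        ext c
        simp only [hall, mem_filter, mem_univ, true_and, iff_true]
        rintro ⟨g, _, hg⟩
        exact hj (by simp only [hS, mem_filter, mem_univ, true_and]; exact ⟨g, hg⟩)
      rw [this]; simp
  have hprod : ∏ j, (if j ∈ S then 1 else 3) ≤ ∏ j, (allowed j).card :=
    Finset.prod_le_prod' (fun j _ => hlow j)
  have hprod2 : (∏ j : J, (if j ∈ S then 1 else 3)) * 3 ^ S.card = 3 ^ Fintype.card J := by
    have : (∏ j : J, (if j ∈ S then (1:ℕ) else 3)) * (∏ j : J, (if j ∈ S then 3 else 1)) = 3 ^ Fintype.card J := by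
      rw [← Finset.prod_mul_distrib]
      rw [Finset.prod_congr rfl (g := fun _ => (3:ℕ)) (fun j _ => by split_ifs <;> rfl)]
      simp
    rw [← this]
    congr 1
    rw [Finset.prod_ite]
    simp
  calc 3 ^ Fintype.card J = (∏ j : J, (if j ∈ S then 1 else 3)) * 3 ^ S.card := hprod2.symm
    _ ≤ (∏ j, (allowed j).card) * 3 ^ s :=
        Nat.mul_le_mul hprod (Nat.pow_le_pow_right (by norm_num) hScard)

lemma edge_count (e : Sym2 (Fin n)) (g : GE) :
    num (fun p : VG → Fin n => edge p g = e) * n ^ 2 ≤ 2 * n ^ cV := by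
  have hc : Function.Injective ![(ends g).1, (ends g).2] := by
    intro x y hxy
    have hne : (ends g).1 ≠ (ends g).2 := by cases g <;> simp [ends]
    fin_cases x <;> fin_cases y <;> simp at hxy ⊢
    · exact hne hxy
    · exact hne hxy.symm
  have hcc := num_comp (A := VG) (B := Fin n) (C := Fin 2) hc
    (fun q => s(q 0, q 1) = e)
  simp only [Nat.card_fin, card_VG] at hcc
  have h1 : num (fun p : VG → Fin n => edge p g = e) ≤
      num (fun p : VG → Fin n => s((p ∘ ![(ends g).1, (ends g).2]) 0, (p ∘ ![(ends g).1, (ends g).2]) 1) = e) :=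
    num_mono (fun p hp => hp)
  have h2 : num (fun q : Fin 2 → Fin n => s(q 0, q 1) = e) ≤ 2 := by
    have h3 := num_pairs ({e} : Finset (Sym2 (Fin n))) (fun a b => s(a, b) = e) (fun a b h => by simp [h])
    refine (num_le_of_inj (fun q : Fin 2 → Fin n => (q 0, q 1)) (fun q hq => hq) ?_).trans (by simpa using h3)
    intro a b _ _ h
    simp only [Prod.mk.injEq] at h
    funext x
    fin_cases x
    · exact h.1
    · exact h.2
  calc num (fun p : VG → Fin n => edge p g = e) * n ^ 2 ≤ _ := Nat.mul_le_mul_right _ h1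
    _ ≤ _ := hcc
    _ ≤ 2 * n ^ cV := Nat.mul_le_mul_right _ h2

omit [Fintype J] in
lemma sees_sum {r : ℕ} (hn : 0 < n) (X : J → Finset (Sym2 (Fin n)))
    (hr : ∑ e, num (fun j => e ∈ X j) ≤ r * n ^ 2) :
    ∑ p : VG → Fin n, ∑ g : GE, num (fun j => edge p g ∈ X j) ≤ 2 * (r * eG) * n ^ cV := by
  have h1 : ∀ (g : GE), ∑ p : VG → Fin n, num (fun j => edge p g ∈ X j) =
      ∑ e : Sym2 (Fin n), num (fun p : VG → Fin n => edge p g = e) * num (fun j => e ∈ X j) := by
    intro g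
    rw [← Finset.sum_fiberwise Finset.univ (fun p : VG → Fin n => edge p g)]
    refine Finset.sum_congr rfl (fun e _ => ?_)
    rw [num_eq (fun p : VG → Fin n => edge p g = e), ← smul_eq_mul, ← Finset.sum_const]
    refine Finset.sum_congr rfl (fun p hp => ?_)
    rw [(Finset.mem_filter.1 hp).2]
  have h2 : ∀ g : GE, (∑ p : VG → Fin n, num (fun j => edge p g ∈ X j)) * n ^ 2 ≤
      (2 * r * n ^ cV) * n ^ 2 := by
    intro g
    rw [h1 g, Finset.sum_mul]
    calc ∑ e : Sym2 (Fin n), num (fun p : VG → Fin n => edge p g = e) * num (fun j => e ∈ X j) * n ^ 2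
        = ∑ e : Sym2 (Fin n), (num (fun p : VG → Fin n => edge p g = e) * n ^ 2) * num (fun j => e ∈ X j) :=
          Finset.sum_congr rfl (fun e _ => by ring)
      _ ≤ ∑ e : Sym2 (Fin n), (2 * n ^ cV) * num (fun j => e ∈ X j) :=
          Finset.sum_le_sum (fun e _ => Nat.mul_le_mul_right _ (edge_count e g))
      _ = (2 * n ^ cV) * ∑ e : Sym2 (Fin n), num (fun j => e ∈ X j) := by rw [Finset.mul_sum]
      _ ≤ (2 * n ^ cV) * (r * n ^ 2) := Nat.mul_le_mul_left _ hr
      _ = (2 * r * n ^ cV) * n ^ 2 := by ring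
  rw [Finset.sum_comm]
  calc ∑ g : GE, ∑ p : VG → Fin n, num (fun j => edge p g ∈ X j) ≤ ∑ _g : GE, 2 * r * n ^ cV :=
        Finset.sum_le_sum (fun g _ => Nat.le_of_mul_le_mul_right (h2 g) (by positivity))
    _ = 2 * (r * eG) * n ^ cV := by
        rw [Finset.sum_const, Finset.card_univ, card_GE, smul_eq_mul]
        ring

omit [Fintype J] in
lemma over_count {r : ℕ} (hn : 0 < n) (hr1 : 0 < r) (X : J → Finset (Sym2 (Fin n)))
    (hr : ∑ e, num (fun j => e ∈ X j) ≤ r * n ^ 2) :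
    4 * num (fun p : VG → Fin n => 8 * (r * eG) < ∑ g : GE, num (fun j => edge p g ∈ X j)) ≤ n ^ cV := by
  have hs := sees_sum hn X hr
  have heG : 0 < r * eG := Nat.mul_pos hr1 (by norm_num [eG])
  obtain ⟨q, hq⟩ : ∃ q, q = r * eG := ⟨_, rfl⟩
  rw [← hq] at hs heG ⊢
  set b := num (fun p : VG → Fin n => 8 * q < ∑ g : GE, num (fun j => edge p g ∈ X j)) with hb
  have hlow : b * (8 * q) ≤ ∑ p : VG → Fin n, ∑ g : GE, num (fun j => edge p g ∈ X j) := by
    have e1 : b * (8 * q) = ∑ p : VG → Fin n,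
        if 8 * q < ∑ g : GE, num (fun j => edge p g ∈ X j) then 8 * q else 0 := by
      rw [← Finset.sum_filter, Finset.sum_const, smul_eq_mul, hb, num_eq]
    rw [e1]
    refine Finset.sum_le_sum (fun p _ => ?_)
    split_ifs with h
    · exact h.le
    · exact Nat.zero_le _
  refine Nat.le_of_mul_le_mul_right (c := 2 * q) ?_ (by omega)
  calc 4 * b * (2 * q) = b * (8 * q) := by ring
    _ ≤ 2 * q * n ^ cV := hlow.trans hs
    _ = n ^ cV * (2 * q) := by ring

lemma exists_chi {r k : ℕ} (hn : 4 * cV ^ 2 ≤ n) (hk : 0 < k) (hr1 : 0 < r)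
    (X : J → Finset (Sym2 (Fin n)))
    (hX : ∀ j, 2 * (X j).card * k ^ 2 ≤ n ^ 2) (hJ : 4 * (Fintype.card J * 512 ^ 4) ≤ k ^ 3)
    (hr : ∑ e, num (fun j => e ∈ X j) ≤ r * n ^ 2) :
    ∃ χ : J → Fin 3, n ^ cV ≤ num (fun p : VG → Fin n => Proper X χ p) * (4 * 3 ^ (8 * (r * eG))) := by
  have hn0 : 0 < n := lt_of_lt_of_le (by norm_num [cV]) hn
  have hover := over_count hn0 hr1 X hr
  obtain ⟨q, hq⟩ : ∃ q, q = 8 * (r * eG) := ⟨_, rfl⟩
  rw [← hq] at hover ⊢
  clear hq
  set G : (VG → Fin n) → Prop := fun p => (Function.Injective p ∧ ¬ ∃ j, ∀ c, Sees (X j) c p) ∧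
    ∑ g : GE, num (fun j => edge p g ∈ X j) ≤ q with hG
  have hGcard : n ^ cV ≤ 4 * num G := by
    have h1 := noninj_count (n := n)
    have h2 := bad_count hn0 hk X hX
    set A := num (fun p : VG → Fin n => ¬ Function.Injective p) with hA
    set B := num (fun p : VG → Fin n => ∃ j, ∀ c, Sees (X j) c p) with hB
    set D := num (fun p : VG → Fin n => q < ∑ g : GE, num (fun j => edge p g ∈ X j)) with hD
    have h4 : n ^ cV ≤ num G + (A + (B + D)) := by
      have e0 : n ^ cV = num (fun _ : VG → Fin n => True) := by rw [num_true, place_card]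
      rw [e0]
      refine (num_or (Q1 := G) (Q2 := fun p => ¬ Function.Injective p ∨ ((∃ j, ∀ c, Sees (X j) c p) ∨
        q < ∑ g : GE, num (fun j => edge p g ∈ X j))) ?_).trans
        (Nat.add_le_add_left ((num_or (Q2 := fun p => (∃ j, ∀ c, Sees (X j) c p) ∨
        q < ∑ g : GE, num (fun j => edge p g ∈ X j)) (fun p hp => hp)).trans
          (Nat.add_le_add_left (num_or (fun p hp => hp)) _)) _)
      intro p _
      by_cases a1 : Function.Injective p
      · by_cases a2 : ∃ j, ∀ c, Sees (X j) c p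
        · exact Or.inr (Or.inr (Or.inl a2))
        · by_cases a3 : ∑ g : GE, num (fun j => edge p g ∈ X j) ≤ q
          · exact Or.inl ⟨⟨a1, a2⟩, a3⟩
          · exact Or.inr (Or.inr (Or.inr (not_le.1 a3)))
      · exact Or.inr (Or.inl a1)
    have h5 : 4 * A ≤ n ^ cV := by
      refine Nat.le_of_mul_le_mul_right (c := n) ?_ hn0
      calc 4 * A * n = 4 * (A * n) := by ring
        _ ≤ 4 * (cV ^ 2 * n ^ cV) := Nat.mul_le_mul_left _ h1
        _ = (4 * cV ^ 2) * n ^ cV := by ring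
        _ ≤ n * n ^ cV := Nat.mul_le_mul_right _ hn
        _ = n ^ cV * n := by ring
    have h6 : 4 * B ≤ n ^ cV := by
      have hk3 : 0 < k ^ 3 := by positivity
      refine Nat.le_of_mul_le_mul_right (c := k ^ 3) ?_ hk3
      calc 4 * B * k ^ 3 = 4 * (B * k ^ 3) := by ring
        _ ≤ 4 * (Fintype.card J * 512 ^ 4 * n ^ cV) := Nat.mul_le_mul_left _ h2
        _ = (4 * (Fintype.card J * 512 ^ 4)) * n ^ cV := by ring
        _ ≤ k ^ 3 * n ^ cV := Nat.mul_le_mul_right _ hJ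
        _ = n ^ cV * k ^ 3 := by ring
    omega
  by_contra hcon
  push Not at hcon
  have hsum : ∑ χ : J → Fin 3, num (fun p : VG → Fin n => Proper X χ p) * (4 * 3 ^ q) <
      ∑ _χ : J → Fin 3, n ^ cV :=
    Finset.sum_lt_sum_of_nonempty Finset.univ_nonempty (fun χ _ => hcon χ)
  have hlow : ∑ _χ : J → Fin 3, n ^ cV ≤
      ∑ χ : J → Fin 3, num (fun p : VG → Fin n => Proper X χ p) * (4 * 3 ^ q) := by
    rw [← Finset.sum_mul]
    have hdc : ∑ p : VG → Fin n, num (fun χ : J → Fin 3 => G p ∧ ∀ j, ¬ Sees (X j) (χ j) p) ≤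
        ∑ χ : J → Fin 3, num (fun p : VG → Fin n => Proper X χ p) := by
      rw [num_swap]
      refine Finset.sum_le_sum (fun χ _ => num_mono (fun p hp => ?_))
      exact ⟨hp.1.1.1, hp.2⟩
    have h3 : num G * 3 ^ Fintype.card J ≤
        (∑ χ : J → Fin 3, num (fun p : VG → Fin n => Proper X χ p)) * 3 ^ q := by
      have e1 : num G * 3 ^ Fintype.card J = ∑ p : VG → Fin n, if G p then 3 ^ Fintype.card J else 0 := by
        rw [← Finset.sum_filter, Finset.sum_const, smul_eq_mul, num_eq]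
      have e2 : ∀ p : VG → Fin n, (if G p then 3 ^ Fintype.card J else 0) ≤
          num (fun χ : J → Fin 3 => G p ∧ ∀ j, ¬ Sees (X j) (χ j) p) * 3 ^ q := by
        intro p
        split_ifs with hp
        · have hb := hp.1.2
          push Not at hb
          refine (chi_count X p hp.2 hb).trans (Nat.mul_le_mul_right _ (num_mono (fun χ hχ => ⟨hp, hχ⟩)))
        · exact Nat.zero_le _
      rw [e1]
      calc (∑ p : VG → Fin n, if G p then 3 ^ Fintype.card J else 0)
          ≤ ∑ p : VG → Fin n, num (fun χ : J → Fin 3 => G p ∧ ∀ j, ¬ Sees (X j) (χ j) p) * 3 ^ q :=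
            Finset.sum_le_sum (fun p _ => e2 p)
        _ = (∑ p : VG → Fin n, num (fun χ : J → Fin 3 => G p ∧ ∀ j, ¬ Sees (X j) (χ j) p)) * 3 ^ q := by
            rw [Finset.sum_mul]
        _ ≤ _ := Nat.mul_le_mul_right _ hdc
    calc ∑ _χ : J → Fin 3, n ^ cV = 3 ^ Fintype.card J * n ^ cV := by simp
      _ ≤ 3 ^ Fintype.card J * (4 * num G) := Nat.mul_le_mul_left _ hGcard
      _ = 4 * (num G * 3 ^ Fintype.card J) := by ring
      _ ≤ 4 * ((∑ χ : J → Fin 3, num (fun p : VG → Fin n => Proper X χ p)) * 3 ^ q) :=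
          Nat.mul_le_mul_left _ h3
      _ = _ := by ring
  exact absurd hsum (not_lt.2 hlow)

end Pool.Agent.Lib_helper26.TriRead
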