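import Mathlib
import Pool.Agent.Lib_helper26.TriRead.Gadget

namespace Pool.Agent.Lib_helper26.TriRead

open Finset Classical

variable {n t : ℕ}

/-- the gadget `i` is spoiled: three edges, not all of gadget `i`, one of them of gadget `i`, form a
closed triangle -/
def Spoiled (φ : Fin t → VG → Fin n) (i : Fin t) : Prop :=
  ∃ j l, ¬ (j = i ∧ l = i) ∧ ∃ p1 q1 p2 q2 p3 q3 : VG, col p1 ≠ col q1 ∧ col p2 ≠ col q2 ∧
    col p3 ≠ col q3 ∧ φ i q1 = φ j p2 ∧ φ j q2 = φ l p3 ∧ φ l q3 = φ i p1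

def Kept (φ : Fin t → VG → Fin n) (i : Fin t) : Prop :=
  Function.Injective (φ i) ∧ ¬ Spoiled φ i

lemma Phi_card : Nat.card (Fin t → VG → Fin n) = (n ^ cV) ^ t := by
  rw [Nat.card_fun, place_card, Nat.card_fin]

lemma num_eqs_curry {m : ℕ} {c : Fin m → Fin t × VG} (hc : Function.Injective c)
    (d : Fin m → Fin t × VG) (hd : ∀ x y, d x ≠ c y) :
    num (fun φ : Fin t → VG → Fin n => ∀ x, φ (c x).1 (c x).2 = φ (d x).1 (d x).2) * n ^ m ≤
      (n ^ cV) ^ t := by
  have h := num_eqs (A := Fin t × VG) (B := Fin n) hc d hd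
  simp only [Nat.card_fin, Nat.card_prod, card_VG] at h
  rw [← pow_mul, mul_comm cV t]
  refine le_trans (Nat.mul_le_mul_right _ ?_) h
  refine num_le_of_inj (fun φ => fun a => φ a.1 a.2) (fun φ hφ => hφ) ?_
  intro φ ψ _ _ h
  funext i a
  exact congrFun h (i, a)

lemma spoiled_one (hn : 0 < n) (i j l : Fin t) (hjl : ¬ (j = i ∧ l = i)) (p1 q1 p2 q2 p3 q3 : VG)
    (h1 : p1 ≠ q1) (h2 : p2 ≠ q2) (h3 : p3 ≠ q3) :
    num (fun φ : Fin t → VG → Fin n => φ i q1 = φ j p2 ∧ φ j q2 = φ l p3 ∧ φ l q3 = φ i p1) * n ^ 3 ≤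
      (1 + (if j = i then n else 0) + (if l = i then n else 0) + (if j = l then n else 0)) *
        (n ^ cV) ^ t := by
  -- two constraints
  have two : ∀ c d : Fin 2 → Fin t × VG, Function.Injective c → (∀ x y, d x ≠ c y) →
      (∀ φ : Fin t → VG → Fin n, (φ i q1 = φ j p2 ∧ φ j q2 = φ l p3 ∧ φ l q3 = φ i p1) →
        ∀ x, φ (c x).1 (c x).2 = φ (d x).1 (d x).2) →
      num (fun φ : Fin t → VG → Fin n => φ i q1 = φ j p2 ∧ φ j q2 = φ l p3 ∧ φ l q3 = φ i p1) * n ^ 3 ≤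
        n * (n ^ cV) ^ t := by
    intro c d hc hd himp
    have := num_eqs_curry (n := n) hc d hd
    calc num (fun φ : Fin t → VG → Fin n => φ i q1 = φ j p2 ∧ φ j q2 = φ l p3 ∧ φ l q3 = φ i p1) * n ^ 3
        ≤ num (fun φ : Fin t → VG → Fin n => ∀ x, φ (c x).1 (c x).2 = φ (d x).1 (d x).2) * n ^ 3 :=
          Nat.mul_le_mul_right _ (num_mono himp)
      _ = n * (num (fun φ : Fin t → VG → Fin n => ∀ x, φ (c x).1 (c x).2 = φ (d x).1 (d x).2) * n ^ 2) := by ring
      _ ≤ n * (n ^ cV) ^ t := Nat.mul_le_mul_left _ this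
  by_cases hji : j = i
  · subst hji
    have hlj : l ≠ j := fun h => hjl ⟨rfl, h⟩
    refine (two ![(l, p3), (l, q3)] ![(j, q2), (j, p1)] ?_ ?_ ?_).trans (Nat.mul_le_mul_right _ ?_)
    · intro x y hxy
      fin_cases x <;> fin_cases y <;> simp at hxy ⊢
      · exact h3 hxy
      · exact h3 hxy.symm
    · intro x y hxy
      fin_cases x <;> fin_cases y <;> simp at hxy <;> exact hlj hxy.1.symm
    · rintro φ ⟨a1, a2, a3⟩ x
      fin_cases x
      · exact a2.symm
      · exact a3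
    · simp; omega
  · by_cases hli : l = i
    · subst hli
      refine (two ![(j, p2), (j, q2)] ![(l, q1), (l, p3)] ?_ ?_ ?_).trans (Nat.mul_le_mul_right _ ?_)
      · intro x y hxy
        fin_cases x <;> fin_cases y <;> simp at hxy ⊢
        · exact h2 hxy
        · exact h2 hxy.symm
      · intro x y hxy
        fin_cases x <;> fin_cases y <;> simp at hxy <;> exact hji hxy.1.symm
      · rintro φ ⟨a1, a2, a3⟩ x
        fin_cases x
        · exact a1.symm
        · exact a2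
      · simp [hji]
    · by_cases hjl' : j = l
      · subst hjl'
        refine (two ![(i, q1), (i, p1)] ![(j, p2), (j, q3)] ?_ ?_ ?_).trans (Nat.mul_le_mul_right _ ?_)
        · intro x y hxy
          fin_cases x <;> fin_cases y <;> simp at hxy ⊢
          · exact h1 hxy.symm
          · exact h1 hxy
        · intro x y hxy
          fin_cases x <;> fin_cases y <;> simp at hxy <;> exact hji hxy.1
        · rintro φ ⟨a1, a2, a3⟩ x
          fin_cases x
          · exact a1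
          · exact a3.symm
        · simp [hji]
      · have := num_eqs_curry (n := n) (c := ![(i, q1), (j, q2), (l, q3)]) (by
          intro x y hxy
          fin_cases x <;> fin_cases y <;> simp at hxy ⊢ <;>
            first | exact hji hxy.1 | exact hji hxy.1.symm | exact hli hxy.1 | exact hli hxy.1.symm |
              exact hjl' hxy.1 | exact hjl' hxy.1.symm) ![(j, p2), (l, p3), (i, p1)] (by
          intro x y hxy
          fin_cases x <;> fin_cases y <;> simp at hxy <;>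
            first | exact hji hxy.1 | exact hji hxy.1.symm | exact hli hxy.1 | exact hli hxy.1.symm |
              exact hjl' hxy.1 | exact hjl' hxy.1.symm | exact h1 hxy | exact h2 hxy | exact h3 hxy)
        refine (Nat.mul_le_mul_right _ (num_mono ?_)).trans (this.trans (Nat.le_mul_of_pos_left _ (by omega)))
        rintro φ ⟨a1, a2, a3⟩ x
        fin_cases x
        · exact a1
        · exact a2
        · exact a3

lemma spoiled_count (hn : 0 < n) (i : Fin t) :
    num (fun φ : Fin t → VG → Fin n => Spoiled φ i) * n ^ 3 ≤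
      cV ^ 6 * (t ^ 2 + 3 * t * n) * (n ^ cV) ^ t := by
  set Q : ((Fin t × Fin t) × (VG × VG × VG × VG × VG × VG)) → (Fin t → VG → Fin n) → Prop :=
    fun s φ => ¬ (s.1.1 = i ∧ s.1.2 = i) ∧ s.2.1 ≠ s.2.2.1 ∧ s.2.2.2.1 ≠ s.2.2.2.2.1 ∧
      s.2.2.2.2.2.1 ≠ s.2.2.2.2.2.2 ∧ (φ i s.2.2.1 = φ s.1.1 s.2.2.2.1 ∧
      φ s.1.1 s.2.2.2.2.1 = φ s.1.2 s.2.2.2.2.2.1 ∧ φ s.1.2 s.2.2.2.2.2.2 = φ i s.2.1) with hQ
  have h1 : num (fun φ : Fin t → VG → Fin n => Spoiled φ i) ≤ ∑ s, num (Q s) := by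
    refine num_union Q ?_
    rintro φ ⟨j, l, hjl, p1, q1, p2, q2, p3, q3, c1, c2, c3, e⟩
    exact ⟨((j, l), (p1, q1, p2, q2, p3, q3)), hjl, fun h => c1 (congrArg col h),
      fun h => c2 (congrArg col h), fun h => c3 (congrArg col h), e⟩
  set W : Fin t × Fin t → ℕ := fun a => 1 + (if a.1 = i then n else 0) + (if a.2 = i then n else 0)
    + (if a.1 = a.2 then n else 0) with hW
  have h2 : ∀ s, num (Q s) * n ^ 3 ≤ W s.1 * (n ^ cV) ^ t := by
    intro s
    by_cases hs : ¬ (s.1.1 = i ∧ s.1.2 = i) ∧ s.2.1 ≠ s.2.2.1 ∧ s.2.2.2.1 ≠ s.2.2.2.2.1 ∧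
      s.2.2.2.2.2.1 ≠ s.2.2.2.2.2.2
    · refine le_trans (Nat.mul_le_mul_right _ (num_mono ?_))
        (spoiled_one hn i s.1.1 s.1.2 hs.1 s.2.1 s.2.2.1 s.2.2.2.1 s.2.2.2.2.1 s.2.2.2.2.2.1
          s.2.2.2.2.2.2 hs.2.1 hs.2.2.1 hs.2.2.2)
      intro φ hφ
      exact hφ.2.2.2.2
    · have : num (Q s) = 0 := by
        unfold num
        rw [Nat.card_eq_zero]
        left
        exact ⟨fun a => hs ⟨a.2.1, a.2.2.1, a.2.2.2.1, a.2.2.2.2.1⟩⟩
      rw [this]; simp
  have hWsum : ∑ a : Fin t × Fin t, W a = t ^ 2 + 3 * t * n := by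
    simp only [hW, Finset.sum_add_distrib]
    have e1 : ∑ a : Fin t × Fin t, (if a.1 = i then n else 0) = t * n := by
      rw [Fintype.sum_prod_type]
      have : ∀ x : Fin t, ∑ y : Fin t, (if (x, y).1 = i then n else 0) = if x = i then t * n else 0 := by
        intro x
        by_cases hx : x = i <;> simp [hx]
      rw [Finset.sum_congr rfl (fun x _ => this x)]
      simp
    have e2 : ∑ a : Fin t × Fin t, (if a.2 = i then n else 0) = t * n := by
      rw [Fintype.sum_prod_type]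
      simp
    have e3 : ∑ a : Fin t × Fin t, (if a.1 = a.2 then n else 0) = t * n := by
      rw [Fintype.sum_prod_type]
      simp
    rw [e1, e2, e3]
    simp
    ring
  calc num (fun φ : Fin t → VG → Fin n => Spoiled φ i) * n ^ 3
      ≤ (∑ s, num (Q s)) * n ^ 3 := Nat.mul_le_mul_right _ h1
    _ = ∑ s, num (Q s) * n ^ 3 := by rw [Finset.sum_mul]
    _ ≤ ∑ s : ((Fin t × Fin t) × (VG × VG × VG × VG × VG × VG)), W s.1 * (n ^ cV) ^ t :=
        Finset.sum_le_sum (fun s _ => h2 s)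
    _ = cV ^ 6 * (t ^ 2 + 3 * t * n) * (n ^ cV) ^ t := by
        rw [← Finset.sum_mul, Fintype.sum_prod_type]
        simp only [Finset.sum_const, Finset.card_univ, Fintype.card_prod, card_VG', smul_eq_mul]
        rw [← Finset.mul_sum, hWsum]
        ring

lemma unkept_count {Γ : ℕ} (hn : 0 < n) (i : Fin t)
    (h1 : 16 * Γ * (cV ^ 6 * (t ^ 2 + 3 * t * n)) ≤ n ^ 3) (h2 : 16 * Γ * cV ^ 2 ≤ n) :
    num (fun φ : Fin t → VG → Fin n => ¬ Kept φ i) * (8 * Γ) ≤ (n ^ cV) ^ t := by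
  set N := (n ^ cV) ^ t with hN
  set A := num (fun φ : Fin t → VG → Fin n => ¬ Function.Injective (φ i)) with hA
  set B := num (fun φ : Fin t → VG → Fin n => Spoiled φ i) with hB
  have hAB : num (fun φ : Fin t → VG → Fin n => ¬ Kept φ i) ≤ A + B := by
    refine num_or (fun φ hφ => ?_)
    unfold Kept at hφ
    tauto
  have hA1 : A * n ≤ cV ^ 2 * N := by
    have hcc := num_comp (A := Fin t) (B := VG → Fin n) (C := Fin 1) (c := fun _ => i)
      (fun _ _ _ => Subsingleton.elim _ _) (fun q => ¬ Function.Injective (q 0))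
    rw [place_card, Nat.card_fin, Nat.card_fin, pow_one] at hcc
    have hq : num (fun q : Fin 1 → VG → Fin n => ¬ Function.Injective (q 0)) ≤
        num (fun p : VG → Fin n => ¬ Function.Injective p) :=
      num_le_of_inj (fun q => q 0) (fun _ h => h) (fun a b _ _ h => by
        funext x; rw [Subsingleton.elim x 0]; exact h)
    have hni := noninj_count (n := n)
    have hpos : 0 < n ^ cV := by positivity
    refine Nat.le_of_mul_le_mul_right (c := n ^ cV) ?_ hpos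
    calc A * n * n ^ cV = (A * n ^ cV) * n := by ring
      _ ≤ (num (fun q : Fin 1 → VG → Fin n => ¬ Function.Injective (q 0)) * N) * n :=
          Nat.mul_le_mul_right _ hcc
      _ ≤ (num (fun p : VG → Fin n => ¬ Function.Injective p) * N) * n := by gcongr
      _ = (num (fun p : VG → Fin n => ¬ Function.Injective p) * n) * N := by ring
      _ ≤ (cV ^ 2 * n ^ cV) * N := Nat.mul_le_mul_right _ hni
      _ = cV ^ 2 * N * n ^ cV := by ring
  have hA2 : 16 * Γ * A ≤ N := by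
    refine Nat.le_of_mul_le_mul_right (c := n) ?_ hn
    calc 16 * Γ * A * n = 16 * Γ * (A * n) := by ring
      _ ≤ 16 * Γ * (cV ^ 2 * N) := Nat.mul_le_mul_left _ hA1
      _ = (16 * Γ * cV ^ 2) * N := by ring
      _ ≤ n * N := Nat.mul_le_mul_right _ h2
      _ = N * n := by ring
  have hB1 := spoiled_count hn i
  have hB2 : 16 * Γ * B ≤ N := by
    have hpos : 0 < n ^ 3 := by positivity
    refine Nat.le_of_mul_le_mul_right (c := n ^ 3) ?_ hpos
    calc 16 * Γ * B * n ^ 3 = 16 * Γ * (B * n ^ 3) := by ring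
      _ ≤ 16 * Γ * (cV ^ 6 * (t ^ 2 + 3 * t * n) * N) := Nat.mul_le_mul_left _ hB1
      _ = (16 * Γ * (cV ^ 6 * (t ^ 2 + 3 * t * n))) * N := by ring
      _ ≤ n ^ 3 * N := Nat.mul_le_mul_right _ h1
      _ = N * n ^ 3 := by ring
  calc num (fun φ : Fin t → VG → Fin n => ¬ Kept φ i) * (8 * Γ) ≤ (A + B) * (8 * Γ) :=
        Nat.mul_le_mul_right _ hAB
    _ ≤ N := by nlinarith

/-- Markov: at least half of the tuples are good -/
lemma good_half {Γ τ : ℕ} (hn : 0 < n) (hΓ : 0 < Γ) (ht : t = 8 * Γ * τ)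
    (h1 : 16 * Γ * (cV ^ 6 * (t ^ 2 + 3 * t * n)) ≤ n ^ 3) (h2 : 16 * Γ * cV ^ 2 ≤ n) :
    2 * num (fun φ : Fin t → VG → Fin n => 2 * τ < num (fun i => ¬ Kept φ i)) ≤ (n ^ cV) ^ t := by
  set N := (n ^ cV) ^ t with hN
  set b := num (fun φ : Fin t → VG → Fin n => 2 * τ < num (fun i => ¬ Kept φ i)) with hb
  have hsw : ∑ φ : Fin t → VG → Fin n, num (fun i => ¬ Kept φ i) =
      ∑ i : Fin t, num (fun φ : Fin t → VG → Fin n => ¬ Kept φ i) := num_swap _
  have hS : (∑ φ : Fin t → VG → Fin n, num (fun i => ¬ Kept φ i)) * (8 * Γ) ≤ t * N := by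
    rw [hsw, Finset.sum_mul]
    calc ∑ i : Fin t, num (fun φ : Fin t → VG → Fin n => ¬ Kept φ i) * (8 * Γ) ≤ ∑ _i : Fin t, N :=
          Finset.sum_le_sum (fun i _ => unkept_count hn i h1 h2)
      _ = t * N := by simp
  have hS2 : (∑ φ : Fin t → VG → Fin n, num (fun i => ¬ Kept φ i)) ≤ τ * N := by
    have hpos : 0 < 8 * Γ := by omega
    refine Nat.le_of_mul_le_mul_right (c := 8 * Γ) ?_ hpos
    refine hS.trans (le_of_eq ?_)
    rw [ht]; ring
  have hlow : b * (2 * τ + 1) ≤ ∑ φ : Fin t → VG → Fin n, num (fun i => ¬ Kept φ i) := by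
    have e1 : b * (2 * τ + 1) = ∑ φ : Fin t → VG → Fin n,
        if 2 * τ < num (fun i => ¬ Kept φ i) then (2 * τ + 1) else 0 := by
      rw [← Finset.sum_filter, Finset.sum_const, smul_eq_mul, hb, num_eq]
    rw [e1]
    refine Finset.sum_le_sum (fun φ _ => ?_)
    split_ifs with h
    · exact h
    · exact Nat.zero_le _
  have h3 : b * (2 * τ + 1) ≤ τ * N := hlow.trans hS2
  rcases Nat.eq_zero_or_pos τ with h0 | h0
  · subst h0
    have : b = 0 := by simpa using h3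
    rw [this]; simp
  · refine Nat.le_of_mul_le_mul_right (c := τ) ?_ h0
    nlinarith

/-- Chernoff bound -/
lemma few_count {Γ τ : ℕ} (hΓ : 0 < Γ) (ht : t = 8 * Γ * τ) (S : (VG → Fin n) → Prop)
    (hS : n ^ cV ≤ num S * Γ) :
    num (fun φ : Fin t → VG → Fin n => num (fun i => S (φ i)) < 4 * τ) * 2 ^ τ ≤ (n ^ cV) ^ t := by
  set w : (VG → Fin n) → ℝ := fun p => if S p then 1 / 2 else 1 with hw
  set b := num (fun φ : Fin t → VG → Fin n => num (fun i => S (φ i)) < 4 * τ) with hb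
  set Np : ℝ := (n : ℝ) ^ cV with hNp
  have hNp0 : 0 ≤ Np := by positivity
  have hsumw : ∑ p, w p = Np - (num S : ℝ) / 2 := by
    have e1 : ∀ p, w p = 1 - (if S p then (1 / 2 : ℝ) else 0) := by
      intro p; simp only [hw]; split_ifs <;> norm_num
    rw [Finset.sum_congr rfl (fun p _ => e1 p), Finset.sum_sub_distrib]
    congr 1
    · rw [Finset.sum_const, Finset.card_univ, nsmul_eq_mul, mul_one, ← Nat.card_eq_fintype_card,
        place_card, hNp]
      push_cast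
      rfl
    · rw [← Finset.sum_filter, Finset.sum_const, nsmul_eq_mul, num_eq]
      ring
  have hΓr : (0 : ℝ) < Γ := by exact_mod_cast hΓ
  have hsumw2 : ∑ p, w p ≤ Np * (1 - 1 / (2 * Γ)) := by
    rw [hsumw]
    have : Np ≤ (num S : ℝ) * Γ := by rw [hNp]; exact_mod_cast hS
    have h2 : Np / (2 * Γ) ≤ (num S : ℝ) / 2 := by
      rw [div_le_div_iff₀ (by positivity) (by norm_num)]
      nlinarith
    have h3 : Np * (1 - 1 / (2 * Γ)) = Np - Np / (2 * Γ) := by ring
    rw [h3]; linarith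
  have hw0 : ∀ p, 0 ≤ w p := by intro p; simp only [hw]; split_ifs <;> norm_num
  have hpow : ∑ φ : Fin t → VG → Fin n, ∏ i, w (φ i) = (∑ p, w p) ^ t := (Fintype.sum_pow w t).symm
  have hprodφ : ∀ φ : Fin t → VG → Fin n, ∏ i, w (φ i) = (1 / 2 : ℝ) ^ num (fun i => S (φ i)) := by
    intro φ
    rw [num_eq, ← Finset.prod_const, Finset.prod_filter]
  have hlow : (b : ℝ) * (1 / 2) ^ (4 * τ) ≤ ∑ φ : Fin t → VG → Fin n, ∏ i, w (φ i) := by
    have e1 : (b : ℝ) * (1 / 2) ^ (4 * τ) = ∑ φ : Fin t → VG → Fin n,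
        if num (fun i => S (φ i)) < 4 * τ then (1 / 2 : ℝ) ^ (4 * τ) else 0 := by
      rw [← Finset.sum_filter, Finset.sum_const, nsmul_eq_mul, hb, num_eq]
    rw [e1]
    refine Finset.sum_le_sum (fun φ _ => ?_)
    rw [hprodφ]
    split_ifs with h
    · exact pow_le_pow_of_le_one (by norm_num) (by norm_num) h.le
    · positivity
  have hup : (∑ p, w p) ^ t ≤ Np ^ t * Real.exp (-(4 * τ)) := by
    have h1 : (∑ p, w p) ^ t ≤ (Np * (1 - 1 / (2 * Γ))) ^ t :=
      pow_le_pow_left₀ (Finset.sum_nonneg (fun p _ => hw0 p)) hsumw2 t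
    have h0 : 0 ≤ 1 - 1 / (2 * (Γ:ℝ)) := by
      have : 1 / (2 * (Γ:ℝ)) ≤ 1 := by
        rw [div_le_one (by positivity)]
        have : (1:ℝ) ≤ Γ := by exact_mod_cast hΓ
        linarith
      linarith
    have h2 : (1 - 1 / (2 * (Γ:ℝ))) ^ t ≤ Real.exp (-(4 * τ)) := by
      have h3 : 1 - 1 / (2 * (Γ:ℝ)) ≤ Real.exp (-(1 / (2 * (Γ:ℝ)))) := Real.one_sub_le_exp_neg _
      calc (1 - 1 / (2 * (Γ:ℝ))) ^ t ≤ (Real.exp (-(1 / (2 * (Γ:ℝ))))) ^ t := pow_le_pow_left₀ h0 h3 t
        _ = Real.exp (-(4 * τ)) := by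
            rw [← Real.exp_nat_mul, ht]
            congr 1
            push_cast
            field_simp
            ring
    calc (∑ p, w p) ^ t ≤ (Np * (1 - 1 / (2 * Γ))) ^ t := h1
      _ = Np ^ t * (1 - 1 / (2 * Γ)) ^ t := by rw [mul_pow]
      _ ≤ Np ^ t * Real.exp (-(4 * τ)) := mul_le_mul_of_nonneg_left h2 (pow_nonneg hNp0 t)
  have hfin : (b : ℝ) * 2 ^ τ ≤ Np ^ t := by
    have h1 : (b : ℝ) * (1 / 2) ^ (4 * τ) ≤ Np ^ t * Real.exp (-(4 * τ)) := by
      rw [hpow] at hlow; exact hlow.trans hup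
    have h2 : (b : ℝ) ≤ Np ^ t * (16 * Real.exp (-4)) ^ τ := by
      have e1 : Real.exp (-(4 * τ)) = Real.exp (-4) ^ τ := by
        rw [← Real.exp_nat_mul]; congr 1; ring
      have e2 : (1 / 2 : ℝ) ^ (4 * τ) = (1 / 16) ^ τ := by
        rw [pow_mul]; norm_num
      rw [e1, e2] at h1
      have h3 : (b : ℝ) * (1 / 16) ^ τ * 16 ^ τ ≤ Np ^ t * Real.exp (-4) ^ τ * 16 ^ τ :=
        mul_le_mul_of_nonneg_right h1 (by positivity)
      have e3 : (b : ℝ) * (1 / 16) ^ τ * 16 ^ τ = b := by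
        rw [mul_assoc, ← mul_pow]; norm_num
      rw [e3] at h3
      refine h3.trans (le_of_eq ?_)
      rw [mul_pow]; ring
    have h4 : 16 * Real.exp (-4) ≤ 1 / 2 := by
      have he : (2.7182818283 : ℝ) < Real.exp 1 := Real.exp_one_gt_d9
      have h5 : Real.exp 4 = Real.exp 1 ^ 4 := by rw [← Real.exp_nat_mul]; norm_num
      have h6 : (32 : ℝ) ≤ Real.exp 4 := by
        rw [h5]
        calc (32 : ℝ) ≤ 2.7182818283 ^ 4 := by norm_num
          _ ≤ Real.exp 1 ^ 4 := pow_le_pow_left₀ (by norm_num) he.le 4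
      rw [Real.exp_neg]
      rw [← div_eq_mul_inv, div_le_div_iff₀ (by positivity) (by norm_num)]
      linarith
    calc (b : ℝ) * 2 ^ τ ≤ Np ^ t * (16 * Real.exp (-4)) ^ τ * 2 ^ τ :=
          mul_le_mul_of_nonneg_right h2 (by positivity)
      _ ≤ Np ^ t * (1 / 2) ^ τ * 2 ^ τ :=
          mul_le_mul_of_nonneg_right (mul_le_mul_of_nonneg_left
            (pow_le_pow_left₀ (by positivity) h4 τ) (pow_nonneg hNp0 t)) (by positivity)
      _ = Np ^ t := by rw [mul_assoc, ← mul_pow]; norm_num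
  have : ((b * 2 ^ τ : ℕ) : ℝ) ≤ (((n ^ cV) ^ t : ℕ) : ℝ) := by
    push_cast
    exact hfin
  exact_mod_cast this

end Pool.Agent.Lib_helper26.TriRead
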