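import Mathlib
import Pool.Agent.Lib_helper26.TriRead.Random
import Pool.Agent.Lib_helper26.TriRead.Nof

namespace Pool.Agent.Lib_helper26.TriRead

open Finset Classical

variable {n t : ℕ}

/-- data of a gadget -/
abbrev GD := (Fin 512 × Fin 512) × (Fin 512 → Fin 512 → Bool)

/-- the edges of the gadget that are switched on by the data -/
def On (d : GD) : GE → Prop
  | GE.x a => d.1.1 = a
  | GE.y b => d.1.2 = b
  | GE.z a b => d.2 a b = true

/-- the graph of the kept gadgets -/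
def ES (φ : Fin t → VG → Fin n) (D : Fin t → GD) : Set (Sym2 (Fin n)) :=
  {e | ∃ i, Kept φ i ∧ ∃ g, On (D i) g ∧ edge (φ i) g = e}

lemma ends_ne (g : GE) : (ends g).1 ≠ (ends g).2 := by
  cases g <;> simp [ends]

lemma ends_col (g : GE) : col (ends g).1 ≠ col (ends g).2 := by
  cases g <;> simp [ends, col]

lemma ES_not_diag {φ : Fin t → VG → Fin n} {D : Fin t → GD} {e : Sym2 (Fin n)} (he : e ∈ ES φ D) :
    ¬ e.IsDiag := by
  obtain ⟨i, hi, g, _, rfl⟩ := he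
  unfold edge
  rw [Sym2.mk_isDiag_iff]
  exact fun h => ends_ne g (hi.1 h)

lemma edgeSet_ES (φ : Fin t → VG → Fin n) (D : Fin t → GD) :
    (SimpleGraph.fromEdgeSet (ES φ D)).edgeSet = ES φ D := by
  rw [SimpleGraph.edgeSet_fromEdgeSet]
  ext e
  constructor
  · exact fun h => h.1
  · exact fun h => ⟨h, ES_not_diag h⟩

/-- an edge with prescribed end points -/
lemma orient {p : VG → Fin n} {g : GE} {a b : Fin n} (h : edge p g = s(a, b)) :
    ∃ p1 q1, col p1 ≠ col q1 ∧ p p1 = a ∧ p q1 = b ∧ (s(p1, q1) : Sym2 VG) = s((ends g).1, (ends g).2) := by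
  unfold edge at h
  rw [Sym2.eq_iff] at h
  rcases h with ⟨h1, h2⟩ | ⟨h1, h2⟩
  · exact ⟨_, _, ends_col g, h1, h2, rfl⟩
  · exact ⟨_, _, (ends_col g).symm, h2, h1, Sym2.eq_swap⟩

lemma template {d : GD} {a b c : VG} (hab : ∃ g, On d g ∧ (s(a, b) : Sym2 VG) = s((ends g).1, (ends g).2))
    (hbc : ∃ g, On d g ∧ (s(b, c) : Sym2 VG) = s((ends g).1, (ends g).2))
    (hca : ∃ g, On d g ∧ (s(c, a) : Sym2 VG) = s((ends g).1, (ends g).2)) : d.2 d.1.1 d.1.2 = true := by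
  obtain ⟨g1, o1, e1⟩ := hab
  obtain ⟨g2, o2, e2⟩ := hbc
  obtain ⟨g3, o3, e3⟩ := hca
  rw [Sym2.eq_iff] at e1 e2 e3
  cases g1 <;> cases g2 <;> cases g3 <;> simp only [ends] at e1 e2 e3 <;>
    rcases e1 with ⟨e1, e1'⟩ | ⟨e1, e1'⟩ <;> rcases e2 with ⟨e2, e2'⟩ | ⟨e2, e2'⟩ <;>
    rcases e3 with ⟨e3, e3'⟩ | ⟨e3, e3'⟩ <;> subst e1 <;> subst e1' <;> simp_all [On]

lemma ES_free {φ : Fin t → VG → Fin n} {D : Fin t → GD}
    (h : ∀ i, Kept φ i → (D i).2 (D i).1.1 (D i).1.2 = false) :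
    (SimpleGraph.fromEdgeSet (ES φ D)).CliqueFree 3 := by
  intro s hs
  rw [SimpleGraph.is3Clique_iff] at hs
  obtain ⟨a, b, c, hab, hac, hbc, -⟩ := hs
  rw [SimpleGraph.fromEdgeSet_adj] at hab hac hbc
  obtain ⟨⟨i, ki, g1, o1, e1⟩, -⟩ := hab
  obtain ⟨⟨j, kj, g2, o2, e2⟩, -⟩ := hbc
  obtain ⟨⟨l, kl, g3, o3, e3⟩, -⟩ := hac
  rw [Sym2.eq_swap] at e3
  obtain ⟨p1, q1, c1, f1, f1', s1⟩ := orient e1
  obtain ⟨p2, q2, c2, f2, f2', s2⟩ := orient e2
  obtain ⟨p3, q3, c3, f3, f3', s3⟩ := orient e3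
  by_cases hji : j = i ∧ l = i
  · obtain ⟨rfl, rfl⟩ := hji
    have h1 : q1 = p2 := ki.1 (by rw [f1', f2])
    have h2 : q2 = p3 := ki.1 (by rw [f2', f3])
    have h3 : q3 = p1 := ki.1 (by rw [f3', f1])
    subst h1 h2 h3
    have := template (d := D l) ⟨g1, o1, s1⟩ ⟨g2, o2, s2⟩ ⟨g3, o3, s3⟩
    rw [h l ki] at this
    exact Bool.false_ne_true this
  · exact ki.2 ⟨j, l, hji, p1, q1, p2, q2, p3, q3, c1, c2, c3, by rw [f1', f2], by rw [f2', f3],
      by rw [f3', f1]⟩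

lemma ES_not_free {φ : Fin t → VG → Fin n} {D : Fin t → GD} {i : Fin t} (hi : Kept φ i)
    (h : (SimpleGraph.fromEdgeSet (ES φ D)).CliqueFree 3) : (D i).2 (D i).1.1 (D i).1.2 = false := by
  by_contra hne
  rw [Bool.not_eq_false] at hne
  refine h {φ i VG.u, φ i (VG.v (D i).1.1), φ i (VG.w (D i).1.2)} (SimpleGraph.is3Clique_triple_iff.2 ?_)
  simp only [SimpleGraph.fromEdgeSet_adj]
  refine ⟨⟨⟨i, hi, GE.x _, rfl, rfl⟩, fun h => ?_⟩, ⟨⟨i, hi, GE.y _, rfl, rfl⟩, fun h => ?_⟩,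
    ⟨⟨i, hi, GE.z _ _, hne, rfl⟩, fun h => ?_⟩⟩
  · exact absurd (hi.1 h) (by simp)
  · exact absurd (hi.1 h) (by simp)
  · exact absurd (hi.1 h) (by simp)

lemma ES_agree {φ : Fin t → VG → Fin n} {D D' : Fin t → GD} {X : Finset (Sym2 (Fin n))}
    (h : ∀ i g, Kept φ i → edge (φ i) g ∈ X → (On (D i) g ↔ On (D' i) g)) :
    ∀ e ∈ X, (e ∈ ES φ D ↔ e ∈ ES φ D') := by
  intro e he
  constructor
  · rintro ⟨i, hi, g, hg, rfl⟩
    exact ⟨i, hi, g, (h i g hi he).1 hg, rfl⟩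
  · rintro ⟨i, hi, g, hg, rfl⟩
    exact ⟨i, hi, g, (h i g hi he).2 hg, rfl⟩

lemma ES_ncard (φ : Fin t → VG → Fin n) (D : Fin t → GD) : (ES φ D).ncard ≤ t * eG := by
  have h1 : ES φ D ⊆ Set.range (fun q : Fin t × GE => edge (φ q.1) q.2) := by
    rintro e ⟨i, _, g, _, rfl⟩
    exact ⟨(i, g), rfl⟩
  refine (Set.ncard_le_ncard h1 (Set.toFinite _)).trans ?_
  rw [← Nat.card_coe_set_eq]
  refine (Finite.card_range_le _).trans ?_
  rw [Nat.card_prod, Nat.card_fin, Nat.card_eq_fintype_card, card_GE]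

variable {J : Type}

section prod

variable (φ : Fin t → VG → Fin n) (X : J → Finset (Sym2 (Fin n))) (χ : J → Fin 3)

/-- kept and proper -/
def KP (i : Fin t) : Prop := Kept φ i ∧ Proper X χ (φ i)

noncomputable def mk (ζ : {i // ¬ KP φ X χ i} → Nof.GI) (x y : {i // KP φ X χ i} → Fin 512)
    (z : {i // KP φ X χ i} → Fin 512 → Fin 512 → Bool) (i : Fin t) : GD :=
  if h : KP φ X χ i then ((x ⟨i, h⟩, y ⟨i, h⟩), z ⟨i, h⟩) else (ζ ⟨i, h⟩).1

variable {φ X χ}

lemma mk_agree {ζ : {i // ¬ KP φ X χ i} → Nof.GI} {x y x' y' : {i // KP φ X χ i} → Fin 512}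
    {z z' : {i // KP φ X χ i} → Fin 512 → Fin 512 → Bool} {j : J}
    (hx : χ j ≠ 0 → x = x') (hy : χ j ≠ 1 → y = y') (hz : χ j ≠ 2 → z = z') :
    ∀ e ∈ X j, (e ∈ ES φ (mk φ X χ ζ x y z) ↔ e ∈ ES φ (mk φ X χ ζ x' y' z')) := by
  refine ES_agree ?_
  intro i g hi hg
  by_cases h : KP φ X χ i
  · have hns := h.2.2 j
    have hk : kind g ≠ χ j := fun hk => hns ⟨g, hk, hg⟩
    unfold mk
    rw [dif_pos h, dif_pos h]
    cases g with
    | x a => simp only [On]; rw [hx (fun h0 => hk h0.symm)]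
    | y a => simp only [On]; rw [hy (fun h0 => hk h0.symm)]
    | z a b => simp only [On]; rw [hz (fun h0 => hk h0.symm)]
  · unfold mk
    rw [dif_neg h, dif_neg h]

lemma prod_fix (F : J → Set (Sym2 (Fin n)) → Prop)
    (hdep : ∀ j x y, (∀ e ∈ X j, (e ∈ x ↔ e ∈ y)) → F j x → F j y)
    (hsound : ∀ D : Fin t → GD, (∀ j, F j (ES φ D)) → ∀ i, Kept φ i → (D i).2 (D i).1.1 (D i).1.2 = false)
    (ζ : {i // ¬ KP φ X χ i} → Nof.GI) :
    num (fun ω : {i // KP φ X χ i} → Nof.GI => ∀ j, F j (ES φ (mk φ X χ ζ (fun i => (ω i).1.1.1)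
      (fun i => (ω i).1.1.2) (fun i => (ω i).1.2)))) * 2 ^ num (KP φ X χ) ≤
      Nat.card ({i // KP φ X χ i} → Nof.GI) := by
  have key := Nof.mono_prod (ι := {i // KP φ X χ i})
    (fun x z => ∀ j, χ j = 1 → F j (ES φ (mk φ X χ ζ x (fun _ => 0) z)))
    (fun x y => ∀ j, χ j = 2 → F j (ES φ (mk φ X χ ζ x y (fun _ _ _ => false))))
    (fun y z => ∀ j, χ j = 0 → F j (ES φ (mk φ X χ ζ (fun _ => 0) y z))) ?_
  · have e1 : num (KP φ X χ) = Fintype.card {i // KP φ X χ i} := by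
      unfold num; rw [Nat.card_eq_fintype_card]
    rw [e1, Nat.card_eq_fintype_card]
    refine le_trans (Nat.mul_le_mul_right _ ?_) key
    rw [num_eq]
    refine Finset.card_le_card ?_
    intro ω hω
    simp only [mem_filter, mem_univ, true_and] at hω ⊢
    refine ⟨fun j hj => hdep j _ _ (mk_agree ?_ ?_ ?_) (hω j),
      fun j hj => hdep j _ _ (mk_agree ?_ ?_ ?_) (hω j),
      fun j hj => hdep j _ _ (mk_agree ?_ ?_ ?_) (hω j)⟩
    · exact fun _ => rfl
    · exact fun h => absurd hj h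
    · exact fun _ => rfl
    · exact fun _ => rfl
    · exact fun _ => rfl
    · exact fun h => absurd hj h
    · exact fun h => absurd hj h
    · exact fun _ => rfl
    · exact fun _ => rfl
  · intro x y z h1 h2 h3 b
    have := hsound (mk φ X χ ζ x y z) ?_ b.1 b.2.1
    · unfold mk at this
      rw [dif_pos b.2] at this
      exact this
    · intro j
      have hj : χ j = 0 ∨ χ j = 1 ∨ χ j = 2 := by
        generalize χ j = a
        revert a; decide
      rcases hj with hj | hj | hj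
      · refine hdep j _ _ (mk_agree ?_ ?_ ?_) (h3 j hj)
        · exact fun h => absurd hj h
        · exact fun _ => rfl
        · exact fun _ => rfl
      · refine hdep j _ _ (mk_agree ?_ ?_ ?_) (h1 j hj)
        · exact fun _ => rfl
        · exact fun h => absurd hj h
        · exact fun _ => rfl
      · refine hdep j _ _ (mk_agree ?_ ?_ ?_) (h2 j hj)
        · exact fun _ => rfl
        · exact fun _ => rfl
        · exact fun h => absurd hj h

theorem prod_bound (F : J → Set (Sym2 (Fin n)) → Prop)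
    (hdep : ∀ j x y, (∀ e ∈ X j, (e ∈ x ↔ e ∈ y)) → F j x → F j y)
    (hsound : ∀ D : Fin t → GD, (∀ j, F j (ES φ D)) → ∀ i, Kept φ i → (D i).2 (D i).1.1 (D i).1.2 = false) :
    num (fun ω : Fin t → Nof.GI => ∀ j, F j (ES φ (fun i => (ω i).1))) * 2 ^ num (KP φ X χ) ≤
      Nat.card (Fin t → Nof.GI) := by
  have h1 : num (fun ω : Fin t → Nof.GI => ∀ j, F j (ES φ (fun i => (ω i).1))) ≤
      num (fun q : ({i // ¬ KP φ X χ i} → Nof.GI) × ({i // KP φ X χ i} → Nof.GI) =>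
        ∀ j, F j (ES φ (mk φ X χ q.1 (fun i => (q.2 i).1.1.1) (fun i => (q.2 i).1.1.2)
          (fun i => (q.2 i).1.2)))) := by
    refine num_le_of_inj (fun ω => (fun i => ω i.1, fun i => ω i.1)) ?_ ?_
    · intro ω hω j
      have : mk φ X χ (fun i => ω i.1) (fun i => (ω i.1).1.1.1) (fun i => (ω i.1).1.1.2)
          (fun i => (ω i.1).1.2) = fun i => (ω i).1 := by
        funext i
        unfold mk
        split_ifs <;> rfl
      simp only
      rw [this]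
      exact hω j
    · intro a b _ _ h
      funext i
      simp only [Prod.mk.injEq] at h
      by_cases hi : KP φ X χ i
      · exact congrFun h.2 ⟨i, hi⟩
      · exact congrFun h.1 ⟨i, hi⟩
  have h2 := num_sum (fun (ζ : {i // ¬ KP φ X χ i} → Nof.GI) (ω : {i // KP φ X χ i} → Nof.GI) =>
    ∀ j, F j (ES φ (mk φ X χ ζ (fun i => (ω i).1.1.1) (fun i => (ω i).1.1.2) (fun i => (ω i).1.2))))
  calc num (fun ω : Fin t → Nof.GI => ∀ j, F j (ES φ (fun i => (ω i).1))) * 2 ^ num (KP φ X χ)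
      ≤ (∑ ζ : {i // ¬ KP φ X χ i} → Nof.GI, num (fun ω : {i // KP φ X χ i} → Nof.GI =>
          ∀ j, F j (ES φ (mk φ X χ ζ (fun i => (ω i).1.1.1) (fun i => (ω i).1.1.2)
            (fun i => (ω i).1.2))))) * 2 ^ num (KP φ X χ) := by
        refine Nat.mul_le_mul_right _ (h1.trans (le_of_eq ?_))
        rw [← h2]
    _ ≤ ∑ _ζ : {i // ¬ KP φ X χ i} → Nof.GI, Nat.card ({i // KP φ X χ i} → Nof.GI) := by
        rw [Finset.sum_mul]
        exact Finset.sum_le_sum (fun ζ _ => prod_fix F hdep hsound ζ)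
    _ = Nat.card (Fin t → Nof.GI) := by
        rw [Finset.sum_const, smul_eq_mul, Finset.card_univ, ← Nat.card_eq_fintype_card,
          ← Nat.card_prod]
        exact Nat.card_congr ((Equiv.prodComm _ _).trans
          (Equiv.piEquivPiSubtypeProd (KP φ X χ) (fun _ => Nof.GI)).symm)

end prod

end Pool.Agent.Lib_helper26.TriRead
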