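import Mathlib
import Pool.Agent.Lib_helper26.TriRead.Graph
import Pool.Agent.Lib_helper26.TriRead.Decomp

namespace Pool.Agent.Lib_helper26.TriRead

open Finset Classical

/-- index set of the union bound -/
abbrev Idx (K : ℕ) (W V : Type) := Σ k : Fin (K + 1), W × (Fin k → V × V × V) × V

lemma card_Idx (K : ℕ) (W V : Type) [Fintype W] [Fintype V] [Nonempty V] :
    Fintype.card (Idx K W V) ≤ (K + 1) * Fintype.card W * Fintype.card V ^ (3 * K + 1) := by
  rw [Fintype.card_sigma]
  have hV : 0 < Fintype.card V := Fintype.card_pos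
  calc ∑ k : Fin (K + 1), Fintype.card (W × (Fin k → V × V × V) × V)
      ≤ ∑ _k : Fin (K + 1), Fintype.card W * Fintype.card V ^ (3 * K + 1) := by
        refine Finset.sum_le_sum (fun k _ => ?_)
        simp only [Fintype.card_prod, Fintype.card_fun, Fintype.card_fin]
        refine Nat.mul_le_mul_left _ ?_
        have : (Fintype.card V * (Fintype.card V * Fintype.card V)) ^ (k : ℕ) * Fintype.card V =
            Fintype.card V ^ (3 * (k : ℕ) + 1) := by
          rw [pow_succ, pow_mul]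
          ring
        rw [this]
        exact Nat.pow_le_pow_right hV (by have := k.2; omega)
    _ = (K + 1) * Fintype.card W * Fintype.card V ^ (3 * K + 1) := by
        rw [Finset.sum_const, smul_eq_mul, Finset.card_univ, Fintype.card_fin]
        ring

section core

variable {n : ℕ} {W V : Type} [Fintype W] [Fintype V]

/-- the tuple of an index is a valid product -/
def Valid {K : ℕ} (P : W → Prog (Sym2 (Fin n)) V) (r m : ℕ) (q : Idx K W V) : Prop :=
  (∀ y, (∀ j, (P q.2.1).fac q.2.2.1 q.2.2.2 j y) → (P q.2.1).Accepts y) ∧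
    (∀ j, ((P q.2.1).facX q.2.2.1 q.2.2.2 j).card ≤ m) ∧
    ∑ e, num (fun j => e ∈ (P q.2.1).facX q.2.2.1 q.2.2.2 j) ≤ r * n ^ 2

theorem core {m r b k M K t τ : ℕ} (P : W → Prog (Sym2 (Fin n)) V) (hr1 : 0 < r)
    (hr : ∀ w, ∃ R : Sym2 (Fin n) → ℕ, (P w).ReadBound R ∧ ∑ e, R e ≤ r * n ^ 2)
    (hb : ∀ w, (P w).ChunkAtMost b)
    (hP : ∀ G : SimpleGraph (Fin n), G.edgeSet.ncard ≤ m →
      ((∃ w, (P w).Accepts G.edgeSet) ↔ G.CliqueFree 3))
    (hm : t * eG ≤ m)
    (hk : 0 < k) (hM : 2 * (M + b) * k ^ 2 ≤ n ^ 2)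
    (hMK : ∀ k', k' * (M + 1) ≤ r * n ^ 2 → k' ≤ K)
    (hK : 4 * ((K + 1) * 512 ^ 4) ≤ k ^ 3)
    (ht : t = 8 * (4 * 3 ^ (8 * (r * eG))) * τ)
    (h1 : 16 * (4 * 3 ^ (8 * (r * eG))) * (cV ^ 6 * (t ^ 2 + 3 * t * n)) ≤ n ^ 3)
    (h2 : 16 * (4 * 3 ^ (8 * (r * eG))) * cV ^ 2 ≤ n) :
    2 ^ τ < 4 * Fintype.card (Idx K W V) := by
  obtain ⟨Γ, hΓ⟩ : ∃ Γ, Γ = 4 * 3 ^ (8 * (r * eG)) := ⟨_, rfl⟩
  rw [← hΓ] at ht h1 h2
  have hΓ0 : 0 < Γ := by rw [hΓ]; positivity
  have hn4 : 4 * cV ^ 2 ≤ n := by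
    refine le_trans ?_ h2
    have : 1 ≤ Γ := hΓ0
    nlinarith [Nat.zero_le (cV ^ 2)]
  have hn0 : 0 < n := lt_of_lt_of_le (by norm_num [cV]) hn4
  by_contra hcon
  push Not at hcon
  set X : ∀ q : Idx K W V, Option (Fin q.1) → Finset (Sym2 (Fin n)) :=
    fun q j => (P q.2.1).facX q.2.2.1 q.2.2.2 j with hX
  -- the colouring of a valid index
  have hχ : ∀ q : Idx K W V, ∃ χ : Option (Fin q.1) → Fin 3, Valid P r (M + b) q →
      n ^ cV ≤ num (fun p : VG → Fin n => Proper (X q) χ p) * Γ := by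
    intro q
    by_cases hq : Valid P r (M + b) q
    · obtain ⟨χ, hχ⟩ := exists_chi (r := r) (k := k) hn4 hk hr1 (X q) (fun j => by
        have := hq.2.1 j
        calc 2 * (X q j).card * k ^ 2 ≤ 2 * (M + b) * k ^ 2 := by gcongr
          _ ≤ n ^ 2 := hM) (by
        refine le_trans ?_ hK
        have : Fintype.card (Option (Fin q.1)) ≤ K + 1 := by
          rw [Fintype.card_option, Fintype.card_fin]
          have := q.1.2
          omega
        gcongr) hq.2.2
      exact ⟨χ, fun _ => by rw [hΓ]; exact hχ⟩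
    · exact ⟨fun _ => 0, fun h => absurd h hq⟩
  choose χ hχ using hχ
  set N := (n ^ cV) ^ t with hN
  have hN0 : 0 < N := by positivity
  -- a good placement
  have hex : ∃ φ : Fin t → VG → Fin n, num (fun i => ¬ Kept φ i) ≤ 2 * τ ∧
      ∀ q, Valid P r (M + b) q → 4 * τ ≤ num (fun i => Proper (X q) (χ q) (φ i)) := by
    by_contra hno
    push Not at hno
    set A := num (fun φ : Fin t → VG → Fin n => 2 * τ < num (fun i => ¬ Kept φ i)) with hA
    have hA1 : 2 * A ≤ N := good_half hn0 hΓ0 ht h1 h2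
    set B : Idx K W V → ℕ := fun q => num (fun φ : Fin t → VG → Fin n => Valid P r (M + b) q ∧
      num (fun i => Proper (X q) (χ q) (φ i)) < 4 * τ) with hB
    have hB1 : ∀ q, B q * 2 ^ τ ≤ N := by
      intro q
      by_cases hq : Valid P r (M + b) q
      · refine le_trans (Nat.mul_le_mul_right _ (num_mono (fun φ h => h.2)))
          (few_count hΓ0 ht (Proper (X q) (χ q)) (hχ q hq))
      · have : B q = 0 := by
          simp only [hB]
          unfold num
          rw [Nat.card_eq_zero]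
          left
          exact ⟨fun a => hq a.2.1⟩
        rw [this]; simp
    have hNAB : N ≤ A + ∑ q, B q := by
      have e0 : N = num (fun _ : Fin t → VG → Fin n => True) := by
        rw [num_true, Phi_card]
      rw [e0]
      refine le_trans (num_or (Q1 := fun φ : Fin t → VG → Fin n => 2 * τ < num (fun i => ¬ Kept φ i))
        (Q2 := fun φ => ∃ q, Valid P r (M + b) q ∧ num (fun i => Proper (X q) (χ q) (φ i)) < 4 * τ)
        ?_) (Nat.add_le_add_left (num_union _ (fun _ h => h)) _)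
      intro φ _
      by_cases h : num (fun i => ¬ Kept φ i) ≤ 2 * τ
      · exact Or.inr (hno φ h)
      · exact Or.inl (not_le.1 h)
    have hB2 : (∑ q, B q) * 2 ^ τ ≤ Fintype.card (Idx K W V) * N := by
      rw [Finset.sum_mul]
      refine (Finset.sum_le_sum (fun q _ => hB1 q)).trans ?_
      rw [Finset.sum_const, smul_eq_mul, Finset.card_univ]
    have hB3 : 4 * (∑ q, B q) ≤ N := by
      have h2τ : 0 < 2 ^ τ := by positivity
      refine Nat.le_of_mul_le_mul_right (c := 2 ^ τ) ?_ h2τ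
      calc 4 * (∑ q, B q) * 2 ^ τ = 4 * ((∑ q, B q) * 2 ^ τ) := by ring
        _ ≤ 4 * (Fintype.card (Idx K W V) * N) := Nat.mul_le_mul_left _ hB2
        _ = (4 * Fintype.card (Idx K W V)) * N := by ring
        _ ≤ 2 ^ τ * N := Nat.mul_le_mul_right _ hcon
        _ = N * 2 ^ τ := by ring
    omega
  obtain ⟨φ, hφ1, hφ2⟩ := hex
  -- the sets of inputs
  set F : ∀ q : Idx K W V, Option (Fin q.1) → Set (Sym2 (Fin n)) → Prop :=
    fun q j => (P q.2.1).fac q.2.2.1 q.2.2.2 j with hF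
  have hcov : ∀ ω : Fin t → Nof.GI, ∃ q : Idx K W V, Valid P r (M + b) q ∧
      ∀ j, F q j (ES φ (fun i => (ω i).1)) := by
    intro ω
    have hfree := ES_free (φ := φ) (D := fun i => (ω i).1) (fun i _ => (ω i).2)
    obtain ⟨w, hw⟩ := (hP _ (by rw [edgeSet_ES]; exact (ES_ncard _ _).trans hm)).2 hfree
    rw [edgeSet_ES] at hw
    obtain ⟨R, hR, hRs⟩ := hr w
    obtain ⟨k', hk', ℓ, z, g1, g2, g3, g4⟩ := (P w).products (M := M) hR (hb w) _ hw
    have hk'K := hMK k' (hk'.trans hRs)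
    refine ⟨⟨⟨k', by omega⟩, w, ℓ, z⟩, ⟨g2, g3, (Finset.sum_le_sum (fun e _ => ?_)).trans hRs⟩, g1⟩
    have h4 : num (fun j => e ∈ (P w).facX ℓ z j) ≤ R e := by
      rw [num_eq]
      convert g4 e
    exact h4
  have hcount : ∀ q : Idx K W V, num (fun ω : Fin t → Nof.GI => Valid P r (M + b) q ∧
      ∀ j, F q j (ES φ (fun i => (ω i).1))) * 2 ^ (2 * τ) ≤ Nat.card (Fin t → Nof.GI) := by
    intro q
    by_cases hq : Valid P r (M + b) q
    · have hKP : 2 * τ ≤ num (KP φ (X q) (χ q)) := by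
        have h3 : num (fun i => Proper (X q) (χ q) (φ i)) ≤ num (KP φ (X q) (χ q)) +
            num (fun i => ¬ Kept φ i) := by
          refine num_or (fun i hi => ?_)
          by_cases hki : Kept φ i
          · exact Or.inl ⟨hki, hi⟩
          · exact Or.inr hki
        have := hφ2 q hq
        omega
      have hpb := prod_bound (φ := φ) (X := X q) (χ := χ q) (F q)
        (fun j x y hxy h => (P q.2.1).fac_dep _ _ j x y hxy h) (by
          intro D hD i hi
          have hacc := hq.1 _ hD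
          rw [← edgeSet_ES] at hacc
          exact ES_not_free hi ((hP _ (by rw [edgeSet_ES]; exact (ES_ncard _ _).trans hm)).1 ⟨_, hacc⟩))
      refine le_trans (Nat.mul_le_mul (num_mono (fun ω h => h.2)) (Nat.pow_le_pow_right (by norm_num) hKP)) hpb
    · have : num (fun ω : Fin t → Nof.GI => Valid P r (M + b) q ∧
          ∀ j, F q j (ES φ (fun i => (ω i).1))) = 0 := by
        unfold num
        rw [Nat.card_eq_zero]
        left
        exact ⟨fun a => hq a.2.1⟩
      rw [this]; simp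
  have hpos : 0 < Nat.card (Fin t → Nof.GI) := by
    have : Nonempty Nof.GI := ⟨⟨((0, 0), fun _ _ => false), rfl⟩⟩
    exact Nat.card_pos
  have hall : Nat.card (Fin t → Nof.GI) * 2 ^ (2 * τ) ≤
      Fintype.card (Idx K W V) * Nat.card (Fin t → Nof.GI) := by
    have e0 : Nat.card (Fin t → Nof.GI) = num (fun _ : Fin t → Nof.GI => True) := num_true.symm
    have e1 : num (fun _ : Fin t → Nof.GI => True) ≤ ∑ q : Idx K W V,
        num (fun ω : Fin t → Nof.GI => Valid P r (M + b) q ∧ ∀ j, F q j (ES φ (fun i => (ω i).1))) :=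
      num_union _ (fun ω _ => hcov ω)
    calc Nat.card (Fin t → Nof.GI) * 2 ^ (2 * τ) ≤ (∑ q : Idx K W V,
        num (fun ω : Fin t → Nof.GI => Valid P r (M + b) q ∧
          ∀ j, F q j (ES φ (fun i => (ω i).1)))) * 2 ^ (2 * τ) := by
          refine Nat.mul_le_mul_right _ ?_
          rw [e0]; exact e1
      _ ≤ Fintype.card (Idx K W V) * Nat.card (Fin t → Nof.GI) := by
          rw [Finset.sum_mul]
          refine (Finset.sum_le_sum (fun q _ => hcount q)).trans ?_
          rw [Finset.sum_const, smul_eq_mul, Finset.card_univ]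
  have hfin : 2 ^ (2 * τ) ≤ Fintype.card (Idx K W V) := by
    refine Nat.le_of_mul_le_mul_right (c := Nat.card (Fin t → Nof.GI)) ?_ hpos
    rw [mul_comm]; exact hall
  have h2τ : 2 ^ τ ≤ 2 ^ (2 * τ) := Nat.pow_le_pow_right (by norm_num) (by omega)
  have hpos2 : 0 < 2 ^ τ := by positivity
  omega

end core

end Pool.Agent.Lib_helper26.TriRead
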