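import Mathlib
import Pool.Agent.Lib_helper26.TriRead.Final

namespace Pool.Agent.Lib_helper26.TriRead

open Finset Classical

/-- the constant -/
def cC (E v : ℕ) : ℕ := (768 * 16 * 8 * 1600 * 512 ^ 8 * v ^ 6) * 8 * E ^ 2

lemma numeric (E v r : ℕ) (hv : 1 ≤ v) (hr : 1 ≤ r) :
    768 * (4 * E ^ r) ^ 2 * v ^ 6 * (4 * (4 * (20 * r * 512 ^ 4) ^ 2 * r) + 4) ≤ cC E v ^ r := by
  have h1 : r ^ 3 ≤ 8 ^ r := by
    calc r ^ 3 ≤ (2 ^ r) ^ 3 := Nat.pow_le_pow_left Nat.lt_two_pow_self.le 3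
      _ = 8 ^ r := by rw [← pow_mul, mul_comm, pow_mul]; norm_num
  have h2 : 1 ≤ r ^ 3 := Nat.one_le_pow _ _ hr
  have hv6 : 1 ≤ v ^ 6 := Nat.one_le_pow _ _ hv
  have h3 : 4 * (4 * (20 * r * 512 ^ 4) ^ 2 * r) + 4 ≤ 8 * 1600 * 512 ^ 8 * r ^ 3 := by
    have : 4 * (4 * (20 * r * 512 ^ 4) ^ 2 * r) = 6400 * 512 ^ 8 * r ^ 3 := by ring
    rw [this]
    nlinarith
  set c0 : ℕ := 768 * 16 * 8 * 1600 * 512 ^ 8 * v ^ 6 with hc0
  have hc01 : 1 ≤ c0 := by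
    rw [hc0]
    exact Nat.one_le_iff_ne_zero.2 (by positivity)
  calc 768 * (4 * E ^ r) ^ 2 * v ^ 6 * (4 * (4 * (20 * r * 512 ^ 4) ^ 2 * r) + 4)
      ≤ 768 * (4 * E ^ r) ^ 2 * v ^ 6 * (8 * 1600 * 512 ^ 8 * r ^ 3) := Nat.mul_le_mul_left _ h3
    _ = c0 * r ^ 3 * (E ^ 2) ^ r := by
        rw [hc0, ← pow_mul, mul_pow, ← pow_mul, mul_comm r 2]
        ring
    _ ≤ c0 ^ r * 8 ^ r * (E ^ 2) ^ r := by
        have : c0 ≤ c0 ^ r := Nat.le_self_pow (by omega) c0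
        gcongr
    _ = cC E v ^ r := by
        have e1 : cC E v = c0 * 8 * E ^ 2 := rfl
        rw [e1, mul_pow (c0 * 8), mul_pow c0]

lemma numeric2 (E v r : ℕ) (hv : 1 ≤ v) (hr : 1 ≤ r) :
    (16 * (4 * E ^ r) * v ^ 2) ^ 2 ≤ cC E v ^ r := by
  refine le_trans ?_ (numeric E v r hv hr)
  have hv4 : v ^ 4 ≤ v ^ 6 := Nat.pow_le_pow_right hv (by norm_num)
  calc (16 * (4 * E ^ r) * v ^ 2) ^ 2 = 256 * (4 * E ^ r) ^ 2 * v ^ 4 * 1 := by ring
    _ ≤ 768 * (4 * E ^ r) ^ 2 * v ^ 6 * (4 * (4 * (20 * r * 512 ^ 4) ^ 2 * r) + 4) := by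
        gcongr
        · norm_num
        · omega

lemma cond_one {n Γ v τ : ℕ} (hv : 1 ≤ v) (hΓ : 1 ≤ Γ) (hτ : (768 * Γ ^ 2 * v ^ 6 * τ) ^ 2 ≤ n ^ 3) :
    16 * Γ * (v ^ 6 * ((8 * Γ * τ) ^ 2 + 3 * (8 * Γ * τ) * n)) ≤ n ^ 3 := by
  have hv6 : 1 ≤ v ^ 6 := Nat.one_le_pow _ _ hv
  set s := 768 * Γ ^ 2 * v ^ 6 * τ with hs
  rcases Nat.eq_zero_or_pos n with h0 | h0
  · subst h0
    have hs0 : s = 0 := by
      have : s ^ 2 ≤ 0 := by simpa using hτ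
      exact pow_eq_zero_iff (n := 2) (by norm_num) |>.1 (Nat.le_zero.1 this)
    have hτ0 : τ = 0 := by
      by_contra hne
      have : 0 < s := by rw [hs]; positivity
      omega
    subst hτ0
    simp
  have hsn : s ≤ n ^ 2 := by
    by_contra hlt
    push Not at hlt
    have h1 : (n ^ 2) ^ 2 < s ^ 2 := Nat.pow_lt_pow_left hlt (by norm_num)
    have h2 : n ^ 3 ≤ (n ^ 2) ^ 2 := by
      rw [← pow_mul]; exact Nat.pow_le_pow_right h0 (by norm_num)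
    omega
  have h1 : 2 * (16 * Γ * (v ^ 6 * (8 * Γ * τ) ^ 2)) ≤ s ^ 2 := by
    have e1 : 2 * (16 * Γ * (v ^ 6 * (8 * Γ * τ) ^ 2)) = 2048 * (Γ ^ 3 * v ^ 6 * τ ^ 2) := by ring
    have e2 : s ^ 2 = 589824 * (Γ ^ 4 * v ^ 12 * τ ^ 2) := by rw [hs]; ring
    rw [e1, e2]
    have e3 : Γ ^ 3 * v ^ 6 * τ ^ 2 ≤ Γ ^ 4 * v ^ 12 * τ ^ 2 := by
      gcongr <;> first | exact hΓ | exact hv | norm_num
    omega
  have h2 : 2 * (16 * Γ * (v ^ 6 * (3 * (8 * Γ * τ) * n))) = s * n := by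
    rw [hs]; ring
  have h3 : s * n ≤ n ^ 3 := by
    calc s * n ≤ n ^ 2 * n := Nat.mul_le_mul_right _ hsn
      _ = n ^ 3 := by ring
  have h4 : 16 * Γ * (v ^ 6 * ((8 * Γ * τ) ^ 2 + 3 * (8 * Γ * τ) * n)) =
      16 * Γ * (v ^ 6 * (8 * Γ * τ) ^ 2) + 16 * Γ * (v ^ 6 * (3 * (8 * Γ * τ) * n)) := by ring
  rw [h4]
  omega

theorem core' : ∃ E v g : ℕ, 1 ≤ E ∧ 1 ≤ v ∧ g ≤ v ^ 6 ∧
    ∀ (n m r b k M K t τ : ℕ) (W V : Type) [Fintype W] [Fintype V]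
    (P : W → Prog (Sym2 (Fin n)) V), 0 < r →
    (∀ w, ∃ R : Sym2 (Fin n) → ℕ, (P w).ReadBound R ∧ ∑ e, R e ≤ r * n ^ 2) →
    (∀ w, (P w).ChunkAtMost b) →
    (∀ G : SimpleGraph (Fin n), G.edgeSet.ncard ≤ m →
      ((∃ w, (P w).Accepts G.edgeSet) ↔ G.CliqueFree 3)) → t * g ≤ m →
    0 < k → 2 * (M + b) * k ^ 2 ≤ n ^ 2 →
    (∀ k', k' * (M + 1) ≤ r * n ^ 2 → k' ≤ K) →
    4 * ((K + 1) * 512 ^ 4) ≤ k ^ 3 → t = 8 * (4 * E ^ r) * τ →
    16 * (4 * E ^ r) * (v ^ 6 * (t ^ 2 + 3 * t * n)) ≤ n ^ 3 →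
    16 * (4 * E ^ r) * v ^ 2 ≤ n → 2 ^ τ < 4 * Fintype.card (Idx K W V) := by
  refine ⟨3 ^ (8 * eG), cV, eG, Nat.one_le_pow _ _ (by norm_num), by norm_num [cV],
    by norm_num [cV, eG], ?_⟩
  intro n m r b k M K t τ W V _ _ P hr1 hr hb hP hm hk hM hMK hK ht h1 h2
  have e1 : (3 ^ (8 * eG)) ^ r = 3 ^ (8 * (r * eG)) := by
    rw [← pow_mul]
    congr 1
    ring
  rw [e1] at ht h1 h2
  exact core P hr1 hr hb hP hm hk hM hMK hK ht h1 h2

theorem main : ∃ C : ℕ, 0 < C ∧ ∀ n m r b : ℕ, m ^ 2 ≤ n ^ 3 → 1 ≤ r → C * r ^ 2 * b ≤ n ^ 2 →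
    ∀ (W V : Type) [Fintype W] [Fintype V] (P : W → Prog (Sym2 (Fin n)) V),
      (∀ w, ∃ R : Sym2 (Fin n) → ℕ, (P w).ReadBound R ∧ ∑ e, R e ≤ r * n ^ 2) →
      (∀ w, (P w).ChunkAtMost b) →
      (∀ G : SimpleGraph (Fin n), G.edgeSet.ncard ≤ m →
        ((∃ w, (P w).Accepts G.edgeSet) ↔ G.CliqueFree 3)) →
      (m : ℝ) ≤ (C : ℝ) ^ r *
        (Real.logb 2 (Fintype.card W) + Real.logb 2 (Fintype.card V) + 1) := by
  obtain ⟨E, v, g, hE1, hv1, hg, hcore0⟩ := core'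
  refine ⟨cC E v, ?_, ?_⟩
  · unfold cC; positivity
  intro n m r b hmn hr hb W V _ _ P hread hchunk hP
  -- nonempty
  obtain ⟨w0, -⟩ := (hP ⊥ (by simp)).2 (SimpleGraph.cliqueFree_bot (by norm_num))
  have hW : Nonempty W := ⟨w0⟩
  have hV : Nonempty V := ⟨(P w0).start⟩
  have hWc : 0 < Fintype.card W := Fintype.card_pos
  have hVc : 0 < Fintype.card V := Fintype.card_pos
  have hWl : 0 ≤ Real.logb 2 (Fintype.card W) :=
    Real.logb_nonneg (by norm_num) (by exact_mod_cast hWc)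
  have hVl : 0 ≤ Real.logb 2 (Fintype.card V) :=
    Real.logb_nonneg (by norm_num) (by exact_mod_cast hVc)
  set L := Real.logb 2 (Fintype.card W) + Real.logb 2 (Fintype.card V) + 1 with hL
  have hL1 : 1 ≤ L := by linarith
  obtain ⟨Γ, hΓ⟩ : ∃ Γ, Γ = 4 * E ^ r := ⟨_, rfl⟩
  have hΓ1 : 1 ≤ Γ := by rw [hΓ]; have := Nat.one_le_pow r E hE1; omega
  by_cases hsmall : 16 * Γ * v ^ 2 ≤ n
  swap
  · -- small n
    push Not at hsmall
    have hmn2 : m ≤ n ^ 2 := by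
      rcases Nat.eq_zero_or_pos n with h0 | h0
      · subst h0
        have : m ^ 2 ≤ 0 := by simpa using hmn
        have : m = 0 := pow_eq_zero_iff (n := 2) (by norm_num) |>.1 (Nat.le_zero.1 this)
        rw [this]; exact Nat.zero_le _
      · by_contra hlt
        push Not at hlt
        have h1 : (n ^ 2) ^ 2 < m ^ 2 := Nat.pow_lt_pow_left hlt (by norm_num)
        have h2 : n ^ 3 ≤ (n ^ 2) ^ 2 := by
          rw [← pow_mul]; exact Nat.pow_le_pow_right h0 (by norm_num)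
        omega
    have h2 : m ≤ cC E v ^ r := by
      have h4 := numeric2 E v r hv1 hr
      rw [← hΓ] at h4
      exact hmn2.trans ((Nat.pow_le_pow_left hsmall.le 2).trans h4)
    have h3 : (m : ℝ) ≤ (cC E v : ℝ) ^ r := by exact_mod_cast h2
    calc (m : ℝ) ≤ (cC E v : ℝ) ^ r * 1 := by rw [mul_one]; exact h3
      _ ≤ (cC E v : ℝ) ^ r * L := mul_le_mul_of_nonneg_left hL1 (by positivity)
  · obtain ⟨k, hk⟩ : ∃ k, k = 20 * r * 512 ^ 4 := ⟨_, rfl⟩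
    have hk0 : 0 < k := by rw [hk]; positivity
    obtain ⟨K, hK⟩ : ∃ K, K = 4 * k ^ 2 * r := ⟨_, rfl⟩
    obtain ⟨M, hM⟩ : ∃ M, M = n ^ 2 / (4 * k ^ 2) := ⟨_, rfl⟩
    obtain ⟨D, hD⟩ : ∃ D, D = 768 * Γ ^ 2 * v ^ 6 := ⟨_, rfl⟩
    have hD0 : 0 < D := by rw [hD]; positivity
    obtain ⟨τ, hτ⟩ : ∃ τ, τ = m / D := ⟨_, rfl⟩
    have hτ1 : D * τ ≤ m := by rw [hτ]; exact Nat.mul_div_le _ _
    have hτ2 : m ≤ D * (τ + 1) := by
      rw [hτ]
      exact (Nat.lt_mul_div_succ m hD0).le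
    have hn0 : 0 < n := by
      have : 0 < 16 * Γ * v ^ 2 := by positivity
      omega
    have hK1 : 1 ≤ K := by
      rw [hK]
      have : 0 < 4 * k ^ 2 * r := by positivity
      omega
    have c1 : 2 * (M + b) * k ^ 2 ≤ n ^ 2 := by
      have e1 : M * (4 * k ^ 2) ≤ n ^ 2 := by rw [hM]; exact Nat.div_mul_le_self _ _
      have e2 : 4 * b * k ^ 2 ≤ n ^ 2 := by
        refine le_trans ?_ hb
        have e3 : 4 * b * k ^ 2 = (1600 * 512 ^ 8) * (r ^ 2 * b) := by rw [hk]; ring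
        rw [e3, mul_assoc (cC E v)]
        refine Nat.mul_le_mul_right _ ?_
        have hv6 : 1 ≤ v ^ 6 := Nat.one_le_pow _ _ hv1
        have hE2 : 1 ≤ E ^ 2 := Nat.one_le_pow _ _ hE1
        unfold cC
        calc 1600 * 512 ^ 8 = (1 * 1600 * 512 ^ 8 * 1) * 1 * 1 := by ring
          _ ≤ (768 * 16 * 8 * 1600 * 512 ^ 8 * v ^ 6) * 8 * E ^ 2 := by
            gcongr <;> norm_num
      nlinarith
    have c2 : ∀ k', k' * (M + 1) ≤ r * n ^ 2 → k' ≤ K := by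
      intro k' hk'
      have e1 : n ^ 2 ≤ (M + 1) * (4 * k ^ 2) := by
        have : n ^ 2 < (n ^ 2 / (4 * k ^ 2) + 1) * (4 * k ^ 2) := by
          have h4 : 0 < 4 * k ^ 2 := by positivity
          have := Nat.lt_succ_self (n ^ 2 / (4 * k ^ 2))
          rw [Nat.div_lt_iff_lt_mul h4] at this
          exact this
        rw [hM]; exact this.le
      have hn2 : 0 < n ^ 2 := by positivity
      refine Nat.le_of_mul_le_mul_right (c := n ^ 2) ?_ hn2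
      calc k' * n ^ 2 ≤ k' * ((M + 1) * (4 * k ^ 2)) := Nat.mul_le_mul_left _ e1
        _ = (k' * (M + 1)) * (4 * k ^ 2) := by ring
        _ ≤ (r * n ^ 2) * (4 * k ^ 2) := Nat.mul_le_mul_right _ hk'
        _ = K * n ^ 2 := by rw [hK]; ring
    have c3 : 4 * ((K + 1) * 512 ^ 4) ≤ k ^ 3 := by
      have e1 : k ^ 3 = 4 * ((5 * (k ^ 2 * r)) * 512 ^ 4) := by
        calc k ^ 3 = k * k ^ 2 := by ring
          _ = (20 * r * 512 ^ 4) * k ^ 2 := by rw [← hk]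
          _ = 4 * ((5 * (k ^ 2 * r)) * 512 ^ 4) := by ring
      rw [e1]
      have e2 : K + 1 ≤ 5 * (k ^ 2 * r) := by
        have : 0 < k ^ 2 * r := by positivity
        rw [hK, mul_assoc]
        omega
      gcongr
    have c4 : 8 * Γ * τ * g ≤ m := by
      refine le_trans ?_ hτ1
      rw [hD]
      calc 8 * Γ * τ * g ≤ 8 * Γ * τ * v ^ 6 := Nat.mul_le_mul_left _ hg
        _ = (8 * Γ * 1) * v ^ 6 * τ := by ring
        _ ≤ (768 * Γ * Γ) * v ^ 6 * τ := by gcongr; norm_num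
        _ = 768 * Γ ^ 2 * v ^ 6 * τ := by ring
    have hcore := hcore0 n m r b k M K (8 * Γ * τ) τ W V P hr
      hread hchunk hP c4 hk0 c1 c2 c3 (by rw [hΓ]) (by
        rw [← hΓ]
        refine cond_one hv1 hΓ1 ?_
        rw [← hD]
        exact (Nat.pow_le_pow_left hτ1 2).trans hmn) (by rw [← hΓ]; exact hsmall)
    have hidx := card_Idx K W V
    have h5 : 2 ^ τ < 4 * ((K + 1) * Fintype.card W * Fintype.card V ^ (3 * K + 1)) :=
      lt_of_lt_of_le hcore (Nat.mul_le_mul_left _ hidx)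
    have h6 : (τ : ℝ) ≤ 2 + K + Real.logb 2 (Fintype.card W) + (3 * K + 1) * Real.logb 2 (Fintype.card V) := by
      have h7 : ((2 : ℝ)) ^ τ ≤ 4 * ((K + 1) * Fintype.card W * Fintype.card V ^ (3 * K + 1)) := by
        exact_mod_cast h5.le
      have h8 := Real.logb_le_logb_of_le (b := 2) (by norm_num) (by positivity) h7
      have hWr : (0 : ℝ) < Fintype.card W := by exact_mod_cast hWc
      have hVr : (0 : ℝ) < Fintype.card V := by exact_mod_cast hVc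
      have hKr : (0 : ℝ) < (K : ℝ) + 1 := by positivity
      rw [Real.logb_pow, Real.logb_self_eq_one (by norm_num), mul_one,
        Real.logb_mul (by norm_num) (by positivity), Real.logb_mul (by positivity) (by positivity),
        Real.logb_mul (by positivity) (by positivity), Real.logb_pow] at h8
      have h9 : Real.logb 2 4 = 2 := by
        rw [show (4 : ℝ) = 2 ^ (2 : ℕ) by norm_num, Real.logb_pow, Real.logb_self_eq_one (by norm_num)]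
        norm_num
      have h10 : Real.logb 2 ((K : ℝ) + 1) ≤ K := by
        rw [Real.logb_le_iff_le_rpow (by norm_num) hKr, Real.rpow_natCast]
        have : K + 1 ≤ 2 ^ K := Nat.lt_two_pow_self
        exact_mod_cast this
      rw [h9] at h8
      push_cast at h8
      linarith
    have h11 : (m : ℝ) ≤ (D : ℝ) * (τ + 1) := by exact_mod_cast hτ2
    have h13 : (τ : ℝ) + 1 ≤ (4 * K + 4) * L := by
      rw [hL]
      have hK0 : (0 : ℝ) ≤ K := by positivity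
      nlinarith [mul_nonneg hK0 hWl, mul_nonneg hK0 hVl]
    have h14 : (D : ℝ) * (4 * K + 4) ≤ (cC E v : ℝ) ^ r := by
      have h15 := numeric E v r hv1 hr
      rw [← hΓ, ← hk, ← hK, ← hD] at h15
      exact_mod_cast h15
    calc (m : ℝ) ≤ (D : ℝ) * (τ + 1) := h11
      _ ≤ (D : ℝ) * ((4 * K + 4) * L) := mul_le_mul_of_nonneg_left h13 (by positivity)
      _ = ((D : ℝ) * (4 * K + 4)) * L := by ring
      _ ≤ (cC E v : ℝ) ^ r * L := mul_le_mul_of_nonneg_right h14 (by linarith)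

end Pool.Agent.Lib_helper26.TriRead
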