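import Mathlib
import Pool.Agent.Lib_helper26.TriRead.Main

/-!
# Comparing the numbers of triangles of two graphs

Upper bound (PP mode, one reading, four states) and reduction of the lower bound to
triangle-freeness.
-/

namespace Pool.Agent.Lib_helper26.TriRead

open Finset

/-- A program is deterministic if every state has at most one successor on every input. -/
def Prog.Det {E V : Type} (P : Prog E V) : Prop :=
  ∀ v x w w', P.step v x w → P.step v x w' → w = w'

/-- Input bits for a pair of graphs on `n` vertices. -/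
abbrev E2 (n : ℕ) : Type := Sym2 (Fin n) ⊕ Sym2 (Fin n)

/-- The input for the pair `(G₁, G₂)`. -/
def code {n : ℕ} (G₁ G₂ : SimpleGraph (Fin n)) : Set (E2 n) :=
  Sum.inl '' G₁.edgeSet ∪ Sum.inr '' G₂.edgeSet

/-- Number of triangles. -/
noncomputable def tri {n : ℕ} (G : SimpleGraph (Fin n)) : ℕ :=
  {s : Finset (Fin n) | G.IsNClique 3 s}.ncard

variable {n : ℕ}

lemma inl_mem_code {G₁ G₂ : SimpleGraph (Fin n)} {e : Sym2 (Fin n)} :
    Sum.inl e ∈ code G₁ G₂ ↔ e ∈ G₁.edgeSet := by
  simp [code]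

lemma inr_mem_code {G₁ G₂ : SimpleGraph (Fin n)} {e : Sym2 (Fin n)} :
    Sum.inr e ∈ code G₁ G₂ ↔ e ∈ G₂.edgeSet := by
  simp [code]

/-! ### lower bound -/

section lower

variable {V : Type}

/-- restriction of a program to inputs that are fixed on the second half -/
noncomputable def Prog.restr {E F : Type} (P : Prog (E ⊕ F) V) (y : Set F) : Prog E V where
  start := P.start
  acc := P.acc
  reads v := (P.reads v).preimage Sum.inl Sum.inl_injective.injOn
  step v x w := P.step v (Sum.inl '' x ∪ Sum.inr '' y) w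
  loc := by
    intro v w x x' h
    refine P.loc v w _ _ ?_
    intro e he
    cases e with
    | inl e =>
      have := h e (by simpa using he)
      simpa using this
    | inr e => simp

lemma Prog.restr_readBound {E F : Type} (P : Prog (E ⊕ F) V) (y : Set F) {R : E ⊕ F → ℕ}
    (hR : P.ReadBound R) : (P.restr y).ReadBound (fun e => R (Sum.inl e)) := by
  classical
  intro l hl e
  have hl' : Walk P.Syn P.start P.acc l := hl.mono (fun v w h => by
    obtain ⟨x, hx⟩ := h
    exact ⟨_, hx⟩)
  have := hR l hl' (Sum.inl e)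
  refine le_trans (le_of_eq ?_) this
  congr 1
  refine List.filter_congr ?_
  intro v _
  simp only [Prog.restr, Finset.mem_preimage, decide_eq_decide]

lemma Prog.restr_chunk {E F : Type} (P : Prog (E ⊕ F) V) (y : Set F) {b : ℕ}
    (hb : P.ChunkAtMost b) : (P.restr y).ChunkAtMost b := by
  intro v
  refine le_trans ?_ (hb v)
  refine Finset.card_le_card_of_injOn Sum.inl ?_ Sum.inl_injective.injOn
  intro e he
  simpa [Prog.restr] using he

lemma Prog.restr_accepts {E F : Type} (P : Prog (E ⊕ F) V) (x : Set E) (y : Set F) :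
    (P.restr y).Accepts x ↔ P.Accepts (Sum.inl '' x ∪ Sum.inr '' y) := Iff.rfl

/-- exchange of the two halves -/
def Prog.swap {E F : Type} (P : Prog (E ⊕ F) V) : Prog (F ⊕ E) V where
  start := P.start
  acc := P.acc
  reads v := (P.reads v).map (Equiv.sumComm E F).toEmbedding
  step v x w := P.step v (Equiv.sumComm E F ⁻¹' x) w
  loc := by
    intro v w x x' h
    refine P.loc v w _ _ ?_
    intro e he
    exact h (Equiv.sumComm E F e) (Finset.mem_map_of_mem _ he)

lemma Prog.swap_readBound {E F : Type} (P : Prog (E ⊕ F) V) {R : E ⊕ F → ℕ}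
    (hR : P.ReadBound R) : P.swap.ReadBound (fun e => R (Equiv.sumComm F E e)) := by
  classical
  intro l hl e
  have hl' : Walk P.Syn P.start P.acc l := hl.mono (fun v w h => by
    obtain ⟨x, hx⟩ := h
    exact ⟨_, hx⟩)
  have := hR l hl' (Equiv.sumComm F E e)
  refine le_trans (le_of_eq ?_) this
  congr 1
  refine List.filter_congr ?_
  intro v _
  simp only [Prog.swap, Finset.mem_map_equiv, decide_eq_decide]
  rfl

lemma Prog.swap_chunk {E F : Type} (P : Prog (E ⊕ F) V) {b : ℕ}
    (hb : P.ChunkAtMost b) : P.swap.ChunkAtMost b := by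
  intro v
  refine le_trans (le_of_eq ?_) (hb v)
  exact Finset.card_map _

lemma Prog.swap_accepts {E F : Type} (P : Prog (E ⊕ F) V) (x : Set (F ⊕ E)) :
    P.swap.Accepts x ↔ P.Accepts (Equiv.sumComm E F ⁻¹' x) := Iff.rfl

end lower

lemma tri_eq_zero {G : SimpleGraph (Fin n)} : tri G = 0 ↔ G.CliqueFree 3 := by
  unfold tri
  rw [Set.ncard_eq_zero (Set.toFinite _), Set.eq_empty_iff_forall_notMem]
  rfl

lemma tri_bot : tri (⊥ : SimpleGraph (Fin n)) = 0 :=
  tri_eq_zero.2 (SimpleGraph.cliqueFree_bot (by norm_num))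

/-- a single triangle -/
def one (n : ℕ) : SimpleGraph (Fin n) where
  Adj a b := a ≠ b ∧ a.val < 3 ∧ b.val < 3
  symm := ⟨fun _ _ h => ⟨h.1.symm, h.2.2, h.2.1⟩⟩
  loopless := ⟨fun _ h => h.1 rfl⟩

lemma one_edges (hn : 3 ≤ n) : (one n).edgeSet.ncard ≤ 3 := by
  have h : (one n).edgeSet ⊆ (({s(⟨0, by omega⟩, ⟨1, by omega⟩), s(⟨0, by omega⟩, ⟨2, by omega⟩),
      s(⟨1, by omega⟩, ⟨2, by omega⟩)} : Finset (Sym2 (Fin n))) : Set (Sym2 (Fin n))) := by
    intro e he
    induction e with
    | h a b =>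
      rw [SimpleGraph.mem_edgeSet] at he
      obtain ⟨h1, h2, h3⟩ := he
      obtain ⟨a, ha⟩ := a
      obtain ⟨b, hb⟩ := b
      simp only [ne_eq, Fin.mk.injEq] at h1 h2 h3
      interval_cases a <;> interval_cases b <;> simp_all
  refine (Set.ncard_le_ncard h (Set.toFinite _)).trans ?_
  rw [Set.ncard_coe_finset]
  exact Finset.card_le_three

lemma tri_one (hn : 3 ≤ n) : tri (one n) = 1 := by
  unfold tri
  rw [Set.ncard_eq_one]
  refine ⟨{⟨0, by omega⟩, ⟨1, by omega⟩, ⟨2, by omega⟩}, ?_⟩
  set T : Finset (Fin n) := {⟨0, by omega⟩, ⟨1, by omega⟩, ⟨2, by omega⟩} with hT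
  have hTcard : T.card = 3 := by
    rw [hT]
    rw [Finset.card_eq_three]
    exact ⟨_, _, _, by simp, by simp, by simp, rfl⟩
  ext s
  simp only [Set.mem_ofPred_eq, Set.mem_singleton_iff]
  constructor
  · intro hs
    have hsub : s ⊆ T := by
      intro a ha
      have : ∃ b ∈ s, b ≠ a := by
        by_contra hcon
        push Not at hcon
        have : s ⊆ {a} := fun b hb => Finset.mem_singleton.2 (hcon b hb)
        have := Finset.card_le_card this
        rw [hs.card_eq] at this
        simp at this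
      obtain ⟨b, hb, hba⟩ := this
      have hadj := hs.isClique ha hb hba.symm
      obtain ⟨_, h2, _⟩ := hadj
      obtain ⟨a, ha'⟩ := a
      simp only at h2
      rw [hT]
      interval_cases a <;> simp
    exact Finset.eq_of_subset_of_card_le hsub (by rw [hTcard, hs.card_eq])
  · rintro rfl
    refine ⟨?_, hTcard⟩
    intro a ha b hb hab
    refine ⟨hab, ?_, ?_⟩
    · rw [hT] at ha
      simp only [Finset.coe_insert, Finset.coe_singleton, Set.mem_insert_iff, Set.mem_singleton_iff] at ha
      rcases ha with rfl | rfl | rfl <;> simp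
    · rw [hT] at hb
      simp only [Finset.coe_insert, Finset.coe_singleton, Set.mem_insert_iff, Set.mem_singleton_iff] at hb
      rcases hb with rfl | rfl | rfl <;> simp

/-- the lower bound for both modes -/
theorem pair_lower : ∃ C : ℕ, 0 < C ∧ ∀ n m r b : ℕ, m ^ 2 ≤ n ^ 3 → 1 ≤ r → C * r ^ 2 * b ≤ n ^ 2 →
    ∀ (W V : Type) [Fintype W] [Fintype V] (P : W → Prog (E2 n) V),
      (∀ w, ∃ R : E2 n → ℕ, (P w).ReadBound R ∧ ∑ e, R e ≤ r * n ^ 2) →
      (∀ w, (P w).ChunkAtMost b) →
      ((∀ G₁ G₂ : SimpleGraph (Fin n), G₁.edgeSet.ncard ≤ m → G₂.edgeSet.ncard ≤ m →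
          ((∃ w, (P w).Accepts (code G₁ G₂)) ↔ tri G₂ < tri G₁)) ∨
        (∀ G₁ G₂ : SimpleGraph (Fin n), G₁.edgeSet.ncard ≤ m → G₂.edgeSet.ncard ≤ m →
          ((∃ w, (P w).Accepts (code G₁ G₂)) ↔ ¬ tri G₂ < tri G₁))) →
      (m : ℝ) ≤ (C : ℝ) ^ r *
        (Real.logb 2 (Fintype.card W) + Real.logb 2 (Fintype.card V) + 1) := by
  obtain ⟨C, hC, h⟩ := main
  refine ⟨C + 3, by omega, ?_⟩
  intro n m r b hmn hr hb W V _ _ P hread hchunk hP
  have hbb : C * r ^ 2 * b ≤ n ^ 2 := le_trans (by gcongr; omega) hb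
  have hWl : 0 ≤ Real.logb 2 (Fintype.card W) := by
    rcases Nat.eq_zero_or_pos (Fintype.card W) with h0 | h0
    · rw [h0]; simp
    · exact Real.logb_nonneg (by norm_num) (by exact_mod_cast h0)
  have hVl : 0 ≤ Real.logb 2 (Fintype.card V) := by
    rcases Nat.eq_zero_or_pos (Fintype.card V) with h0 | h0
    · rw [h0]; simp
    · exact Real.logb_nonneg (by norm_num) (by exact_mod_cast h0)
  set L := Real.logb 2 (Fintype.card W) + Real.logb 2 (Fintype.card V) + 1 with hL
  have hL1 : 1 ≤ L := by linarith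
  have hCr : (C : ℝ) ^ r ≤ ((C + 3 : ℕ) : ℝ) ^ r := by
    gcongr
    omega
  have h3r : (3 : ℝ) ≤ ((C + 3 : ℕ) : ℝ) ^ r := by
    have : (3 : ℝ) ≤ ((C + 3 : ℕ) : ℝ) := by
      push_cast
      have : (0 : ℝ) ≤ C := by positivity
      linarith
    calc (3 : ℝ) ≤ ((C + 3 : ℕ) : ℝ) := this
      _ ≤ ((C + 3 : ℕ) : ℝ) ^ r := le_self_pow₀ (by linarith) (by omega)
  by_cases hm3 : m < 3
  · calc (m : ℝ) ≤ 3 * 1 := by
          have : (m : ℝ) < 3 := by exact_mod_cast hm3
          linarith
      _ ≤ ((C + 3 : ℕ) : ℝ) ^ r * L := by gcongr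
  · have hm3' : 3 ≤ m := by omega
    have hn3 : 3 ≤ n := by
      by_contra hlt
      have h1 : n ≤ 2 := by omega
      have h2 : n ^ 3 ≤ 2 ^ 3 := Nat.pow_le_pow_left h1 3
      have h3 : 3 ^ 2 ≤ m ^ 2 := Nat.pow_le_pow_left hm3' 2
      omega
    refine le_trans ?_ (mul_le_mul_of_nonneg_right hCr (by linarith))
    rcases hP with hP | hP
    · -- fix the first graph to be one triangle
      refine h n m r b hmn hr hbb W V (fun w => ((P w).swap).restr (one n).edgeSet) ?_ ?_ ?_
      · intro w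
        obtain ⟨R, hR, hRs⟩ := hread w
        refine ⟨_, Prog.restr_readBound _ _ (Prog.swap_readBound _ hR), le_trans ?_ hRs⟩
        rw [Fintype.sum_sum_type]
        simp only [Equiv.sumComm_apply, Sum.swap_inl]
        exact Nat.le_add_left _ _
      · intro w
        exact Prog.restr_chunk _ _ (Prog.swap_chunk _ (hchunk w))
      · intro G hG
        have h1 := hP (one n) G ((one_edges hn3).trans hm3') hG
        rw [tri_one hn3] at h1
        have h2 : (tri G < 1) ↔ G.CliqueFree 3 := by rw [← tri_eq_zero]; omega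
        rw [← h2, ← h1]
        refine exists_congr (fun w => ?_)
        rw [Prog.restr_accepts, Prog.swap_accepts]
        have : (Equiv.sumComm (Sym2 (Fin n)) (Sym2 (Fin n))) ⁻¹'
            (Sum.inl '' G.edgeSet ∪ Sum.inr '' (one n).edgeSet) = code (one n) G := by
          ext e
          cases e <;> simp [code]
        rw [this]
    · refine h n m r b hmn hr hbb W V (fun w => (P w).restr (⊥ : SimpleGraph (Fin n)).edgeSet) ?_ ?_ ?_
      · intro w
        obtain ⟨R, hR, hRs⟩ := hread w
        refine ⟨_, Prog.restr_readBound _ _ hR, le_trans ?_ hRs⟩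
        rw [Fintype.sum_sum_type]
        exact Nat.le_add_right _ _
      · intro w
        exact Prog.restr_chunk _ _ (hchunk w)
      · intro G hG
        have h1 := hP G ⊥ hG (by simp)
        rw [tri_bot] at h1
        have h2 : (¬ 0 < tri G) ↔ G.CliqueFree 3 := by rw [← tri_eq_zero]; omega
        rw [← h2, ← h1]
        exact exists_congr (fun w => Iff.rfl)

end Pool.Agent.Lib_helper26.TriRead
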