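import Mathlib
import Pool.Agent.Lib_helper26.TriRead.Pair

namespace Pool.Agent.Lib_helper26.TriRead

open Finset

section chain

variable {E : Type}

/-- reads `e 0`, `e 1`, `e 2`; accepts if all three are present (`f = false`), or if not all three
are present (`f = true`) -/
def chainP (e : Fin 3 → E) (f : Bool) : Prog E (Fin 4) where
  start := 0
  acc := 3
  reads v := if h : v.val < 3 then {e ⟨v.val, h⟩} else ∅
  step v x w := ∃ h : v.val < 3,
    (f = false ∧ e ⟨v.val, h⟩ ∈ x ∧ w.val = v.val + 1) ∨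
    (f = true ∧ ((e ⟨v.val, h⟩ ∈ x ∧ v.val + 1 < 3 ∧ w.val = v.val + 1) ∨
      (e ⟨v.val, h⟩ ∉ x ∧ w.val = 3)))
  loc := by
    rintro v w x y hxy ⟨h, hs⟩
    have h1 := hxy (e ⟨v.val, h⟩) (by simp [h])
    rw [h1] at hs
    exact ⟨h, hs⟩

lemma chainP_det (e : Fin 3 → E) (f : Bool) : (chainP e f).Det := by
  rintro v x w w' ⟨h, hs⟩ ⟨h', hs'⟩
  apply Fin.ext
  rcases hs with ⟨h1, h2, h3⟩ | ⟨h1, ⟨h2, h3, h4⟩ | ⟨h2, h3⟩⟩ <;>
    rcases hs' with ⟨h1', h2', h3'⟩ | ⟨h1', ⟨h2', h3', h4'⟩ | ⟨h2', h3'⟩⟩ <;>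
    first
    | omega
    | exact absurd h2 h2'
    | exact absurd h2' h2

lemma chainP_chunk (e : Fin 3 → E) (f : Bool) : (chainP e f).ChunkAtMost 1 := by
  intro v
  unfold chainP
  simp only
  split_ifs <;> simp

lemma chainP_lt {e : Fin 3 → E} {f : Bool} {v w : Fin 4} (h : (chainP e f).Syn v w) : v < w := by
  obtain ⟨x, h, hs⟩ := h
  rw [Fin.lt_def]
  omega

lemma walk_sorted {R : Fin 4 → Fin 4 → Prop} (hR : ∀ v w, R v w → v < w) {u w : Fin 4} {l : List (Fin 4)}
    (h : Walk R u w l) : l.Pairwise (· < ·) ∧ ∀ v ∈ l, u ≤ v := by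
  induction h with
  | nil u => simp
  | @cons u v w l hr _ ih =>
    have hlt := hR _ _ hr
    refine ⟨List.pairwise_cons.2 ⟨fun a ha => lt_of_lt_of_le hlt (ih.2 a ha), ih.1⟩, ?_⟩
    intro a ha
    rcases List.mem_cons.1 ha with rfl | ha
    · exact le_rfl
    · exact hlt.le.trans (ih.2 a ha)

lemma chainP_read (e : Fin 3 → E) (he : Function.Injective e) (f : Bool) :
    (chainP e f).ReadBound (fun _ => 1) := by
  classical
  intro l hl a
  have hs := (walk_sorted (fun v w h => chainP_lt h) hl).1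
  have hnd : l.Nodup := hs.imp (fun h => ne_of_lt h)
  have h2 : ∀ v ∈ l.filter (fun v => a ∈ (chainP e f).reads v),
      ∀ w ∈ l.filter (fun v => a ∈ (chainP e f).reads v), v = w := by
    intro v hv w hw
    simp only [List.mem_filter, decide_eq_true_eq] at hv hw
    have h3 := hv.2
    have h4 := hw.2
    unfold chainP at h3 h4
    simp only at h3 h4
    split_ifs at h3 with h5
    · split_ifs at h4 with h6
      · rw [Finset.mem_singleton] at h3 h4
        have := he (h3.symm.trans h4)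
        simp only [Fin.mk.injEq] at this
        exact Fin.ext this
      · simp at h4
    · simp at h3
  have h5 : (l.filter (fun v => a ∈ (chainP e f).reads v)).length ≤ 1 := by
    have hnd' := hnd.filter (fun v => decide (a ∈ (chainP e f).reads v))
    generalize l.filter (fun v => decide (a ∈ (chainP e f).reads v)) = l' at h2 hnd'
    match l' with
    | [] => simp
    | [_] => simp
    | a :: b :: l'' =>
      exfalso
      have := h2 a (by simp) b (by simp)
      subst this
      simp at hnd'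
  convert h5

lemma walk_inv {V : Type} {R : V → V → Prop} {u w : V} {l : List V} (h : Walk R u w l) (hne : u ≠ w) :
    ∃ v l', R u v ∧ Walk R v w l' := by
  cases h with
  | nil => exact absurd rfl hne
  | cons hr hw => exact ⟨_, _, hr, hw⟩

lemma chainP_accepts_false (e : Fin 3 → E) (x : Set E) :
    (chainP e false).Accepts x ↔ ∀ i, e i ∈ x := by
  change (∃ l, Walk (fun v w => (chainP e false).step v x w) (0 : Fin 4) 3 l) ↔ _
  have a0 : (0 : Fin 4).val < 3 := by decide
  have a1 : (1 : Fin 4).val < 3 := by decide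
  have a2 : (2 : Fin 4).val < 3 := by decide
  constructor
  · rintro ⟨l, hl⟩
    obtain ⟨v1, l1, ⟨h1, hs1⟩, hw1⟩ := walk_inv hl (by decide)
    have e0 : e 0 ∈ x := by
      rcases hs1 with ⟨_, h, _⟩ | ⟨h, _⟩
      · exact h
      · exact absurd h (by simp)
    have hv1 : v1 = 1 := by
      rcases hs1 with ⟨_, _, h⟩ | ⟨h, _⟩
      · exact Fin.ext h
      · exact absurd h (by simp)
    subst hv1
    obtain ⟨v2, l2, ⟨h2, hs2⟩, hw2⟩ := walk_inv hw1 (by decide)
    have e1 : e 1 ∈ x := by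
      rcases hs2 with ⟨_, h, _⟩ | ⟨h, _⟩
      · exact h
      · exact absurd h (by simp)
    have hv2 : v2 = 2 := by
      rcases hs2 with ⟨_, _, h⟩ | ⟨h, _⟩
      · exact Fin.ext h
      · exact absurd h (by simp)
    subst hv2
    obtain ⟨v3, l3, ⟨h3, hs3⟩, hw3⟩ := walk_inv hw2 (by decide)
    have e2 : e 2 ∈ x := by
      rcases hs3 with ⟨_, h, _⟩ | ⟨h, _⟩
      · exact h
      · exact absurd h (by simp)
    intro i
    fin_cases i
    · exact e0
    · exact e1
    · exact e2
  · intro h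
    exact ⟨[0, 1, 2], Walk.cons (v := 1) ⟨a0, Or.inl ⟨rfl, h 0, rfl⟩⟩
      (Walk.cons (v := 2) ⟨a1, Or.inl ⟨rfl, h 1, rfl⟩⟩
        (Walk.cons (v := 3) ⟨a2, Or.inl ⟨rfl, h 2, rfl⟩⟩ (Walk.nil 3)))⟩

lemma chainP_accepts_true (e : Fin 3 → E) (x : Set E) :
    (chainP e true).Accepts x ↔ ¬ ∀ i, e i ∈ x := by
  change (∃ l, Walk (fun v w => (chainP e true).step v x w) (0 : Fin 4) 3 l) ↔ _
  have a0 : (0 : Fin 4).val < 3 := by decide
  have a1 : (1 : Fin 4).val < 3 := by decide
  have a2 : (2 : Fin 4).val < 3 := by decide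
  constructor
  · rintro ⟨l, hl⟩ hall
    have key : ∀ (u : Fin 4) (l : List (Fin 4)), Walk (fun v w => (chainP e true).step v x w) u 3 l →
        u.val < 3 → False := by
      intro u l hl hu
      have hind : ∀ (u w : Fin 4) (l : List (Fin 4)),
          Walk (fun v w => (chainP e true).step v x w) u w l → u.val < 3 → w.val < 3 := by
        intro u w l h
        induction h with
        | nil u => exact fun h => h
        | @cons u v w l hr _ ih =>
          intro hu
          apply ih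
          obtain ⟨h, hs⟩ := hr
          rcases hs with ⟨h1, _⟩ | ⟨_, ⟨_, h3, h4⟩ | ⟨h2, _⟩⟩
          · exact absurd h1 (by simp)
          · omega
          · exact absurd (hall _) h2
      have := hind u 3 l hl hu
      exact absurd this (by decide)
    exact key _ _ hl a0
  · intro h
    by_cases h0 : e 0 ∈ x
    · by_cases h1 : e 1 ∈ x
      · have h2 : e 2 ∉ x := by
          intro h2
          apply h
          intro i
          fin_cases i
          · exact h0
          · exact h1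
          · exact h2
        exact ⟨[0, 1, 2], Walk.cons (v := 1) ⟨a0, Or.inr ⟨rfl, Or.inl ⟨h0, by decide, rfl⟩⟩⟩
          (Walk.cons (v := 2) ⟨a1, Or.inr ⟨rfl, Or.inl ⟨h1, by decide, rfl⟩⟩⟩
            (Walk.cons (v := 3) ⟨a2, Or.inr ⟨rfl, Or.inr ⟨h2, rfl⟩⟩⟩ (Walk.nil 3)))⟩
      · exact ⟨[0, 1], Walk.cons (v := 1) ⟨a0, Or.inr ⟨rfl, Or.inl ⟨h0, by decide, rfl⟩⟩⟩
          (Walk.cons (v := 3) ⟨a1, Or.inr ⟨rfl, Or.inr ⟨h1, rfl⟩⟩⟩ (Walk.nil 3))⟩
    · exact ⟨[0], Walk.cons (v := 3) ⟨a0, Or.inr ⟨rfl, Or.inr ⟨h0, rfl⟩⟩⟩ (Walk.nil 3)⟩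

end chain

variable {n : ℕ}

/-- the random outcomes of the comparison program: a three-element set of vertices and a bit -/
abbrev Y (n : ℕ) : Type := {s : Finset (Fin n) // s.card = 3} × Bool

lemma exists_edges (s : {s : Finset (Fin n) // s.card = 3}) :
    ∃ e : Fin 3 → Sym2 (Fin n), Function.Injective e ∧
      ∀ G : SimpleGraph (Fin n), (∀ i, e i ∈ G.edgeSet) ↔ G.IsNClique 3 s.1 := by
  obtain ⟨s, hs⟩ := s
  obtain ⟨a, b, c, hab, hac, hbc, rfl⟩ := Finset.card_eq_three.1 hs
  refine ⟨![s(a, b), s(a, c), s(b, c)], ?_, ?_⟩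
  · intro i j hij
    have hab' := Ne.symm hab
    have hac' := Ne.symm hac
    have hbc' := Ne.symm hbc
    fin_cases i <;> fin_cases j <;> simp_all
  · intro G
    rw [SimpleGraph.is3Clique_triple_iff]
    constructor
    · intro h
      exact ⟨h 0, h 1, h 2⟩
    · rintro ⟨h0, h1, h2⟩ i
      fin_cases i
      · exact h0
      · exact h1
      · exact h2

lemma pp_count (G₁ G₂ : SimpleGraph (Fin n)) :
    Nat.card {y : Y n // (y.2 = false ∧ G₁.IsNClique 3 y.1.1) ∨ (y.2 = true ∧ ¬ G₂.IsNClique 3 y.1.1)} +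
      tri G₂ = tri G₁ + Nat.card {s : Finset (Fin n) // s.card = 3} ∧
    Nat.card (Y n) = 2 * Nat.card {s : Finset (Fin n) // s.card = 3} := by
  classical
  constructor
  · have htri : ∀ G : SimpleGraph (Fin n), tri G =
        Nat.card {s : {s : Finset (Fin n) // s.card = 3} // G.IsNClique 3 s.1} := by
      intro G
      unfold tri
      rw [← Nat.card_coe_set_eq]
      refine Nat.card_congr ⟨fun s => ⟨⟨s.1, s.2.card_eq⟩, s.2⟩, fun s => ⟨s.1.1, s.2⟩, ?_, ?_⟩
      · intro s; rfl
      · intro s; rfl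
    rw [htri G₁, htri G₂]
    have h1 : Nat.card {y : Y n // (y.2 = false ∧ G₁.IsNClique 3 y.1.1) ∨
        (y.2 = true ∧ ¬ G₂.IsNClique 3 y.1.1)} =
        Nat.card ({s : {s : Finset (Fin n) // s.card = 3} // G₁.IsNClique 3 s.1} ⊕
          {s : {s : Finset (Fin n) // s.card = 3} // ¬ G₂.IsNClique 3 s.1}) := by
      refine Nat.card_congr (Equiv.ofBijective (fun y => if h : y.1.2 = false then
        Sum.inl ⟨y.1.1, ?_⟩ else Sum.inr ⟨y.1.1, ?_⟩) ⟨?_, ?_⟩)
      · rcases y.2 with h1 | h1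
        · exact h1.2
        · rw [h1.1] at h; exact absurd h (by simp)
      · rcases y.2 with h1 | h1
        · exact absurd h1.1 h
        · exact h1.2
      · rintro ⟨⟨s, f⟩, hy⟩ ⟨⟨s', f'⟩, hy'⟩ h
        cases f <;> cases f' <;> simp_all
      · rintro (⟨s, hs⟩ | ⟨s, hs⟩)
        · exact ⟨⟨(s, false), Or.inl ⟨rfl, hs⟩⟩, by simp⟩
        · exact ⟨⟨(s, true), Or.inr ⟨rfl, hs⟩⟩, by simp⟩
    rw [h1, Nat.card_sum, add_assoc]
    congr 1
    rw [add_comm, ← Nat.card_sum]
    exact Nat.card_congr (Equiv.sumCompl (fun s : {s : Finset (Fin n) // s.card = 3} =>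
      G₂.IsNClique 3 s.1))
  · rw [Nat.card_prod, mul_comm]
    congr 1
    simp

/-- the comparison program -/
theorem pair_upper (n : ℕ) : ∃ P : Y n → Prog (E2 n) (Fin 4),
    (∀ y, (P y).Det ∧ (P y).ReadBound (fun _ => 1) ∧ (P y).ChunkAtMost 1) ∧
    ∀ G₁ G₂ : SimpleGraph (Fin n), tri G₂ < tri G₁ ↔
      Nat.card (Y n) < 2 * Nat.card {y // (P y).Accepts (code G₁ G₂)} := by
  choose e he1 he2 using (exists_edges (n := n))
  refine ⟨fun y => if y.2 = false then chainP (Sum.inl ∘ e y.1) false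
    else chainP (Sum.inr ∘ e y.1) true, ?_, ?_⟩
  · intro y
    simp only
    split_ifs
    · exact ⟨chainP_det _ _, chainP_read _ (Sum.inl_injective.comp (he1 _)) _, chainP_chunk _ _⟩
    · exact ⟨chainP_det _ _, chainP_read _ (Sum.inr_injective.comp (he1 _)) _, chainP_chunk _ _⟩
  · intro G₁ G₂
    obtain ⟨h1, h2⟩ := pp_count G₁ G₂
    have h3 : Nat.card {y : Y n // (if y.2 = false then chainP (Sum.inl ∘ e y.1) false
        else chainP (Sum.inr ∘ e y.1) true).Accepts (code G₁ G₂)} =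
        Nat.card {y : Y n // (y.2 = false ∧ G₁.IsNClique 3 y.1.1) ∨
          (y.2 = true ∧ ¬ G₂.IsNClique 3 y.1.1)} := by
      refine Nat.card_congr (Equiv.subtypeEquivRight ?_)
      intro y
      by_cases hy : y.2 = false
      · rw [if_pos hy, chainP_accepts_false]
        simp only [Function.comp, inl_mem_code, he2, hy, true_and, Bool.false_eq_true, false_and,
          or_false]
      · have hy' : y.2 = true := by simpa using hy
        rw [if_neg hy, chainP_accepts_true]
        simp only [Function.comp, inr_mem_code, he2, hy', Bool.true_eq_false, false_and, true_and,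
          false_or]
    rw [h3, h2]
    omega

end Pool.Agent.Lib_helper26.TriRead
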