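import Mathlib
import Pool.Agent.Lib_helper26.TriRead.Pair

/-!
# Unsatisfiability of 3CNFs

The input is a 3CNF over `v` variables, given by one bit per clause.
-/

namespace Pool.Agent.Lib_helper26.TriRead

open Finset

/-- Literals: a variable and the value that makes the literal true. -/
abbrev Lit (v : ℕ) : Type := Fin v × Bool

/-- Clauses: three literals, possibly with repetitions. -/
abbrev Cls (v : ℕ) : Type := Fin 3 → Lit v

/-- The assignment `τ` satisfies all clauses of `F`. -/
def Satisfies {v : ℕ} (τ : Fin v → Bool) (F : Set (Cls v)) : Prop :=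
  ∀ c ∈ F, ∃ i, τ (c i).1 = (c i).2

/-- `F` is satisfiable. -/
def Sat {v : ℕ} (F : Set (Cls v)) : Prop := ∃ τ, Satisfies τ F

/-! ### upper bound for satisfiability -/

section upper

variable {v N : ℕ}

open Classical in
/-- reads the clauses violated by `τ` one after the other -/
noncomputable def satP (e : Fin N ≃ Cls v) (τ : Fin v → Bool) : Prog (Cls v) (Fin (N + 1)) where
  start := 0
  acc := Fin.last N
  reads u := if h : u.val < N then (if ∀ i, τ (e ⟨u.val, h⟩ i).1 ≠ (e ⟨u.val, h⟩ i).2 then
    {e ⟨u.val, h⟩} else ∅) else ∅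
  step u F w := w.val = u.val + 1 ∧ ∀ h : u.val < N,
    (∀ i, τ (e ⟨u.val, h⟩ i).1 ≠ (e ⟨u.val, h⟩ i).2) → e ⟨u.val, h⟩ ∉ F
  loc := by
    rintro u w F F' hF ⟨h1, h2⟩
    refine ⟨h1, fun h h3 => ?_⟩
    have := hF (e ⟨u.val, h⟩) (by rw [dif_pos h, if_pos h3]; exact Finset.mem_singleton_self _)
    rw [← this]
    exact h2 h h3

lemma satP_det (e : Fin N ≃ Cls v) (τ : Fin v → Bool) : (satP e τ).Det := by
  rintro u F w w' ⟨h1, _⟩ ⟨h2, _⟩
  exact Fin.ext (h1.trans h2.symm)

lemma satP_chunk (e : Fin N ≃ Cls v) (τ : Fin v → Bool) : (satP e τ).ChunkAtMost 1 := by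
  intro u
  unfold satP
  simp only
  split_ifs <;> simp

lemma walk_sorted' {M : ℕ} {R : Fin M → Fin M → Prop} (hR : ∀ v w, R v w → v < w) {u w : Fin M}
    {l : List (Fin M)} (h : Walk R u w l) : l.Pairwise (· < ·) ∧ ∀ v ∈ l, u ≤ v := by
  induction h with
  | nil u => simp
  | @cons u v w l hr _ ih =>
    have hlt := hR _ _ hr
    refine ⟨List.pairwise_cons.2 ⟨fun a ha => lt_of_lt_of_le hlt (ih.2 a ha), ih.1⟩, ?_⟩
    intro a ha
    rcases List.mem_cons.1 ha with rfl | ha
    · exact le_rfl
    · exact hlt.le.trans (ih.2 a ha)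

lemma satP_read (e : Fin N ≃ Cls v) (τ : Fin v → Bool) : (satP e τ).ReadBound (fun _ => 1) := by
  classical
  intro l hl a
  have hs := (walk_sorted' (fun v w h => by
    obtain ⟨F, h1, _⟩ := h
    rw [Fin.lt_def]; omega) hl).1
  have hnd : l.Nodup := hs.imp (fun h => ne_of_lt h)
  have h2 : ∀ v ∈ l.filter (fun v => a ∈ (satP e τ).reads v),
      ∀ w ∈ l.filter (fun v => a ∈ (satP e τ).reads v), v = w := by
    have key : ∀ v, a ∈ (satP e τ).reads v → ∃ h : v.val < N, a = e ⟨v.val, h⟩ := by
      intro v hv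
      unfold satP at hv
      simp only at hv
      split_ifs at hv with h5 h6
      · exact ⟨h5, Finset.mem_singleton.1 hv⟩
      · simp at hv
      · simp at hv
    intro v hv w hw
    simp only [List.mem_filter, decide_eq_true_eq] at hv hw
    obtain ⟨h3, h3'⟩ := key v hv.2
    obtain ⟨h4, h4'⟩ := key w hw.2
    have := e.injective (h3'.symm.trans h4')
    simp only [Fin.mk.injEq] at this
    exact Fin.ext this
  have h5 : (l.filter (fun v => a ∈ (satP e τ).reads v)).length ≤ 1 := by
    have hnd' := hnd.filter (fun v => decide (a ∈ (satP e τ).reads v))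
    generalize l.filter (fun v => decide (a ∈ (satP e τ).reads v)) = l' at h2 hnd'
    match l' with
    | [] => simp
    | [_] => simp
    | a :: b :: l'' =>
      exfalso
      have := h2 a (by simp) b (by simp)
      subst this
      simp at hnd'
  refine le_trans (le_of_eq ?_) h5
  refine congrArg List.length (List.filter_congr ?_)
  intro u _
  exact decide_eq_decide.2 Iff.rfl

lemma satP_accepts (e : Fin N ≃ Cls v) (τ : Fin v → Bool) (F : Set (Cls v)) :
    (satP e τ).Accepts F ↔ Satisfies τ F := by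
  constructor
  · rintro ⟨l, hl⟩
    have key : ∀ (u w : Fin (N + 1)) (l : List (Fin (N + 1))),
        Walk (fun v w => (satP e τ).step v F w) u w l → ∀ (j : Fin N), u.val ≤ j.val → j.val < w.val →
          (∀ i, τ (e j i).1 ≠ (e j i).2) → e j ∉ F := by
      intro u w l h
      induction h with
      | nil u => intro j h1 h2; omega
      | @cons u v' w l hr _ ih =>
        intro j h1 h2 h3
        obtain ⟨h4, h5⟩ := hr
        by_cases hj : u.val = j.val
        · have h6 : u.val < N := by have := j.2; omega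
          have h7 : (⟨u.val, h6⟩ : Fin N) = j := Fin.ext hj
          have := h5 h6
          rw [h7] at this
          exact this h3
        · exact ih j (by omega) h2 h3
    intro c hc
    by_contra hcon
    push Not at hcon
    obtain ⟨j, rfl⟩ := e.surjective c
    exact key _ _ _ hl j (Nat.zero_le _) j.2 hcon hc
  · intro h
    have key : ∀ k : ℕ, ∀ hk : k ≤ N, ∃ l, Walk (fun v w => (satP e τ).step v F w)
        (⟨N - k, by omega⟩ : Fin (N + 1)) (Fin.last N) l := by
      intro k
      induction k with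
      | zero => intro _; exact ⟨[], Walk.nil _⟩
      | succ k ih =>
        intro hk
        obtain ⟨l, hl⟩ := ih (by omega)
        refine ⟨_, Walk.cons (v := ⟨N - k, by omega⟩) ⟨by simp only; omega, ?_⟩ hl⟩
        intro h1 h2 h3
        obtain ⟨i, hi⟩ := h _ h3
        exact h2 i hi
    obtain ⟨l, hl⟩ := key N le_rfl
    refine ⟨l, ?_⟩
    have : (⟨N - N, by omega⟩ : Fin (N + 1)) = 0 := by
      apply Fin.ext; simp
    rw [this] at hl
    exact hl

theorem sat_upper (v : ℕ) : ∃ P : (Fin v → Bool) → Prog (Cls v) (Fin ((2 * v) ^ 3 + 1)),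
    (∀ τ, (P τ).Det ∧ (P τ).ReadBound (fun _ => 1) ∧ (P τ).ChunkAtMost 1) ∧
    ∀ F : Set (Cls v), (∃ τ, (P τ).Accepts F) ↔ Sat F := by
  have hcard : Fintype.card (Cls v) = (2 * v) ^ 3 := by
    simp [mul_comm]
  have e : Fin ((2 * v) ^ 3) ≃ Cls v := (Fintype.equivFinOfCardEq hcard).symm
  refine ⟨fun τ => satP e τ, fun τ => ⟨satP_det _ _, satP_read _ _, satP_chunk _ _⟩, fun F => ?_⟩
  exact exists_congr (fun τ => satP_accepts e τ F)

end upper

end Pool.Agent.Lib_helper26.TriRead
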