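import Mathlib
import Pool.Agent.Lib_helper26.TriRead.Sat

namespace Pool.Agent.Lib_helper26.TriRead

open Finset

/-- variables of the encoding: selectors and auxiliary chain variables -/
abbrev VarT (n : ℕ) : Type := (Fin 3 × Fin n) ⊕ (Fin 3 × Fin (n + 1))

section enc

variable {v n : ℕ} (ι : VarT n ↪ Fin v)

/-- selector literal -/
def xl (k : Fin 3) (a : Fin n) (f : Bool) : Lit v := (ι (Sum.inl (k, a)), f)

/-- chain literal -/
def sl (k : Fin 3) (i : Fin (n + 1)) (f : Bool) : Lit v := (ι (Sum.inr (k, i)), f)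

/-- conflict clause -/
def conf (k k' : Fin 3) (a b : Fin n) : Cls v :=
  ![xl ι k a false, xl ι k' b false, xl ι k' b false]

/-- the fixed clauses -/
def fixedC : Set (Cls v) :=
  {c | (∃ k, c = fun _ => sl ι k 0 true) ∨ (∃ k, c = fun _ => sl ι k (Fin.last n) false) ∨
    ∃ k, ∃ i : Fin n, c = ![sl ι k i.castSucc false, xl ι k i true, sl ι k i.succ true]}

/-- the formula of a set of edges -/
def form (x : Set (Sym2 (Fin n))) : Set (Cls v) :=
  fixedC ι ∪ {c | ∃ k k' a b, k < k' ∧ c = conf ι k k' a b ∧ s(a, b) ∉ x}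

lemma conf_inj {k k' l l' : Fin 3} {a b a' b' : Fin n} (h : conf ι k k' a b = conf ι l l' a' b') :
    k = l ∧ k' = l' ∧ a = a' ∧ b = b' := by
  have h0 := congrFun h 0
  have h1 := congrFun h 1
  simp only [conf, xl, Matrix.cons_val_zero, Matrix.cons_val_one, Prod.mk.injEq,
    EmbeddingLike.apply_eq_iff_eq, Sum.inl.injEq] at h0 h1
  exact ⟨h0.1.1, h1.1.1, h0.1.2, h1.1.2⟩

lemma conf_not_fixed {k k' : Fin 3} {a b : Fin n} : conf ι k k' a b ∉ fixedC ι := by
  rintro (⟨l, h⟩ | ⟨l, h⟩ | ⟨l, i, h⟩)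
  · have h0 := congrFun h 0
    simp [conf, xl, sl] at h0
  · have h0 := congrFun h 0
    simp [conf, xl, sl] at h0
  · have h0 := congrFun h 0
    simp [conf, xl, sl] at h0

lemma form_sat (G : SimpleGraph (Fin n)) : Sat (form ι G.edgeSet) ↔ ¬ G.CliqueFree 3 := by
  constructor
  · rintro ⟨τ, hτ⟩ hfree
    have hsel : ∀ k : Fin 3, ∃ a, τ (ι (Sum.inl (k, a))) = true := by
      intro k
      by_contra hcon
      push Not at hcon
      have h0 : ∀ i : ℕ, ∀ hi : i < n + 1, τ (ι (Sum.inr (k, ⟨i, hi⟩))) = true := by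
        intro i
        induction i with
        | zero =>
          intro hi
          obtain ⟨j, hj⟩ := hτ _ (Or.inl (Or.inl ⟨k, rfl⟩))
          exact hj
        | succ i ih =>
          intro hi
          have h1 := ih (by omega)
          obtain ⟨j, hj⟩ := hτ _ (Or.inl (Or.inr (Or.inr ⟨k, ⟨i, by omega⟩, rfl⟩)))
          fin_cases j
          · simp only [sl] at hj
            have : τ (ι (Sum.inr (k, (⟨i, by omega⟩ : Fin n).castSucc))) = false := hj
            have h2 : ((⟨i, by omega⟩ : Fin n).castSucc) = (⟨i, by omega⟩ : Fin (n + 1)) := rfl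
            rw [h2, h1] at this
            exact absurd this (by simp)
          · exact absurd hj (hcon _)
          · exact hj
      obtain ⟨j, hj⟩ := hτ _ (Or.inl (Or.inr (Or.inl ⟨k, rfl⟩)))
      have h1 := h0 n (by omega)
      have h2 : (⟨n, by omega⟩ : Fin (n + 1)) = Fin.last n := rfl
      rw [h2] at h1
      have hj' : τ (ι (Sum.inr (k, Fin.last n))) = false := hj
      rw [h1] at hj'
      exact absurd hj' (by simp)
    choose a ha using hsel
    have hadj : ∀ k k' : Fin 3, k < k' → G.Adj (a k) (a k') := by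
      intro k k' hk
      by_contra hcon
      obtain ⟨j, hj⟩ := hτ (conf ι k k' (a k) (a k')) (Or.inr ⟨k, k', a k, a k', hk, rfl, hcon⟩)
      have h1 := ha k
      have h2 := ha k'
      fin_cases j
      · have hj' : τ (ι (Sum.inl (k, a k))) = false := hj
        rw [h1] at hj'; exact absurd hj' (by simp)
      · have hj' : τ (ι (Sum.inl (k', a k'))) = false := hj
        rw [h2] at hj'; exact absurd hj' (by simp)
      · have hj' : τ (ι (Sum.inl (k', a k'))) = false := hj
        rw [h2] at hj'; exact absurd hj' (by simp)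
    exact hfree {a 0, a 1, a 2} (SimpleGraph.is3Clique_triple_iff.2
      ⟨hadj 0 1 (by decide), hadj 0 2 (by decide), hadj 1 2 (by decide)⟩)
  · intro h
    simp only [SimpleGraph.CliqueFree, not_forall, not_not] at h
    obtain ⟨s, hs⟩ := h
    rw [SimpleGraph.is3Clique_iff] at hs
    obtain ⟨a, b, c, hab, hac, hbc, -⟩ := hs
    classical
    set w : Fin 3 → Fin n := ![a, b, c] with hw
    have hadj : ∀ k k' : Fin 3, k < k' → G.Adj (w k) (w k') := by
      intro k k' hk
      fin_cases k <;> fin_cases k' <;> first | exact absurd hk (by decide) | exact hab | exact hac | exact hbc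
    set σ : VarT n → Bool := fun y => match y with
      | Sum.inl (k, x) => decide (x = w k)
      | Sum.inr (k, i) => decide (i.val ≤ (w k).val) with hσ
    refine ⟨fun u => if h : ∃ y, ι y = u then σ h.choose else false, ?_⟩
    have hval : ∀ y, (fun u => if h : ∃ y, ι y = u then σ h.choose else false) (ι y) = σ y := by
      intro y
      have h : ∃ z, ι z = ι y := ⟨y, rfl⟩
      simp only
      rw [dif_pos h, ι.injective h.choose_spec]
    generalize (fun u => if h : ∃ y, ι y = u then σ h.choose else false) = τ at hval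
    rintro cl ((⟨k, rfl⟩ | ⟨k, rfl⟩ | ⟨k, i, rfl⟩) | ⟨k, k', x, y, hk, rfl, hxy⟩)
    · refine ⟨0, ?_⟩
      simp only [sl]
      rw [hval]
      simp [hσ]
    · refine ⟨0, ?_⟩
      simp only [sl]
      rw [hval]
      simp [hσ]
    · by_cases h1 : i.val < (w k).val
      · refine ⟨2, ?_⟩
        change τ (ι (Sum.inr (k, i.succ))) = true
        rw [hval]
        simp only [hσ, Fin.val_succ, decide_eq_true_eq]
        omega
      · by_cases h2 : i = w k
        · refine ⟨1, ?_⟩
          change τ (ι (Sum.inl (k, i))) = true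
          rw [hval]
          simp [hσ, h2]
        · refine ⟨0, ?_⟩
          change τ (ι (Sum.inr (k, i.castSucc))) = false
          rw [hval]
          have : i.val ≠ (w k).val := fun h => h2 (Fin.ext h)
          simp only [hσ, Fin.val_castSucc, decide_eq_false_iff_not]
          omega
    · by_cases h1 : x = w k
      · by_cases h2 : y = w k'
        · exfalso
          apply hxy
          rw [h1, h2]
          exact hadj k k' hk
        · refine ⟨1, ?_⟩
          change τ (ι (Sum.inl (k', y))) = false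
          rw [hval]
          simp [hσ, h2]
      · refine ⟨0, ?_⟩
        change τ (ι (Sum.inl (k, x))) = false
        rw [hval]
        simp [hσ, h1]

/-- the clauses that depend on an edge -/
def SE (e : Sym2 (Fin n)) : Set (Cls v) := {c | ∃ k k' a b, k < k' ∧ c = conf ι k k' a b ∧ e = s(a, b)}

variable {V : Type}

open Classical in
/-- the program on graphs -/
noncomputable def redP (P : Prog (Cls v) V) : Prog (Sym2 (Fin n)) V where
  start := P.start
  acc := P.acc
  reads u := Finset.univ.filter (fun e => ∃ c ∈ P.reads u, c ∈ SE ι e)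
  step u x w := P.step u (form ι x) w
  loc := by
    intro u w x y hxy
    refine P.loc u w _ _ ?_
    intro c hc
    by_cases hf : c ∈ fixedC ι
    · exact ⟨fun _ => Or.inl hf, fun _ => Or.inl hf⟩
    · constructor
      · rintro (h | ⟨k, k', a, b, hk, rfl, h⟩)
        · exact absurd h hf
        · refine Or.inr ⟨k, k', a, b, hk, rfl, fun h' => h ?_⟩
          exact (hxy s(a, b) (by
            simp only [mem_filter, mem_univ, true_and]
            exact ⟨_, hc, k, k', a, b, hk, rfl, rfl⟩)).2 h'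
      · rintro (h | ⟨k, k', a, b, hk, rfl, h⟩)
        · exact absurd h hf
        · refine Or.inr ⟨k, k', a, b, hk, rfl, fun h' => h ?_⟩
          exact (hxy s(a, b) (by
            simp only [mem_filter, mem_univ, true_and]
            exact ⟨_, hc, k, k', a, b, hk, rfl, rfl⟩)).1 h'

lemma redP_accepts (P : Prog (Cls v) V) (x : Set (Sym2 (Fin n))) :
    (redP ι P).Accepts x ↔ P.Accepts (form ι x) := Iff.rfl

lemma SE_inj {c : Cls v} {e e' : Sym2 (Fin n)} (h : c ∈ SE ι e) (h' : c ∈ SE ι e') : e = e' := by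
  obtain ⟨k, k', a, b, _, rfl, rfl⟩ := h
  obtain ⟨l, l', a', b', _, h1, rfl⟩ := h'
  obtain ⟨_, _, rfl, rfl⟩ := conf_inj ι h1
  rfl

lemma redP_chunk (P : Prog (Cls v) V) {b : ℕ} (hb : P.ChunkAtMost b) : (redP ι P).ChunkAtMost b := by
  classical
  intro u
  refine le_trans ?_ (hb u)
  have h1 : ∀ e ∈ (redP ι P).reads u, ∃ c ∈ P.reads u, c ∈ SE ι e := by
    intro e he
    simpa [redP] using he
  refine Finset.card_le_card_of_forall_subsingleton (fun e c => c ∈ SE ι e) h1 ?_
  rintro c _ e ⟨_, he⟩ e' ⟨_, he'⟩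
  exact SE_inj ι he he'

lemma SE_card (e : Sym2 (Fin n)) : ∃ S : Finset (Cls v), S.card ≤ 18 ∧ ∀ c ∈ SE ι e, c ∈ S := by
  classical
  induction e with
  | h a b =>
    refine ⟨Finset.univ.image (fun q : Fin 3 × Fin 3 × Bool =>
      if q.2.2 then conf ι q.1 q.2.1 a b else conf ι q.1 q.2.1 b a), ?_, ?_⟩
    · refine Finset.card_image_le.trans ?_
      simp
    · rintro c ⟨k, k', x, y, _, rfl, h⟩
      rw [Sym2.eq_iff] at h
      rw [Finset.mem_image]
      rcases h with ⟨rfl, rfl⟩ | ⟨rfl, rfl⟩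
      · exact ⟨(k, k', true), Finset.mem_univ _, by simp⟩
      · exact ⟨(k, k', false), Finset.mem_univ _, by simp⟩

lemma filter_union_le {α β : Type} (l : List α) (S : Finset β) (p : β → α → Bool) (q : α → Bool)
    (h : ∀ a, q a = true → ∃ c ∈ S, p c a = true) :
    (l.filter q).length ≤ ∑ c ∈ S, (l.filter (p c)).length := by
  induction l with
  | nil => simp
  | cons a l ih =>
    have h1 : ((a :: l).filter q).length = (if q a = true then 1 else 0) + (l.filter q).length := by
      rw [List.filter_cons]; split_ifs <;> simp [add_comm]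
    have h2 : ∀ c, ((a :: l).filter (p c)).length =
        (if p c a = true then 1 else 0) + (l.filter (p c)).length := by
      intro c
      rw [List.filter_cons]; split_ifs <;> simp [add_comm]
    rw [h1, Finset.sum_congr rfl (fun c _ => h2 c), Finset.sum_add_distrib]
    refine Nat.add_le_add ?_ ih
    split_ifs with hq
    · obtain ⟨c, hc, hp⟩ := h a hq
      have := Finset.single_le_sum (f := fun c => if p c a = true then 1 else 0)
        (fun _ _ => Nat.zero_le _) hc
      simpa [hp] using this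
    · exact Nat.zero_le _

lemma redP_read (P : Prog (Cls v) V) {r : ℕ} (hr : P.ReadBound (fun _ => r)) :
    (redP ι P).ReadBound (fun _ => 18 * r) := by
  classical
  intro l hl e
  have hl' : Walk P.Syn P.start P.acc l := hl.mono (fun v w h => by
    obtain ⟨x, hx⟩ := h
    exact ⟨_, hx⟩)
  obtain ⟨S, hS, hSE⟩ := SE_card ι e
  have h1 := filter_union_le l S (fun c u => decide (c ∈ P.reads u))
    (fun u => decide (e ∈ (redP ι P).reads u)) (by
      intro u hu
      simp only [decide_eq_true_eq] at hu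
      have : ∃ c ∈ P.reads u, c ∈ SE ι e := by simpa [redP] using hu
      obtain ⟨c, hc1, hc2⟩ := this
      exact ⟨c, hSE c hc2, by simpa using hc1⟩)
  have h2 : ∑ c ∈ S, (l.filter (fun u => decide (c ∈ P.reads u))).length ≤ 18 * r := by
    calc ∑ c ∈ S, (l.filter (fun u => decide (c ∈ P.reads u))).length ≤ ∑ _c ∈ S, r := by
          refine Finset.sum_le_sum (fun c _ => ?_)
          have := hr l hl' c
          refine le_trans (le_of_eq ?_) this
          refine congrArg List.length (List.filter_congr ?_)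
          intro u _
          exact decide_eq_decide.2 Iff.rfl
      _ = S.card * r := by rw [Finset.sum_const, smul_eq_mul]
      _ ≤ 18 * r := Nat.mul_le_mul_right _ hS
  refine le_trans (le_of_eq ?_) (h1.trans h2)
  refine congrArg List.length (List.filter_congr ?_)
  intro u _
  exact decide_eq_decide.2 Iff.rfl

end enc

lemma card_sym2 (n : ℕ) : Fintype.card (Sym2 (Fin n)) ≤ n ^ 2 := by
  rw [Sym2.card, Fintype.card_fin, Nat.choose_two_right]
  rcases Nat.eq_zero_or_pos n with h | h
  · subst h; simp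
  · have : (n + 1) * (n + 1 - 1) ≤ 2 * n ^ 2 := by
      simp only [Nat.add_sub_cancel]
      nlinarith
    omega

theorem unsat_lower : ∃ C : ℕ, 0 < C ∧ ∀ v r b : ℕ, 1 ≤ r → C * r ^ 2 * b ≤ v ^ 2 →
    ∀ (W V : Type) [Fintype W] [Fintype V] (P : W → Prog (Cls v) V),
      (∀ w, (P w).ReadBound (fun _ => r)) → (∀ w, (P w).ChunkAtMost b) →
      (∀ F : Set (Cls v), (∃ w, (P w).Accepts F) ↔ ¬ Sat F) →
      (v : ℝ) ^ (3 / 2 : ℝ) ≤ (C : ℝ) ^ r *
        (Real.logb 2 (Fintype.card W) + Real.logb 2 (Fintype.card V) + 1) := by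
  obtain ⟨C, hC, h⟩ := main
  refine ⟨(144 * 324 * C) ^ 18, by positivity, ?_⟩
  intro v r b hr hb W V _ _ P hread hchunk hP
  have hWl : 0 ≤ Real.logb 2 (Fintype.card W) := by
    rcases Nat.eq_zero_or_pos (Fintype.card W) with h0 | h0
    · rw [h0]; simp
    · exact Real.logb_nonneg (by norm_num) (by exact_mod_cast h0)
  have hVl : 0 ≤ Real.logb 2 (Fintype.card V) := by
    rcases Nat.eq_zero_or_pos (Fintype.card V) with h0 | h0
    · rw [h0]; simp
    · exact Real.logb_nonneg (by norm_num) (by exact_mod_cast h0)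
  set L := Real.logb 2 (Fintype.card W) + Real.logb 2 (Fintype.card V) + 1 with hL
  have hL1 : 1 ≤ L := by linarith
  have hCC : (144 * 324 * C : ℕ) ≤ (144 * 324 * C) ^ 18 := Nat.le_self_pow (by norm_num) _
  have hC1 : (1 : ℝ) ≤ C := by exact_mod_cast hC
  -- constants
  have hbig : (84 : ℝ) * (C : ℝ) ^ (18 * r) ≤ (((144 * 324 * C) ^ 18 : ℕ) : ℝ) ^ r := by
    push_cast
    rw [← pow_mul, mul_pow]
    have h1 : (84 : ℝ) ≤ 46656 ^ (18 * r) := by
      calc (84 : ℝ) ≤ 46656 := by norm_num
        _ ≤ 46656 ^ (18 * r) := le_self_pow₀ (by norm_num) (by omega)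
    exact mul_le_mul_of_nonneg_right h1 (by positivity)
  by_cases hv : v < 16
  · have h1 : (v : ℝ) ^ (3 / 2 : ℝ) ≤ 64 := by
      have h2 : (v : ℝ) ≤ 16 := by exact_mod_cast hv.le
      calc (v : ℝ) ^ (3 / 2 : ℝ) ≤ (16 : ℝ) ^ (3 / 2 : ℝ) :=
            Real.rpow_le_rpow (by positivity) h2 (by norm_num)
        _ = 64 := by
            rw [show (16 : ℝ) = 4 ^ (2 : ℝ) by norm_num, ← Real.rpow_mul (by norm_num)]
            norm_num
    have h3 : (1 : ℝ) ≤ (C : ℝ) ^ (18 * r) := one_le_pow₀ hC1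
    calc (v : ℝ) ^ (3 / 2 : ℝ) ≤ 84 * 1 * 1 := by linarith
      _ ≤ 84 * (C : ℝ) ^ (18 * r) * L := by gcongr
      _ ≤ _ := mul_le_mul_of_nonneg_right hbig (by linarith)
  · push Not at hv
    obtain ⟨n, hn⟩ : ∃ n, n = (v - 3) / 6 := ⟨_, rfl⟩
    have hn1 : 6 * n + 3 ≤ v := by omega
    have hn2 : v ≤ 12 * n := by omega
    obtain ⟨m, hm⟩ : ∃ m, m = Nat.sqrt (n ^ 3) := ⟨_, rfl⟩
    have hm1 : m ^ 2 ≤ n ^ 3 := by
      rw [hm, sq]; exact Nat.sqrt_le _
    have hm2 : n ^ 3 < (m + 1) ^ 2 := by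
      rw [hm, sq]; exact Nat.lt_succ_sqrt _
    have ι : VarT n ↪ Fin v := by
      refine Classical.choice (Function.Embedding.nonempty_of_card_le ?_)
      simp only [Fintype.card_sum, Fintype.card_prod, Fintype.card_fin]
      omega
    have hbb : C * (18 * r) ^ 2 * b ≤ n ^ 2 := by
      have h1 : 144 * (C * (18 * r) ^ 2 * b) ≤ 144 * n ^ 2 := by
        calc 144 * (C * (18 * r) ^ 2 * b) = (144 * 324 * C) * r ^ 2 * b := by ring
          _ ≤ (144 * 324 * C) ^ 18 * r ^ 2 * b := by gcongr
          _ ≤ v ^ 2 := hb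
          _ ≤ (12 * n) ^ 2 := Nat.pow_le_pow_left hn2 2
          _ = 144 * n ^ 2 := by ring
      omega
    have hmain := h n m (18 * r) b hm1 (by omega) hbb W V (fun w => redP ι (P w))
      (fun w => ⟨fun _ => 18 * r, redP_read ι (P w) (hread w), by
        rw [Finset.sum_const, smul_eq_mul, Finset.card_univ]
        rw [mul_comm]
        exact Nat.mul_le_mul_left _ (card_sym2 n)⟩)
      (fun w => redP_chunk ι (P w) (hchunk w)) (fun G _ => by
        simp only [redP_accepts]
        rw [hP, form_sat, not_not])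
    -- v ^ (3/2) ≤ 42 (m + 1)
    have hv1 : (v : ℝ) ^ (3 / 2 : ℝ) ≤ 42 * (m + 1) := by
      have h1 : ((v : ℝ) ^ (3 / 2 : ℝ)) ^ 2 ≤ (42 * ((m : ℝ) + 1)) ^ 2 := by
        have h2 : ((v : ℝ) ^ (3 / 2 : ℝ)) ^ 2 = (v : ℝ) ^ 3 := by
          rw [← Real.rpow_natCast, ← Real.rpow_mul (by positivity)]
          norm_num
        rw [h2]
        have h3 : v ^ 3 ≤ 42 ^ 2 * (m + 1) ^ 2 := by
          calc v ^ 3 ≤ (12 * n) ^ 3 := Nat.pow_le_pow_left hn2 3
            _ = 1728 * n ^ 3 := by ring
            _ ≤ 1728 * (m + 1) ^ 2 := Nat.mul_le_mul_left _ hm2.le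
            _ ≤ 42 ^ 2 * (m + 1) ^ 2 := Nat.mul_le_mul_right _ (by norm_num)
        calc (v : ℝ) ^ 3 ≤ 42 ^ 2 * ((m : ℝ) + 1) ^ 2 := by exact_mod_cast h3
          _ = (42 * ((m : ℝ) + 1)) ^ 2 := by ring
      exact (pow_le_pow_iff_left₀ (by positivity) (by positivity) (by norm_num)).1 h1
    have h4 : (1 : ℝ) ≤ (C : ℝ) ^ (18 * r) * L := by
      calc (1 : ℝ) = 1 * 1 := by norm_num
        _ ≤ (C : ℝ) ^ (18 * r) * L := mul_le_mul (one_le_pow₀ hC1) hL1 (by norm_num) (by positivity)
    calc (v : ℝ) ^ (3 / 2 : ℝ) ≤ 42 * (m + 1) := hv1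
      _ ≤ 42 * ((C : ℝ) ^ (18 * r) * L + (C : ℝ) ^ (18 * r) * L) := by gcongr
      _ = (84 * (C : ℝ) ^ (18 * r)) * L := by ring
      _ ≤ _ := mul_le_mul_of_nonneg_right hbig (by linarith)

end Pool.Agent.Lib_helper26.TriRead
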